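import Pool.Agent.P.MP_dba3d2_lc.B.Fix
import Pool.Agent.P.MP_dba3d2_lc.A.Iface

/-! Shared toolbox, part four: axes of elements of infinite order. -/

namespace Pool.Agent.P.MP_dba3d2_lc

open Filter

variable {Γ : HG} {a : Amb} {μ : a.K} {c c' d f g h m p q r x y z : MM Γ a}

theorem Ep_eq (hE : S_ELEM) (hc : ¬ IsOfFinOrder c) (h : f ∈ Ep c) (hf : ¬ IsOfFinOrder f) :
    Ep f = Ep c := (hE Γ a c hc).2.1 f h hf
theorem Ep_pow (hE : S_ELEM) (hc : ¬ IsOfFinOrder c) {n : ℕ} (hn : n ≠ 0) :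
    ¬ IsOfFinOrder (c ^ n) ∧ Ep (c ^ n) = Ep c :=
  have h : ¬ IsOfFinOrder (c ^ n) := fun e => hc (e.of_pow hn)
  ⟨h, Ep_eq hE hc (pow_mem (self_mem_Ep c) n) h⟩
theorem InE.mem (hE : S_ELEM) (hc : ¬ IsOfFinOrder c) (h : InE c g) (hg : ¬ IsOfFinOrder g) :
    g ∈ Ep c := by
  by_contra hn
  exact hg ((hE Γ a c hc).2.2.2.2.1 g h hn)
theorem tors_mul (hE : S_ELEM) (hc : ¬ IsOfFinOrder c) (hf : f ∈ Ep c) (hg : g ∈ Ep c)
    (h1 : IsOfFinOrder f) (h2 : IsOfFinOrder g) : IsOfFinOrder (f * g) :=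
  (hE Γ a c hc).2.2.1 f hf g hg h1 h2
theorem ipow_inf (hE : S_ELEM) (hc : ¬ IsOfFinOrder c) {k : a.Z} (hk : k ≠ 0) :
    ¬ IsOfFinOrder (ipow c k) := (hE Γ a c hc).2.2.2.2.2.1 k hk
theorem ee_ne_zero (Γ : HG) : Γ.e * Γ.e ≠ 0 := Nat.mul_ne_zero Γ.good.pos.ne' Γ.good.pos.ne'
theorem pow_sq_eq (hE : S_ELEM) (hc : ¬ IsOfFinOrder c) (hf : f ∈ Ep c) (hg : g ∈ Ep c)
    (h : IsOfFinOrder (f⁻¹ * g)) : f ^ (Γ.e * Γ.e) = g ^ (Γ.e * Γ.e) := by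
  have h1 : ∀ n : ℕ, IsOfFinOrder ((f ^ n)⁻¹ * g ^ n) := by
    intro n
    induction n with
    | zero => simp
    | succ n ih =>
      have e : (f ^ (n + 1))⁻¹ * g ^ (n + 1) = f⁻¹ * ((f ^ n)⁻¹ * g ^ n) * f * (f⁻¹ * g) := by
        rw [pow_succ, pow_succ]; group
      rw [e]
      exact tors_mul hE hc (mul_mem (mul_mem (inv_mem hf) (mul_mem (inv_mem (pow_mem hf n))
        (pow_mem hg n))) hf) (mul_mem (inv_mem hf) hg) ((finOrder_conj' _ _).2 ih) h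
  have h2 := isOfFinOrder_iff.1 (h1 Γ.e)
  have h3 : Commute (f ^ Γ.e) (g ^ Γ.e) := (hE Γ a c hc).2.2.2.2.2.2.2.1 f hf _ (pow_mem hg _)
  rw [h3.inv_left.mul_pow, inv_pow, inv_mul_eq_one, ← pow_mul, ← pow_mul] at h2
  exact h2
theorem ipow_pow' (c : MM Γ a) (n : ℕ) (k : a.Z) : ipow (c ^ n) k = ipow c k ^ n := by
  rw [← ipow_natCast, ← ipow_mul, ipow_pow, mul_comm]
theorem Prim.pm (hE : S_ELEM) (hc : Prim c) (hc' : Prim c') (h : Ep c' = Ep c) :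
    IsOfFinOrder (c'⁻¹ * c) ∨ IsOfFinOrder (c'⁻¹ * c⁻¹) := by
  have m1 : c' ∈ Ep c := h ▸ self_mem_Ep c'
  have m2 : c ∈ Ep c' := h ▸ self_mem_Ep c
  obtain ⟨k, hk⟩ := hc.2 c' m1
  obtain ⟨l, hl⟩ := hc'.2 c m2
  have e1 := pow_sq_eq hE hc.1 m1 (ipow_mem_Ep c k) hk
  have e2 := pow_sq_eq hE hc'.1 m2 (ipow_mem_Ep c' l) hl
  rw [← ipow_pow', e1, ipow_pow', ← ipow_mul, ipow_pow, ← ipow_natCast] at e2
  have e3 : k * l = 1 := by
    by_contra hn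
    refine ipow_inf hE hc.1 (mul_ne_zero_Z (sub_ne_zero.2 hn) (natCast_ne_zero_Z (ee_ne_zero Γ))) ?_
    rw [sub_mul, one_mul, sub_eq_add_neg, ipow_add, ipow_neg, ← e2, mul_inv_cancel]
    exact IsOfFinOrder.one
  rcases unit_Z e3 with rfl | rfl
  · left; rwa [ipow_one] at hk
  · right; rwa [ipow_neg, ipow_one] at hk
theorem Prim.pow_pm (hE : S_ELEM) (hc : Prim c) (hc' : Prim c') (h : Ep c' = Ep c) :
    c' ^ (Γ.e * Γ.e) = c ^ (Γ.e * Γ.e) ∨ (c' ^ (Γ.e * Γ.e))⁻¹ = c ^ (Γ.e * Γ.e) := by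
  have m1 : c' ∈ Ep c := h ▸ self_mem_Ep c'
  rcases hc.pm hE hc' h with e | e
  · exact Or.inl (pow_sq_eq hE hc.1 m1 (self_mem_Ep c) e)
  · right
    rw [pow_sq_eq hE hc.1 m1 (inv_mem (self_mem_Ep c)) e, inv_pow, inv_inv]
theorem Cj.pow (hE : S_ELEM) (hc : Prim c) (hc' : Prim c') (h : Cj x c' c) :
    x * c' ^ (Γ.e * Γ.e) * x⁻¹ = c ^ (Γ.e * Γ.e) ∨
      x * (c' ^ (Γ.e * Γ.e))⁻¹ * x⁻¹ = c ^ (Γ.e * Γ.e) := by
  rcases hc.pow_pm hE (hc'.conj x) h with e | e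
  · left; rw [← e, conj_pow]
  · right; rw [← e, conj_pow]; group

theorem disp_ipow (c : MM Γ a) (k : a.Z) (z : MM Γ a) :
    ds (ipow c k * z) (c * (ipow c k * z)) = ds z (c * z) :=
  disp_comm (commute_ipow (Commute.refl c) k).symm z

/-- every point is close to a centre, compared with its displacement -/
theorem exists_centre (hL : S_LINE) (hc : ¬ IsOfFinOrder c) (p : MM Γ a) :
    ∃ z, ds z (c * z) = md c ∧ Ls (ds p z) (ds p (c * p)) := by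
  obtain ⟨q, hq⟩ := exists_md_ds c
  obtain ⟨k, hk⟩ := (hL Γ a c q hc (Ls.of_le hq.le)).2.1 p
  exact ⟨_, (disp_ipow c k q).trans hq, hk⟩

theorem tors_disp (hL : S_LINE) (hc : ¬ IsOfFinOrder c) (hf : f ∈ Ep c) (h : IsOfFinOrder f)
    (p : MM Γ a) : Ls (ds p (f * p)) (ds p (c * p)) := by
  obtain ⟨z, hz, hp⟩ := exists_centre hL hc p
  have h1 := (hL Γ a c z hc (Ls.of_le hz.le)).2.2 f hf h
  exact Ls.mono_left (disp_le f p z) (hp.two.add (h1.mono_right (md_le_ds c p)))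
theorem ipow_disp (hE : S_ELEM) (hL : S_LINE) (hc : ¬ IsOfFinOrder c) {k : a.Z} (hk : k ≠ 0)
    (p : MM Γ a) : Ls (ds p (c * p)) (ds p (ipow c k * p)) := by
  obtain ⟨q, hq⟩ := exists_md_ds c
  obtain ⟨L, hL1, hL2⟩ := (hL Γ a c q hc (Ls.of_le hq.le)).1
  have hL0 : 0 < L := hL1.2.pos (one_pos.trans_le (one_le_md' hc))
  have h1 : L ≤ |zK k| * L := le_mul_of_one_le_left hL0.le (one_le_abs_zK hk)
  have h2 : Ls (md c) (md (ipow c k)) := hL1.2.mono_right (h1.trans (hL2 k).2.2)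
  have h3 : Ls (ds q (ipow c k * q)) (md (ipow c k)) :=
    Ls.mono_left (by linarith) (((hL2 k).2.1.trans' h2).add (Ls.of_le (hL2 k).2.2))
  obtain ⟨j, hj⟩ := (hL Γ a _ q (ipow_inf hE hc hk) h3).2.1 p
  rw [← ipow_mul] at hj
  refine Ls.mono_left (disp_le c p (ipow c (k * j) * q)) (hj.two.add ?_)
  rw [disp_ipow, hq]
  exact h2.mono_right (md_le_ds _ p)
theorem pow_disp (hE : S_ELEM) (hL : S_LINE) (hc : ¬ IsOfFinOrder c) {n : ℕ} (hn : n ≠ 0)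
    (p : MM Γ a) : Ls (ds p (c * p)) (ds p (c ^ n * p)) := by
  rw [← ipow_natCast]
  exact ipow_disp hE hL hc (natCast_ne_zero_Z hn) p
/-- a primitive element moves points no more than the elements of infinite order of its closure -/
theorem Prim.disp (hE : S_ELEM) (hL : S_LINE) (hc : Prim c) (hf : f ∈ Ep c)
    (h : ¬ IsOfFinOrder f) (p : MM Γ a) : Ls (ds p (c * p)) (ds p (f * p)) := by
  obtain ⟨k, hk⟩ := hc.2 f hf
  have e := pow_sq_eq hE hc.1 hf (ipow_mem_Ep c k) hk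
  have hk0 : k ≠ 0 := by
    rintro rfl
    rw [ipow_zero, mul_one] at hk
    exact h (isOfFinOrder_inv_iff.1 hk)
  have h1 := ipow_disp hE hL hc.1 (mul_ne_zero_Z hk0 (natCast_ne_zero_Z (ee_ne_zero Γ))) p
  rw [← ipow_pow, ← e] at h1
  exact h1.trans' ⟨_, disp_pow f p _⟩
theorem Prim.disp' (hE : S_ELEM) (hL : S_LINE) (hc : Prim c) (h : ¬ IsOfFinOrder d)
    (he : Ep c = Ep d) (p : MM Γ a) : Ls (ds p (c * p)) (ds p (d * p)) :=
  hc.disp hE hL (he ▸ self_mem_Ep d) h p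
theorem Prim.md_ls (hE : S_ELEM) (hL : S_LINE) (hc : Prim c) (h : ¬ IsOfFinOrder d)
    (he : Ep c = Ep d) : Ls (md c) (md d) := by
  obtain ⟨q, hq⟩ := exists_md_ds d
  exact Ls.mono_left (md_le_ds c q) (hq ▸ hc.disp' hE hL h he q)
theorem Prim.fix (hE : S_ELEM) (hL : S_LINE) (hc : Prim c) (h : ¬ IsOfFinOrder d)
    (he : Ep c = Ep d) (hp : Ll (ds p (d * p)) μ) : Ll (ds p (c * p)) μ :=
  Ll.ls_left (hc.disp' hE hL h he p) hp
theorem md_pow_le (g : MM Γ a) (n : ℕ) : md (g ^ n) ≤ n * md g := by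
  obtain ⟨q, hq⟩ := exists_md_ds g
  exact (md_le_ds _ q).trans (hq ▸ disp_pow g q n)
theorem md_pow_ls (hE : S_ELEM) (hL : S_LINE) (hc : ¬ IsOfFinOrder c) {n : ℕ} (hn : n ≠ 0) :
    Ls (md c) (md (c ^ n)) := by
  obtain ⟨q, hq⟩ := exists_md_ds (c ^ n)
  exact Ls.mono_left (md_le_ds c q) (hq ▸ pow_disp hE hL hc hn q)
/-- long powers -/
theorem pow_long (hL : S_LINE) (hc : ¬ IsOfFinOrder c) {D : a.K} (h : Ls D (md c)) :
    ∃ N : ℕ, N ≠ 0 ∧ ∀ n, N ≤ n → D ≤ md (c ^ n) := by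
  obtain ⟨q, hq⟩ := exists_md_ds c
  obtain ⟨L, hL1, hL2⟩ := (hL Γ a c q hc (Ls.of_le hq.le)).1
  have hL0 : 0 < L := hL1.2.pos (one_pos.trans_le (one_le_md' hc))
  obtain ⟨N, hN⟩ := h.trans' hL1.2
  refine ⟨N + 1, N.succ_ne_zero, fun n hn => hN.trans ?_⟩
  have h1 := (hL2 (n : a.Z)).2.2
  rw [ipow_natCast, zK_natCast, abs_of_nonneg (Nat.cast_nonneg n)] at h1
  refine le_trans (mul_le_mul_of_nonneg_right ?_ hL0.le) h1
  exact_mod_cast (Nat.le_succ N).trans hn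
/-- a conjugator of centred primitive elements is short up to an exponent -/
theorem short_conj (hE : S_ELEM) (hL : S_LINE) (hc : Prim c) (hc' : Prim c') (h1 : Cen c)
    (h2 : Cen c') (h : Cj y c' c) : ∃ k : a.Z, Ls (ln ((ipow c k)⁻¹ * y)) (md c) := by
  obtain ⟨k, hk⟩ := (hL Γ a c 1 hc.1 (by rw [ds_one_mul]; exact h1)).2.1 y
  refine ⟨k, ?_⟩
  rw [mul_one, ds_comm] at hk
  have h3 := hc.disp' hE hL (hc'.conj y).1 h.symm y
  have e : ds y (y * c' * y⁻¹ * y) = ln c' := by rw [inv_mul_cancel_right, ds_mul_right]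
  have h4 := (hc'.conj y).md_ls hE hL hc.1 h
  rw [md_conj'] at h4
  rw [e] at h3
  exact (hk.trans' h3).trans' (Ls.trans' h2 h4)
/-- coordinates on the axis, from a centre `z` of `c` -/
theorem exists_coord (hL : S_LINE) (hc : ¬ IsOfFinOrder c) (hz : Ls (ds z (c * z)) (md c)) :
    ∃ L : a.K, Sim L (md c) ∧ ∀ μ : a.K, Ll (md c) μ →
      (∀ k l : a.Z, Ll (ds (ipow c k * z) (ipow c l * z) - |zK k - zK l| * L) μ ∧
        |zK k - zK l| * L ≤ ds (ipow c k * z) (ipow c l * z)) ∧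
      (∀ i j k : a.Z, i ≤ j → j ≤ k → On μ (ipow c j * z) (ipow c i * z) (ipow c k * z)) ∧
      ∀ p, Ll (ds p (c * p)) μ ↔ ∃ k : a.Z, Ll (ds p (ipow c k * z)) μ := by
  obtain ⟨⟨L, hL1, hL2⟩, hL3, -⟩ := hL Γ a c z hc hz
  refine ⟨L, hL1, fun μ hμ => ?_⟩
  have h1 : ∀ k l : a.Z, Ll (ds (ipow c k * z) (ipow c l * z) - |zK k - zK l| * L) μ ∧
      |zK k - zK l| * L ≤ ds (ipow c k * z) (ipow c l * z) := by
    intro k l
    rw [ds_ipow, abs_sub_comm, ← zK_sub]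
    exact ⟨Ll.ls_left (hL2 _).2.1 hμ, (hL2 _).1⟩
  refine ⟨h1, fun i j k hij hjk => ?_, fun p => ⟨fun hp => ?_, fun ⟨k, hk⟩ => ?_⟩⟩
  · have a1 := (h1 i j).1
    have a2 := (h1 j k).1
    have a3 := (h1 i k).2
    have b1 := zK_le.2 hij
    have b2 := zK_le.2 hjk
    rw [abs_of_nonpos (by linarith)] at a1 a2 a3
    exact Ll.mono_left (by linarith) (a1.add a2)
  · obtain ⟨k, hk⟩ := hL3 p
    exact ⟨k, Ll.ls_left hk hp⟩
  · refine Ll.mono_left (disp_le c p (ipow c k * z)) (hk.two.add ?_)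
    rw [disp_ipow]
    exact Ll.ls_left hz hμ
/-- an element of the closure that fixes one point of the axis fixes the axis -/
theorem fix_of_fix (hE : S_ELEM) (hL : S_LINE) (hd : ¬ IsOfFinOrder d) (hg : g ∈ Ep d)
    (hp : Ll (ds p (d * p)) μ) (hm : Ll (md g) μ) : Ll (ds p (g * p)) μ := by
  obtain ⟨c, hc, he⟩ := (hE Γ a d hd).1
  have hp' := hc.fix hE hL hd he hp
  rw [← he] at hg
  obtain ⟨k, hk⟩ := hc.2 g hg
  obtain ⟨z, hz, hpz⟩ := exists_centre hL hc.1 p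
  obtain ⟨L, hL1, hL2⟩ := (hL Γ a c z hc.1 (Ls.of_le hz.le)).1
  have hL0 : 0 < L := hL1.2.pos (one_pos.trans_le (one_le_md' hc.1))
  have e := pow_sq_eq hE hc.1 hg (ipow_mem_Ep c k) hk
  have h1 := (hL2 (k * ((Γ.e * Γ.e : ℕ) : a.Z))).2.2
  rw [← ipow_pow, ← e, zK_mul, zK_natCast, abs_mul, Nat.abs_cast] at h1
  have h2 : |zK k| * L ≤ |zK k| * ((Γ.e * Γ.e : ℕ) : a.K) * L := by
    refine mul_le_mul_of_nonneg_right (le_mul_of_one_le_right (abs_nonneg _) ?_) hL0.le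
    exact_mod_cast Nat.one_le_iff_ne_zero.2 (ee_ne_zero Γ)
  have h3 : Ll (|zK k| * L) μ := Ll.mono_left ((h2.trans h1).trans (md_pow_le g _)) (hm.nat_mul _)
  have hmd : Ll (md c) μ := Ll.mono_left (md_le_ds c p) hp'
  have h4 : Ll (ds p (ipow c k * p)) μ :=
    Ll.mono_left (by linarith [disp_le (ipow c k) p z])
      (((Ll.ls_left hpz hp').two.add h3).add (Ll.ls_left (hL2 k).2.1 hmd))
  have h5 : Ll (ds p (g⁻¹ * ipow c k * p)) μ :=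
    Ll.ls_left (tors_disp hL hc.1 (mul_mem (inv_mem hg) (ipow_mem_Ep c k)) hk p) hp'
  have h6 := fix_mul h4 (fix_inv h5)
  rwa [mul_inv_rev, inv_inv, mul_inv_cancel_left] at h6

end Pool.Agent.P.MP_dba3d2_lc
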