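import Pool.Agent.P.MP_dba3d2_lc.B.Axis
import Pool.Agent.P.MP_dba3d2_lc.A.Bas1

/-! Shared toolbox, part five: periodic segments. -/

namespace Pool.Agent.P.MP_dba3d2_lc

open Filter

variable {Γ : HG} {a : Amb} {μ : a.K} {c c' d f g h m p q r x y z : MM Γ a}

theorem mem_Ep_of_stab (hE : S_ELEM) (hP : S_PERC) (hμ : Big μ) (hn : Ls μ (ds p q))
    (hc : ¬ IsOfFinOrder c) (h1 : Stab μ p q c) (h2 : Stab μ p q g) : g ∈ Ep c := by
  obtain ⟨c0, h0, -, h3⟩ := hP Γ a μ p q hμ hn ⟨c, hc, h1⟩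
  rw [Ep_eq hE h0.1 (h3 c h1) hc]
  exact h3 g h2
theorem Ep_eq_of_stab (hE : S_ELEM) (hP : S_PERC) (hμ : Big μ) (hn : Ls μ (ds p q))
    (hc : ¬ IsOfFinOrder c) (hd : ¬ IsOfFinOrder d) (h1 : Stab μ p q c) (h2 : Stab μ p q d) :
    Ep c = Ep d := (Ep_eq hE hc (mem_Ep_of_stab hE hP hμ hn hc h1 h2) hd).symm
/-- an element that maps a nondegenerate piece of an axis into the axis preserves it -/
theorem inE_of_stab (hE : S_ELEM) (hP : S_PERC) (hμ : Big μ) (hn : Ls μ (ds p q))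
    (hd : ¬ IsOfFinOrder d) (h1 : Stab μ p q d) (h2 : Stab μ (g * p) (g * q) d) : InE d g := by
  have h3 := Ep_eq_of_stab hE hP hμ hn ((finOrder_conj' g d).not.2 hd) hd ((stab_conj' g).2 h2) h1
  simpa using (((hE Γ a d hd).2.2.2.1 g⁻¹).2 (by rwa [Cj, inv_inv])).inv
/-- a nonperiodic segment has an inner nonperiodic subsegment -/
theorem inner_nper (hE : S_ELEM) (hL : S_LINE) (hP : S_PERC) (hμ : Big μ) (hn : Ls μ (ds p q))
    (h : ¬ Per μ p q) : ∃ r s, On μ r p q ∧ On μ s p q ∧ On μ r p s ∧ On μ s r q ∧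
      Ls μ (ds p r) ∧ Ls μ (ds r s) ∧ Ls μ (ds s q) ∧ ¬ Per μ r s := by
  obtain ⟨M, hM⟩ := id hn
  have m0 := hμ.pos
  have d0 := ds_nonneg p q
  have dc := ds_comm p q
  obtain ⟨t, e⟩ : ∃ t : ℕ → a.K, ∀ n : ℕ, 4 * (M + 1) * (n + 1) * t n = μ :=
    ⟨fun n => μ / (4 * (M + 1) * (n + 1)), fun n => mul_div_cancel₀ _ (by positivity)⟩
  have t0 : ∀ n, 0 ≤ t n := fun n => le_of_mul_le_mul_left (by rw [mul_zero, e]; exact m0.le)
    (show (0 : a.K) < 4 * (M + 1) * (n + 1) by positivity)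
  have t1 : ∀ n : ℕ, (n + 1) * t n = t 0 := fun n =>
    mul_left_cancel₀ (show (4 * (M + 1) : a.K) ≠ 0 by positivity) (by
      rw [← mul_assoc, e, ← e 0]; simp)
  have t2 : ∀ n, t n ≤ t 0 := fun n => by
    linarith [t1 n, t0 n, mul_nonneg (n.cast_nonneg (α := a.K)) (t0 n)]
  have t3 : 4 * t 0 ≤ ds p q := le_of_mul_le_mul_left (by
    have := e 0
    push_cast at this
    linarith) (show (0 : a.K) < M + 1 by positivity)
  have t4 : ∀ n, Ls μ (t n) := fun n => ⟨4 * (M + 1) * (n + 1), by push_cast; exact (e n).ge⟩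
  choose r r1 r2 r3 r4 using fun n => exists_on hμ p q (t n) (t0 n) (by linarith [t2 n, t0 0])
  choose s s1 s2 s3 s4 using fun n => exists_on hμ q p (t n) (t0 n) (by linarith [t2 n, t0 0])
  have s5 := fun n => ds_comm q (s n)
  have s6 := fun n => ds_comm p (s n)
  have n1 : ∀ n, Ls μ (ds (r n) (s n)) := fun n => hn.trans' ⟨2, by
    push_cast
    linarith [ds_tri p (r n) q, ds_tri (r n) (s n) q, r2 n, s2 n, s5 n, t2 n]⟩
  by_contra hc
  have per : ∀ n, Per μ (r n) (s n) := fun n => by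
    by_contra hp
    have o := On.order hμ (r1 n) (s1 n).symm
      (Ll.of_nonpos (by linarith [r2 n, s2 n, s4 n, s6 n, t2 n]) m0.le)
    exact hc ⟨r n, s n, r1 n, (s1 n).symm, o.1, o.2,
      (t4 n).of_le_add hμ.ll_one m0 1 (by push_cast; linarith [r3 n]), n1 n,
      (t4 n).of_le_add hμ.ll_one m0 1 (by push_cast; linarith [s3 n, s5 n]), hp⟩
  choose c c1 c2 _ using fun n => hP Γ a μ _ _ hμ (n1 n) (per n)
  have c3 : ∀ n, Ep (c 0) = Ep (c n) := fun n =>
    Ep_eq_of_stab hE hP hμ (n1 0) (c1 0).1 (c1 n).1 (c2 0) ((c2 n).sub hμ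
      ((r1 0).shift hμ (.mono_left (by linarith [r2 n, r3 0, t2 n]) hμ.ll_one)
        (.of_nonpos (by linarith [s2 n, r4 0, r2 0, t2 n]) m0.le))
      ((s1 0).symm.shift hμ (.of_nonpos (by linarith [r2 n, s4 0, s2 0, s6 0, t2 n]) m0.le)
        (.mono_left (by linarith [s2 n, s3 0, s5 0, t2 n]) hμ.ll_one)))
  have key : ∀ (u : MM Γ a) (v : ℕ → MM Γ a), (∀ n, ds u (v n) ≤ t n) →
      (∀ n, Ll (ds (v n) (c n * v n)) μ) → Ll (ds u (c 0 * u)) μ := fun u v h1 h2 =>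
    ll_of_forall m0 fun n _ => Ll.mono_left (by
      have b1 := mul_le_mul_of_nonneg_left ((disp_le (c 0) u (v n)).trans (add_le_add_left
        (mul_le_mul_of_nonneg_left (h1 n) zero_le_two) _)) (n.cast_nonneg (α := a.K))
      have b2 := e 0
      have b3 := mul_nonneg (M.cast_nonneg (α := a.K)) (t0 0)
      push_cast at b2
      linarith [t1 n, t0 n, t0 0]) (((c1 0).fix hE hL (c1 n).1 (c3 n) (h2 n)).nat_mul n)
  exact h ⟨c 0, (c1 0).1, key p r r2 fun n => (c2 n).1, key q s s2 fun n => (c2 n).2⟩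
/-- if `g` moves `x` and `y` by at most `D`, a long periodic middle part of `[x, y]` lies on the
axis of a root of `g` -/
theorem long_per (hE : S_ELEM) (hP : S_PERC) (hμ : Big μ) (hg : ¬ IsOfFinOrder g) {D : a.K}
    (hx : ds x (g * x) ≤ D) (hy : ds y (g * y) ≤ D) (hp : On μ p x y) (hq : On μ q x y)
    (hl : 6 * D + μ ≤ ds p q) (hd : ¬ IsOfFinOrder d) (h : Stab μ p q d) : Ep d = Ep g := by
  wlog o : On μ p x q ∧ On μ q p y generalizing p q
  · exact this hq hp (ds_comm p q ▸ hl) h.symm ((On.total hμ hp hq).resolve_left o)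
  have D0 := (ds_nonneg _ _).trans hx
  have m0 := hμ.pos
  have dc := ds_comm p q
  have key : ∀ z, On μ z p q → D ≤ ds p z + 1 → D ≤ ds z q + 1 → On μ (g * z) p q :=
    fun z h0 h1 h2 => ((On.conv hμ hp hq h0).mul g).shift hμ
      (.mono_left (by
        rw [ds_mul_left]
        linarith [ds_tri (g * x) x p, ds_comm x (g * x)]) ((Ll.add (o.1.sub' h0).2 hμ.ll_one)))
      (.mono_left (by
        rw [ds_mul_left]
        linarith [ds_tri (g * y) y q, ds_comm y (g * y), ds_comm y q])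
        (Ll.add (o.2.sub h0).2 hμ.ll_one))
  obtain ⟨r, r1, r2, r3, r4⟩ := exists_on hμ p q D D0 (by linarith)
  obtain ⟨s, s1, s2, s3, s4⟩ := exists_on hμ q p D D0 (by linarith)
  have s5 := ds_comm q s
  have s6 := ds_comm p s
  exact (Ep_eq hE hd ((inE_of_stab hE hP hμ (.of_le (by linarith [ds_tri r s q])) hd
    (h.sub hμ r1 s1.symm) (h.sub hμ (key r r1 r3 (by linarith))
      (key s s1.symm (by linarith) (by linarith)))).mem hE hd hg) hg).symm
/-- two segments whose ends are `D`-close have a long overlap -/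
theorem exists_ov (hμ : Big μ) {D T : a.K} {x' y' : MM Γ a} (hx : ds x x' ≤ D) (hy : ds y y' ≤ D)
    (hT : μ ≤ T) (hl : 2 * D + T + μ ≤ ds x y) : ∃ p q, Ov μ p q x y x' y' ∧ T ≤ ds p q := by
  have D0 := (ds_nonneg _ _).trans hx
  have m0 := hμ.pos
  have dc := ds_comm x y
  obtain ⟨r, r1, r2, r3, r4⟩ := exists_on hμ x y D D0 (by linarith)
  obtain ⟨s, s1, s2, s3, s4⟩ := exists_on hμ y x D D0 (by linarith)
  have s5 := ds_comm y s
  have s6 := ds_comm x s
  have l : T ≤ ds r s := by linarith [ds_tri r s y]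
  exact ⟨r, s, ⟨.of_le (hT.trans l), r1, s1.symm,
    r1.shift hμ (.mono_left (by linarith) hμ.ll_one) (.of_nonpos (by linarith) m0.le),
    s1.symm.shift hμ (.of_nonpos (by linarith) m0.le) (.mono_left (by linarith) hμ.ll_one)⟩, l⟩
/-- a short conjugator between elements of `H` whose root is hyperbolic at scale `μ` is in `H` -/
theorem GC0.axis (hE : S_ELEM) (hL : S_LINE) (hP : S_PERC) {H : Subgroup (MM Γ a)} (hH : GC0 H)
    (hμ : Big μ) {γ γ' : MM Γ a} (h1 : γ ∈ H) (h2 : γ' ∈ H) (he : x * γ' * x⁻¹ = γ)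
    (l1 : Ls (ln γ) μ) (l2 : Ls (ln γ') μ) (l3 : Ls (ln x) μ) (hγ : ¬ IsOfFinOrder γ)
    (hc : Prim c) (hep : Ep c = Ep γ) (hm : Ls μ (md c)) : x ∈ H := by
  have x0 := ln_nonneg x
  have g0 := ln_nonneg γ
  obtain ⟨N, -, hN⟩ := pow_long hL hγ (((((l3.add l1).nat_mul 8).add (Ls.refl' μ).two).trans'
    hm).trans' (hc.md_ls hE hL hγ hep))
  have b := (hN N le_rfl).trans (md_le_ln _)
  have e : x * γ' ^ N = γ ^ N * x := by rw [← he, conj_pow, inv_mul_cancel_right]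
  push_cast at b
  obtain ⟨p, q, o, l⟩ := exists_ov (x := 1) (y := γ ^ N) (x' := x) (y' := x * γ' ^ N)
    (D := ln x + ln γ) (T := 6 * (ln x + ln γ) + μ) hμ (by rw [ds_one_left]; linarith)
    (by rw [e, ds_mul_right]; linarith) (by linarith) (by rw [ds_one_left]; linarith)
  refine hH.g2 μ hμ _ (pow_mem h1 N) _ (pow_mem h2 N) (.mono_left (ln_pow_le _ _) (l1.nat_mul N))
    (.mono_left (ln_pow_le _ _) (l2.nat_mul N)) x p q o fun ⟨d, hd, hs⟩ => ?_
  have k := disp_comm (Commute.pow_self γ N) 1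
  rw [ds_one_mul, mul_one] at k
  have := long_per hE hP hμ hγ (by rw [ds_one_mul]; linarith) (by rw [k]; linarith) o.2.1 o.2.2.1
    l hd hs
  exact (Ll.ls_left (hc.md_ls hE hL hd (hep.trans this.symm)) hs.md).not_ls hμ.pos hm

end Pool.Agent.P.MP_dba3d2_lc
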