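import Pool.Agent.P.MP_dba3d2_lc.B.Sc
import Pool.Agent.P.MP_dba3d2_lc.A.Bas1

/-! Shared toolbox, part two: tree geometry at one scale. -/

namespace Pool.Agent.P.MP_dba3d2_lc

open Filter

variable {Γ : HG} {a : Amb} {μ : a.K} {c c' g h m p q r s u v w x y z p' q' x' y' : MM Γ a}

/-- the four point condition seen from `m` -/
theorem gap_min (u v w m : MM Γ a) :
    ds u m + ds m v - ds u v ≤ ds u m + ds m w - ds u w + 2 * (Γ.δ : a.K) ∨
    ds v m + ds m w - ds v w ≤ ds u m + ds m w - ds u w + 2 * (Γ.δ : a.K) := by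
  have h := ds_four u w v m
  rcases max_choice (ds u v + ds w m) (ds u m + ds w v) with e | e <;> rw [e] at h
  · exact Or.inl (by linarith [ds_comm m v, ds_comm m w])
  · exact Or.inr (by linarith [ds_comm v w])
/-- two points of one segment -/
theorem close_le (x y p q : MM Γ a) : ds p q ≤ |ds x p - ds x q| + (ds x p + ds p y - ds x y) +
    (ds x q + ds q y - ds x y) + 2 * (Γ.δ : a.K) := by
  have h := ds_four x y p q
  rcases max_choice (ds x p + ds y q) (ds x q + ds y p) with e | e <;> rw [e] at h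
  · linarith [ds_comm y q, ds_tri x p y, le_abs_self (ds x p - ds x q)]
  · linarith [ds_comm y p, ds_tri x q y, neg_le_abs (ds x p - ds x q)]
theorem exists_mid (x y : MM Γ a) :
    ∃ m, ds x m + ds m y = ds x y ∧ 2 * ds x m ≤ ds x y ∧ ds x y ≤ 2 * ds x m + 2 := by
  have h := ds_nonneg x y
  obtain ⟨m, h1, h2, h3⟩ := exists_point x y (ds x y / 2) (by linarith) (by linarith)
  exact ⟨m, h1, by linarith, by linarith⟩
theorem exists_median (x y z : MM Γ a) : ∃ m, ds x m + ds m y = ds x y ∧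
    ∀ μ : a.K, Big μ → On μ m x z ∧ On μ m y z := by
  obtain ⟨m, h1, h2, h3⟩ := exists_point x y ((ds x y + ds x z - ds y z) / 2)
    (by linarith [ds_tri y x z, ds_comm x y]) (by linarith [ds_tri x y z])
  refine ⟨m, h1, fun μ hμ => ?_⟩
  have k := (hμ.ll_delta Γ).two.add hμ.ll_one.two
  rcases gap_min x z y m with e | e
  · exact ⟨k.mono_left (by linarith), k.mono_left (by linarith [ds_comm m y])⟩
  · exact ⟨k.mono_left (by linarith [ds_comm m z, ds_comm z y]),
      k.mono_left (by linarith [ds_comm m z, ds_comm z y, ds_comm m y])⟩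

theorem On.of_eq (h0 : 0 ≤ μ) (h : ds x p + ds p y = ds x y) : On μ p x y :=
  Ll.of_nonpos (by linarith) h0
theorem On.symm (h : On μ p x y) : On μ p y x :=
  Ll.mono_left (by linarith [ds_comm x p, ds_comm p y, ds_comm x y]) h
theorem on_left (h0 : 0 ≤ μ) (x y : MM Γ a) : On μ x x y := On.of_eq h0 (by simp)
theorem on_right (h0 : 0 ≤ μ) (x y : MM Γ a) : On μ y x y := On.of_eq h0 (by simp)
theorem on_mul_iff (g : MM Γ a) : On μ (g * p) (g * x) (g * y) ↔ On μ p x y := by
  simp only [On, ds_mul_left]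
theorem On.mul (h : On μ p x y) (g : MM Γ a) : On μ (g * p) (g * x) (g * y) := (on_mul_iff g).2 h
theorem On.congr (h : On μ p x y) (hp : Ll (ds p p') μ) (hx : Ll (ds x x') μ)
    (hy : Ll (ds y y') μ) : On μ p' x' y' :=
  Ll.mono_left (by
    linarith [ds_tri x' x p', ds_tri x p p', ds_tri p' p y', ds_tri p y y', ds_tri x x' y,
      ds_tri x' y' y, ds_comm x x', ds_comm p p', ds_comm y y'])
    (((Ll.add h hp.two).add hx.two).add hy.two)
theorem On.of_near (h : Ll (ds x p) μ) (y : MM Γ a) : On μ p x y :=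
  h.two.mono_left (by linarith [ds_tri p x y, ds_comm x p])
theorem On.le_left (h : On μ p x y) : Ll (ds x p - ds x y) μ :=
  Ll.mono_left (by linarith [ds_nonneg p y]) h
theorem On.le_right (h : On μ p x y) : Ll (ds p y - ds x y) μ :=
  Ll.mono_left (by linarith [ds_nonneg x p]) h
theorem On.ls_left (h : On μ p x y) (h' : Ls (ds x y) μ) : Ls (ds x p) μ :=
  (h.le_left.ls.add h').mono_left (by linarith)
theorem On.ls_right (h : On μ p x y) (h' : Ls (ds x y) μ) : Ls (ds p y) μ :=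
  (h.le_right.ls.add h').mono_left (by linarith)
/-- a nondegenerate subsegment forces a nondegenerate segment -/
theorem On.nondeg (hμ : Big μ) (hp : On μ p x y) (hq : On μ q x y) (h : Ls μ (ds p q)) :
    Ls μ (ds x y) :=
  h.of_le_add (Ll.add hp hq) hμ.pos 1 (by
    rw [Nat.cast_one]
    linarith [ds_tri p x q, ds_tri p y q, ds_comm x p, ds_comm q y, ds_tri x p y, ds_tri x q y])
theorem On.sub (hq : On μ q x y) (hp : On μ p x q) : On μ p x y ∧ On μ q p y :=
  ⟨(Ll.add hq hp).mono_left (by linarith [ds_tri p q y]),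
    (Ll.add hq hp).mono_left (by linarith [ds_tri x p y])⟩
theorem On.sub' (hp : On μ p x y) (hq : On μ q p y) : On μ q x y ∧ On μ p x q :=
  ⟨(Ll.add hq hp).mono_left (by linarith [ds_tri x p q]),
    (Ll.add hq hp).mono_left (by linarith [ds_tri x q y])⟩
theorem On.antisymm (h : On μ p x q) (h' : On μ q x p) : Ll (ds p q) μ :=
  (Ll.add h h').mono_left (by linarith [ds_comm p q, ds_nonneg p q])
theorem On.close (hμ : Big μ) (hp : On μ p x y) (hq : On μ q x y) (h : Ll (ds x p - ds x q) μ)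
    (h' : Ll (ds x q - ds x p) μ) : Ll (ds p q) μ :=
  ((((h.abs (by rwa [neg_sub])).add hp).add hq).add (hμ.ll_delta Γ).two).mono_left
    (close_le x y p q)
theorem On.order (hμ : Big μ) (hp : On μ p x y) (hq : On μ q x y) (h : Ll (ds x p - ds x q) μ) :
    On μ p x q ∧ On μ q p y := by
  have k := (hμ.ll_delta Γ).two
  have f := ds_four x y p q
  rcases max_choice (ds x p + ds y q) (ds x q + ds y p) with e | e <;> rw [e] at f
  · have n : Ll (ds p q) μ := ((h.add hq).add k).mono_left (by linarith [ds_comm y q])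
    exact ⟨(h.add n).mono_left (by linarith), On.of_near n y⟩
  · exact ⟨(Ll.add hp k).mono_left (by linarith [ds_comm y p]),
      (Ll.add hq k).mono_left (by linarith [ds_comm y p])⟩
theorem On.total (hμ : Big μ) (hp : On μ p x y) (hq : On μ q x y) :
    (On μ p x q ∧ On μ q p y) ∨ (On μ q x p ∧ On μ p q y) :=
  (le_total (ds x p) (ds x q)).imp
    (fun e => hp.order hμ hq (Ll.of_nonpos (sub_nonpos.2 e) hμ.pos.le))
    fun e => hq.order hμ hp (Ll.of_nonpos (sub_nonpos.2 e) hμ.pos.le)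
theorem On.conv (hμ : Big μ) (hp : On μ p x y) (hq : On μ q x y) (hr : On μ r p q) :
    On μ r x y := by
  rcases hp.total hμ hq with e | e
  · exact (hp.sub' (e.2.sub hr).1).1
  · exact (hq.sub' (e.2.sub hr.symm).1).1
theorem On.cases (hμ : Big μ) (h : On μ p x y) (z : MM Γ a) : On μ p x z ∨ On μ p y z :=
  (gap_min x z y p).imp (fun e => (Ll.add h (hμ.ll_delta Γ).two).mono_left e)
    fun e => On.symm ((Ll.add h (hμ.ll_delta Γ).two).mono_left e)
theorem On.glue (hμ : Big μ) (h1 : On μ y x z) (h2 : On μ z y w) (h : Ls μ (ds y z)) :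
    On μ y x w ∧ On μ z x w :=
  ⟨(h1.cases hμ w).resolve_right fun e => (e.symm.antisymm h2.symm).not_ls hμ.pos h,
    ((h2.cases hμ x).resolve_left fun e => (h1.antisymm e.symm).not_ls hμ.pos h).symm⟩
theorem On.shift_left (hμ : Big μ) (h : On μ r x y) (hx : Ll (ds x x' - ds x r) μ) :
    On μ r x' y :=
  (h.cases hμ x').elim
    (fun e => On.of_near ((Ll.add e hx).mono_left (by linarith [ds_comm r x'])) y) On.symm
/-- moving the ends of a segment by less than the distance to `r` -/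
theorem On.shift (hμ : Big μ) (h : On μ r x y) (hx : Ll (ds x x' - ds x r) μ)
    (hy : Ll (ds y y' - ds r y) μ) : On μ r x' y' :=
  ((h.shift_left hμ hx).symm.shift_left hμ (by rwa [ds_comm y r])).symm
/-- a point at a prescribed distance -/
theorem exists_on (hμ : Big μ) (x y : MM Γ a) (t : a.K) (h0 : 0 ≤ t) (h1 : t ≤ ds x y) :
    ∃ p, On μ p x y ∧ ds x p ≤ t ∧ t ≤ ds x p + 1 ∧ ds x p + ds p y = ds x y := by
  obtain ⟨p, a1, a2, a3⟩ := exists_point x y t h0 h1
  exact ⟨p, On.of_eq hμ.pos.le a1, a2, a3, a1⟩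

theorem Ov.symm (h : Ov μ p q x y x' y') : Ov μ p q x' y' x y :=
  ⟨h.1, h.2.2.2.1, h.2.2.2.2, h.2.1, h.2.2.1⟩
theorem Ov.mul (h : Ov μ p q x y x' y') (g : MM Γ a) :
    Ov μ (g * p) (g * q) (g * x) (g * y) (g * x') (g * y') :=
  ⟨by rw [ds_mul_left]; exact h.1, h.2.1.mul g, h.2.2.1.mul g, h.2.2.2.1.mul g, h.2.2.2.2.mul g⟩

namespace Tre

theorem nb_le {s t : a.K} (h : ¬ Big t) (e : s ≤ t) : ¬ Big s := not_big_of_ls (Ls.of_le e) h

theorem nb_delta (Γ : HG) (a : Amb) : ¬ Big (2 * (Γ.δ : a.K)) := by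
  simpa using not_big_nat (K := a.K) (2 * Γ.δ)

theorem flip (h : ¬ Big (ds u m + ds m w - ds u w)) : ¬ Big (ds w m + ds m u - ds w u) :=
  nb_le h (by linarith [ds_comm u m, ds_comm m w, ds_comm u w])

/-- moving one end without changing the direction seen from `m` -/
theorem step (hμ : Big μ) (h : On μ v u m ∧ Ls μ (ds v m) ∨ On μ u v m ∧ Ls μ (ds u m))
    (hB : ¬ Big (ds u m + ds m w - ds u w)) : ¬ Big (ds v m + ds m w - ds v w) := by
  have k := not_big_add hB (nb_delta Γ a)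
  refine (gap_min u v w m).elim (fun e => ?_) (nb_le k)
  have l := hμ.ll_of_not_big (nb_le k e)
  rcases h with h | h
  · exact (((l.add h.1).mono_left (by linarith [ds_comm v m, ds_nonneg v m])).not_ls hμ.pos h.2).elim
  · exact (((l.add h.1).mono_left (by
      linarith [ds_comm v m, ds_comm u v, ds_nonneg u m])).not_ls hμ.pos h.2).elim

theorem fin (hμ : Big μ) (h : Ls μ (ds p q)) (h1 : On μ p x q) (h2 : On μ q p y)
    (h3 : On μ p x' q) (h4 : On μ q p y') : ∃ m m', ds x m + ds m y = ds x y ∧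
    ds x' m' + ds m' y' = ds x' y' ∧ ¬ Big (ds m m') ∧ On μ m p q ∧ Ls μ (ds p m) ∧
    Ls μ (ds m q) := by
  obtain ⟨hp, hq⟩ := h1.glue hμ h2 h
  have l := ((Ll.two hq).add h1).lt_of_ls h hμ.pos 1
  rw [Nat.cast_one] at l
  obtain ⟨m, hm, a1, a2, a3⟩ := exists_on hμ x y ((ds x p + ds x q) / 2)
    (by linarith [ds_nonneg x p, ds_nonneg x q]) (by linarith [ds_nonneg q y])
  have t := ds_tri x p q
  have n := ds_nonneg p q
  obtain ⟨b1, -⟩ := hp.order hμ hm ((Ll.add h1 hμ.ll_one).mono_left (by linarith))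
  obtain ⟨b2, b3⟩ := hm.order hμ hq (Ll.mono_left (by linarith) h1)
  have b4 := (b2.sub b1).2
  have c1 : Ls μ (ds p m) := h.of_le_add (Ll.add h1 hμ.ll_one.two) hμ.pos 2 (by
    rw [Nat.cast_two]
    linarith [ds_tri x p m])
  have c2 : Ls μ (ds m q) := h.of_le_add h1 hμ.pos 2 (by
    rw [Nat.cast_two]
    linarith [ds_tri x m q])
  have c3 : Ls μ (ds q m) := by rwa [ds_comm]
  have g0 : ¬ Big (ds x m + ds m y - ds x y) := nb_le (not_big_nat 0) (by rw [a3]; simp)
  have g1 := step hμ (Or.inl ⟨b3.symm, c3⟩) (flip (step hμ (Or.inl ⟨b1, c1⟩) g0))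
  have g2 := step hμ (Or.inr ⟨(h3.sub' b4).2, c1⟩)
    (flip (step hμ (Or.inr ⟨(h4.sub b4).2.symm, c3⟩) g1))
  obtain ⟨m', d1, d2, d3⟩ := exists_point x' y' (min (ds x' m) (ds x' y'))
    (le_min (ds_nonneg _ _) (ds_nonneg _ _)) (min_le_right _ _)
  refine ⟨m, m', a3, d1, nb_le (not_big_add (not_big_add (not_big_add g2 g2) (nb_delta Γ a))
    (not_big_nat 1)) ?_, b4, c1, c2⟩
  have e := close_le x' y' m m'
  rw [abs_of_nonneg (sub_nonneg.2 (d2.trans (min_le_left _ _)))] at e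
  rw [Nat.cast_one]
  rcases min_choice (ds x' m) (ds x' y') with k | k <;> rw [k] at d3
  · linarith [ds_tri x' m y']
  · linarith [ds_nonneg m y']

end Tre

/-- an overlap at scale `μ` is an overlap up to a finite error in the middle -/
theorem Ov.fin (hμ : Big μ) (h : Ov μ p q x y x' y') : ∃ m m', ds x m + ds m y = ds x y ∧
    ds x' m' + ds m' y' = ds x' y' ∧ ¬ Big (ds m m') ∧ On μ m p q ∧ Ls μ (ds p m) ∧
    Ls μ (ds m q) := by
  have s : ∀ {x y m : MM Γ a}, ds y m + ds m x = ds y x → ds x m + ds m y = ds x y :=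
    fun {x y m} e => by linarith [ds_comm x m, ds_comm m y, ds_comm x y]
  obtain ⟨h0, h1, h2, h3, h4⟩ := h
  rcases h1.total hμ h2 with e | e <;> rcases h3.total hμ h4 with e' | e'
  · exact Tre.fin hμ h0 e.1 e.2 e'.1 e'.2
  · obtain ⟨m, m', a1, a2, a3⟩ := Tre.fin hμ h0 e.1 e.2 e'.2.symm e'.1.symm
    exact ⟨m, m', a1, s a2, a3⟩
  · obtain ⟨m, m', a1, a2, a3⟩ := Tre.fin hμ h0 e.2.symm e.1.symm e'.1 e'.2
    exact ⟨m, m', s a1, a2, a3⟩
  · obtain ⟨m, m', a1, a2, a3⟩ := Tre.fin hμ h0 e.2.symm e.1.symm e'.2.symm e'.1.symm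
    exact ⟨m, m', s a1, s a2, a3⟩

/-- a fully convex subgroup contains the elements that realise an overlap of two of its segments -/
theorem Cvx.mem {H : Subgroup (MM Γ a)} (hH : Cvx H) (hx : x ∈ H) (hy : y ∈ H)
    (h : ds x p + ds p y = ds x y) : p ∈ H := by
  have := mul_mem hx (hH.2 _ (mul_mem (inv_mem hx) hy) (x⁻¹ * p) (Tre.nb_le (not_big_nat 0) (by
    rw [ds_mul_left, Nat.cast_zero]
    exact (sub_eq_zero.2 h).le)))
  rwa [mul_inv_cancel_left] at this
theorem Cvx.ov {H : Subgroup (MM Γ a)} (hH : Cvx H) (hμ : Big μ) (hx : x ∈ H) (hy : y ∈ H)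
    (hx' : x' ∈ H) (hy' : y' ∈ H) (h : Ov μ p q x y (g * x') (g * y')) : g ∈ H := by
  obtain ⟨m, m', a1, a2, a3, -⟩ := h.fin hμ
  have b1 := mul_mem (hH.mem hx hy a1) (hH.1 (mem_std_iff.2 a3))
  have b2 : g⁻¹ * m' ∈ H := hH.mem hx' hy' (by
    rw [← mul_inv_cancel_left g m'] at a2
    simpa only [ds_mul_left] using a2)
  have := mul_mem b1 (inv_mem b2)
  rwa [mul_inv_cancel_left, mul_inv_rev, inv_inv, mul_inv_cancel_left] at this

end Pool.Agent.P.MP_dba3d2_lc
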