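import Pool.Agent.P.MP_dba3d2_lc.B.Iface2
import Pool.Agent.P.MP_dba3d2_lc.B.Tre
import Pool.Agent.P.MP_dba3d2_lc.A.Bas1

/-! Step B_APX of the stability project. -/

namespace Pool.Agent.P.MP_dba3d2_lc

open Filter

namespace B_apx

theorem near {b : Amb} {ν D : b.K} (hν : 0 < ν) (h0 : 0 ≤ D) (hD : Ls D ν) :
    ∃ t : ℝ, 0 ≤ t ∧ Ll (D - (t : b.K) * ν) ν ∧ Ll ((t : b.K) * ν - D) ν := by
  have h1 : Ls |D| ν := by rwa [abs_of_nonneg h0]
  have ht := rl_nonneg hν h0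
  have h2 : Ls |((rl ν D : ℝ) : b.K) * ν| ν := by
    obtain ⟨n, hn⟩ := exists_nat_ge (rl ν D)
    have a1 : (0 : b.K) ≤ ((rl ν D : ℝ) : b.K) := Germ.const_le ht
    have a2 : ((rl ν D : ℝ) : b.K) ≤ (n : b.K) := Germ.const_le hn
    rw [abs_of_nonneg (mul_nonneg a1 hν.le)]
    exact ⟨n, mul_le_mul_of_nonneg_right a2 hν.le⟩
  refine ⟨rl ν D, ht, (rl_nonpos_iff hν (Ls.mono_left (abs_sub _ _) (h1.add h2))).1 ?_,
    (rl_nonpos_iff hν (Ls.mono_left (abs_sub _ _) (h2.add h1))).1 ?_⟩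
  · rw [rl_sub hν h1 h2, rl_real hν, sub_self]
  · rw [rl_sub hν h2 h1, rl_real hν, sub_self]

end B_apx

theorem p_B_APX :
    S_B_APX := by
  intro Γ a b E μ x y p hμ hxy hp
  change On (E.kh μ) p _ _ at hp
  change ∃ p0, On μ p0 x y ∧ Ll (ds p (E.hom Γ p0)) (E.kh μ)
  have hν : Big (E.kh μ) := E.big_iff.2 hμ
  obtain ⟨t, t0, t1, t2⟩ := B_apx.near hν.pos (ds_nonneg (E.hom Γ x) p)
    (hp.ls_left (by rw [E.ds_hom]; exact E.ls_iff.2 hxy))
  have a1 : (0 : a.K) ≤ (t : a.K) := Germ.const_le t0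
  obtain ⟨p0, h1, h2, h3, h4⟩ := exists_on hμ x y (min ((t : a.K) * μ) (ds x y))
    (le_min (mul_nonneg a1 hμ.pos.le) (ds_nonneg x y)) (min_le_right _ _)
  have h5 : On (E.kh μ) (E.hom Γ p0) (E.hom Γ x) (E.hom Γ y) :=
    On.of_eq hν.pos.le (by rw [E.ds_hom, E.ds_hom, E.ds_hom, ← map_add, h4])
  have one : Ll 1 (E.kh μ) := big_iff_ll.1 hν
  refine ⟨p0, h1, hp.close hν h5 ?_ ?_⟩
  · rw [E.ds_hom]
    rcases min_choice ((t : a.K) * μ) (ds x y) with e | e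
    · rw [e, ← E.kh_le, map_mul, map_add, map_one, E.kh_real] at h3
      exact Ll.mono_left (by linarith) (t1.add one)
    · rw [e, ← E.kh_le, map_add, map_one] at h3
      have := hp.le_left
      rw [E.ds_hom] at this
      exact Ll.mono_left (by linarith) (this.add one)
  · rw [E.ds_hom]
    have := E.kh_le.2 (h2.trans (min_le_left _ _))
    rw [map_mul, E.kh_real] at this
    exact Ll.mono_left (by linarith) t2

end Pool.Agent.P.MP_dba3d2_lc
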