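import Pool.Agent.P.MP_dba3d2_lc.B.Iface2

/-! Step B_CLO of the stability project. -/

namespace Pool.Agent.P.MP_dba3d2_lc

open Filter

namespace B_clo

theorem lists {G : Type} {A : Set G} (hA : A.Countable) :
    {l : List G | ∀ x ∈ l, x ∈ A}.Countable := by
  have := hA.to_subtype
  refine (Set.countable_range fun l : List A => l.map Subtype.val).mono fun l hl => ?_
  exact ⟨l.pmap Subtype.mk hl, by simp [List.map_pmap]⟩

theorem clo {G : Type} (H X : Set G) (W : List G → Set G) (hX : X.Countable) (hH : X ⊆ H)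
    (hW : ∀ l, (W l).Countable) (hWH : ∀ l, (∀ x ∈ l, x ∈ H) → W l ⊆ H) :
    ∃ B ⊆ H, X ⊆ B ∧ B.Countable ∧ ∀ l, (∀ x ∈ l, x ∈ B) → W l ⊆ B := by
  let A : ℕ → Set G := fun n =>
    Nat.rec X (fun _ B => B ∪ ⋃ l ∈ {l : List G | ∀ x ∈ l, x ∈ B}, W l) n
  have hs : ∀ n, A (n + 1) = A n ∪ ⋃ l ∈ {l : List G | ∀ x ∈ l, x ∈ A n}, W l := fun _ => rfl
  have hm : Monotone A := monotone_nat_of_le_succ fun n => by
    rw [hs]; exact Set.subset_union_left
  have h1 : ∀ n, (A n).Countable ∧ A n ⊆ H := by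
    intro n
    induction n with
    | zero => exact ⟨hX, hH⟩
    | succ n ih =>
      rw [hs]
      exact ⟨ih.1.union ((lists ih.1).biUnion fun l _ => hW l), Set.union_subset ih.2
        (Set.iUnion₂_subset fun l hl => hWH l fun x hx => ih.2 (hl x hx))⟩
  have h2 : ∀ l : List G, (∀ x ∈ l, x ∈ ⋃ n, A n) → ∃ n, ∀ x ∈ l, x ∈ A n := by
    intro l
    induction l with
    | nil => exact fun _ => ⟨0, by simp⟩
    | cons a l ih =>
      intro h
      obtain ⟨n, hn⟩ := ih fun x hx => h x (List.mem_cons_of_mem _ hx)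
      obtain ⟨m, hm'⟩ := Set.mem_iUnion.1 (h a List.mem_cons_self)
      refine ⟨max n m, fun x hx => ?_⟩
      rcases List.mem_cons.1 hx with rfl | hx
      · exact hm (le_max_right _ _) hm'
      · exact hm (le_max_left _ _) (hn x hx)
  refine ⟨⋃ n, A n, Set.iUnion_subset fun n => (h1 n).2, Set.subset_iUnion A 0,
    Set.countable_iUnion fun n => (h1 n).1, fun l hl => ?_⟩
  obtain ⟨n, hn⟩ := h2 l hl
  refine Set.Subset.trans ?_ (Set.subset_iUnion A (n + 1))
  rw [hs]
  exact Set.subset_union_of_subset_right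
    (Set.subset_biUnion_of_mem (u := W) (s := {l : List G | ∀ x ∈ l, x ∈ A n}) hn) _

end B_clo

theorem p_B_CLO :
    S_B_CLO := by
  intro G _ H X W hX hH hW hWH
  obtain ⟨B, h1, h2, h3, h4⟩ := B_clo.clo (H : Set G) X (fun l => W l ∪ {l.prod, l.prod⁻¹}) hX hH
    (fun l => (hW l).union (Set.toFinite _).countable) fun l hl =>
      Set.union_subset (hWH l hl) (by
        rintro x (rfl | rfl)
        · exact H.list_prod_mem hl
        · exact H.inv_mem (H.list_prod_mem hl))
  refine ⟨{ carrier := B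
            mul_mem' := fun {a b} ha hb => h4 [a, b] (by simp [ha, hb]) (Or.inr (by simp))
            one_mem' := h4 [] (by simp) (Or.inr (by simp))
            inv_mem' := fun {a} ha => h4 [a] (by simp [ha]) (Or.inr (by simp)) },
    h1, h2, h3, fun l hl => Set.subset_union_left.trans (h4 l hl)⟩

end Pool.Agent.P.MP_dba3d2_lc
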