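import Pool.Agent.P.MP_dba3d2_lc.B.Iface2
import Pool.Agent.P.MP_dba3d2_lc.A.Iface
import Pool.Agent.P.MP_dba3d2_lc.A.Bas1
import Pool.Agent.P.MP_dba3d2_lc.B.Axis2

/-! Step B_CN0 of the stability project. -/

namespace Pool.Agent.P.MP_dba3d2_lc

open Filter

namespace B_cn0

theorem fin (hTORS : S_TORS) (hELEM : S_ELEM) (hPERC : S_PERC) {Γ : HG} {a : Amb} (μ : a.K)
    (r s : MM Γ a) : {c | Big μ ∧ Ls μ (ds r s) ∧ Prim c ∧ Stab μ r s c}.Finite := by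
  rcases Set.eq_empty_or_nonempty {c | Big μ ∧ Ls μ (ds r s) ∧ Prim c ∧ Stab μ r s c} with
    e | ⟨d, hμ, hn, hd, sd⟩
  · rw [e]
    exact Set.finite_empty
  let K : Subgroup (MM Γ a) :=
    { carrier := {f | f ∈ Ep d ∧ IsOfFinOrder f}
      one_mem' := ⟨one_mem _, IsOfFinOrder.one⟩
      mul_mem' := fun hf hg => ⟨mul_mem hf.1 hg.1,
        (hELEM Γ a d hd.1).2.2.1 _ hf.1 _ hg.1 hf.2 hg.2⟩
      inv_mem' := fun hf => ⟨inv_mem hf.1, hf.2.inv⟩ }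
  have hK : (K : Set (MM Γ a)).Finite := (hTORS Γ a K fun k hk => hk.2).1
  refine ((hK.image fun k => d * k⁻¹).union (hK.image fun k => d⁻¹ * k⁻¹)).subset ?_
  rintro c ⟨-, -, hc, sc⟩
  have e := Ep_eq_of_stab hELEM hPERC hμ hn hc.1 hd.1 sc sd
  have m : c⁻¹ ∈ Ep d := e ▸ inv_mem (self_mem_Ep c)
  rcases hd.pm hELEM hc e with h | h
  · exact Or.inl ⟨_, ⟨mul_mem m (self_mem_Ep d), h⟩, by group⟩
  · exact Or.inr ⟨_, ⟨mul_mem m (inv_mem (self_mem_Ep d)), h⟩, by group⟩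

end B_cn0

theorem p_B_CN0 (hTORS : S_TORS) (hELEM : S_ELEM) (hPERC : S_PERC) (hB_NET : S_B_NET) :
    S_B_CN0 := by
  intro Γ a h
  obtain ⟨R, hR, hN⟩ := hB_NET Γ a 1 h
  refine (hR.biUnion fun r _ => hR.biUnion fun s _ =>
    (B_cn0.fin hTORS hELEM hPERC (ln h) r s).countable).mono ?_
  rintro c ⟨hc, μ, p, q, hμ, h1, hn, hp, hq, hs⟩
  have h2 := On.nondeg hμ hp hq hn
  rw [ds_one_left] at h2
  have hN' := (hN μ hμ (by rwa [ds_one_left])).2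
  obtain ⟨r, r1, r2, -, r3⟩ := hN' p q hp hq hn
  obtain ⟨s, s1, s2, s3, -⟩ := hN' r q (hp.conv hμ hq r2) hq r3
  refine Set.mem_biUnion r1 (Set.mem_biUnion s1 ⟨hμ.of_ls h2, h1.trans' s3, hc, ?_⟩)
  exact (Sim.stab_iff ⟨h2, h1⟩ hμ.pos.le (ln_nonneg h)).1 (hs.sub hμ r2 (r2.sub' s2).1)

end Pool.Agent.P.MP_dba3d2_lc
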