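import Pool.Agent.P.MP_dba3d2_lc.B.Iface2
import Pool.Agent.P.MP_dba3d2_lc.A.Iface
import Pool.Agent.P.MP_dba3d2_lc.B.Axis2
import Pool.Agent.P.MP_dba3d2_lc.A.Bas1

/-! Step B_CN2 of the stability project. -/

namespace Pool.Agent.P.MP_dba3d2_lc

open Filter

namespace B_cn2

variable {Γ : HG} {a : Amb} {μ : a.K}

/-- the elements which move `t.1.2` near to `t.1.1` -/
def C (μ : a.K) (t : ((MM Γ a × MM Γ a) × MM Γ a × MM Γ a) × ℕ) : Set (MM Γ a) :=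
  {g | t.2 * ds t.1.1.1 (g * t.1.2.1) ≤ μ ∧ t.2 * ds t.1.1.2 (g * t.1.2.2) ≤ μ}

theorem step {n : ℕ} {p p' g g0 : MM Γ a} (h : ((2 * n : ℕ) : a.K) * ds p (g * p') ≤ μ)
    (h0 : ((2 * n : ℕ) : a.K) * ds p (g0 * p') ≤ μ) : n * ds p (g * g0⁻¹ * p) ≤ μ := by
  have e : ds (g * p') (g * g0⁻¹ * p) = ds p (g0 * p') := by
    rw [mul_assoc, ds_mul_left, ← ds_mul_left g0, mul_inv_cancel_left, ds_comm]
  have h1 := mul_le_mul_of_nonneg_left (ds_tri p (g * p') (g * g0⁻¹ * p)) (Nat.cast_nonneg n)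
  rw [e] at h1
  push_cast at h h0
  linarith

theorem fin (hS : S_B_SMALL) (hμ : Big μ) {p q : MM Γ a} (h1 : Ls μ (ds p q)) (h2 : ¬ Per μ p q) :
    ∃ n : ℕ, ∀ p' q', (C μ (((p, q), p', q'), n)).Finite := by
  obtain ⟨r, s, n, -, -, -, -, -, hf, hn⟩ := hS Γ a μ p q hμ h1 h2
  refine ⟨2 * n, fun p' q' => ?_⟩
  rcases (C μ (((p, q), p', q'), 2 * n)).eq_empty_or_nonempty with e | ⟨g0, h0⟩
  · rw [e]
    exact Set.finite_empty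
  · exact (hf.image (· * g0)).subset fun g hg =>
      ⟨g * g0⁻¹, hn _ (step hg.1 h0.1) (step hg.2 h0.2), inv_mul_cancel_right _ _⟩

end B_cn2

open B_cn2

theorem p_B_CN2 (hELEM : S_ELEM) (hLINE : S_LINE) (hPERC : S_PERC) (hB_SMALL : S_B_SMALL) (hB_NET : S_B_NET) :
    S_B_CN2 := by
  intro Γ a h h'
  obtain ⟨R, cR, hR⟩ := hB_NET Γ a 1 h
  obtain ⟨R', cR', hR'⟩ := hB_NET Γ a 1 h'
  have cI : {t ∈ ((R ×ˢ R) ×ˢ R' ×ˢ R') ×ˢ (Set.univ : Set ℕ) | (C (ln h) t).Finite}.Countable :=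
    (((cR.prod cR).prod (cR'.prod cR')).prod Set.countable_univ).mono (Set.sep_subset _ _)
  refine (cI.biUnion (t := fun t _ => C (ln h) t) fun t ht => ht.2.countable).mono ?_
  rintro g ⟨μ, p, q, hμ, l1, l2, ho, hp⟩
  have l3 := ho.2.1.nondeg hμ ho.2.2.1 ho.1
  rw [ds_one_left] at l3
  have s : Sim μ (ln h) := ⟨l3, l1⟩
  rw [s.ov_iff hμ.pos.le (ln_nonneg h)] at ho
  rw [s.per_iff hμ.pos.le (ln_nonneg h)] at hp
  have hb := s.big_iff.1 hμ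
  obtain ⟨o1, o2, o3, o4, o5⟩ := ho
  obtain ⟨-, n1⟩ := hR (ln h) hb (by rw [ds_one_left]; exact Ls.refl' _)
  obtain ⟨n2, -⟩ := hR' (ln h) hb (by rw [ds_one_left]; exact l2.trans' l3)
  obtain ⟨r, s, a1, a2, a3, a4, a5, a6, a7, a8⟩ := inner_nper hELEM hLINE hPERC hb o1 hp
  obtain ⟨p1, hp1, b1, -⟩ := n1 p r o2 (o2.conv hb o3 a1) a5
  obtain ⟨q1, hq1, b2, -⟩ := n1 s q (o2.conv hb o3 a2) o3 a7
  obtain ⟨c1, c2⟩ := On.glue hb (a3.sub b1).2 (a4.sub' b2).2 a6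
  obtain ⟨n, hn⟩ := fin hB_SMALL hb (c1.nondeg hb c2 a6) fun e => a8 (e.sub hb c1 c2)
  have k : ∀ x, On (ln h) x p q → ∃ y ∈ R', n * ds x (g * y) ≤ ln h := by
    intro x hx
    have e := (o4.conv hb o5 hx).mul g⁻¹
    rw [inv_mul_cancel, inv_mul_cancel_left] at e
    obtain ⟨y, hy, -, e1⟩ := n2 _ e n
    rw [← ds_mul_left g, mul_inv_cancel_left] at e1
    exact ⟨y, hy, e1⟩
  obtain ⟨p2, hp2, d1⟩ := k p1 (a1.sub b1).1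
  obtain ⟨q2, hq2, d2⟩ := k q1 (a2.sub' b2).1
  exact Set.mem_iUnion₂.2 ⟨(((p1, q1), p2, q2), n),
    ⟨⟨⟨⟨hp1, hq1⟩, hp2, hq2⟩, trivial⟩, hn p2 q2⟩, d1, d2⟩

end Pool.Agent.P.MP_dba3d2_lc
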