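import Pool.Agent.P.MP_dba3d2_lc.B.Iface2
import Pool.Agent.P.MP_dba3d2_lc.A.Iface
import Pool.Agent.P.MP_dba3d2_lc.B.Axis

/-! Step B_CVE of the stability project. -/

namespace Pool.Agent.P.MP_dba3d2_lc

open Filter

namespace B_cveA

variable {Γ : HG} {a : Amb} {H : Subgroup (MM Γ a)} {μ : a.K} {c u v f : MM Γ a}

/-- two fixed points in `H` are related by an exponent in `H` -/
theorem slide (hL : S_LINE) (hK : S_B_CVK) (hH : Cvx H) (hμ : Big μ) (hc : c ∈ H)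
    (h0 : ¬ IsOfFinOrder c) (hm : Ll (md c) μ) (hu : u ∈ H) (hv : v ∈ H) (hs : Stab μ u v c)
    (hd : Ls (ds u v) μ) : ∃ f ∈ H, f ∈ Ep c ∧ Ll (ds (f * u) v) μ := by
  rcases ll_or_ls hμ.pos (ds u v) with e | e
  · exact ⟨1, one_mem _, one_mem _, by rwa [one_mul]⟩
  obtain ⟨z, hz⟩ := exists_md_ds c
  obtain ⟨L, -, k⟩ := exists_coord hL h0 (Ls.of_le hz.le)
  obtain ⟨i, hi⟩ := ((k μ hm).2.2 u).1 hs.1
  obtain ⟨j, hj⟩ := ((k μ hm).2.2 v).1 hs.2
  have e1 : ipow c (j - i) * (ipow c i * z) = ipow c j * z := by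
    rw [← mul_assoc, ← ipow_add, sub_add_cancel]
  have e2 : Ll (ds (ipow c (j - i) * u) v) μ := by
    refine Ll.mono_left ?_ (hi.add hj)
    have := ds_tri (ipow c (j - i) * u) (ipow c (j - i) * (ipow c i * z)) v
    rwa [ds_mul_left, e1, ds_comm (ipow c j * z)] at this
  refine ⟨_, hK Γ a H μ c u v hH hμ hc h0 hu hv hs e _ ?_, ipow_mem_Ep c _, e2⟩
  refine Ls.mono_left (ds_tri u v _) (hd.add ?_)
  rw [ds_comm]
  exact e2.ls

/-- divisors of an exponent -/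
theorem root (hL : S_LINE) (hK : S_B_CVK) (hH : Cvx H) (hc : c ∈ H) (h0 : ¬ IsOfFinOrder c)
    (hf : f ∈ H) (hf' : f ∈ Ep c) {l : a.Z} {n r : ℕ} (hn : 0 < n)
    (ht : IsOfFinOrder (f⁻¹ * ipow c ((n : a.Z) * l + (r : a.Z)))) : ipow c l ∈ H := by
  by_cases hb : Big |zK l|
  swap
  · obtain ⟨m, rfl⟩ := exists_int_of_not_big hb
    rw [ipow_intCast]
    exact zpow_mem hc m
  obtain ⟨u, h1, h2, h3⟩ := exists_mid 1 (c * 1)
  have hu : u ∈ H := hH.mem (one_mem _) (mul_mem hc (one_mem _)) h1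
  have hcen := mid_cen (c := c) (fun e => h0 (e ▸ IsOfFinOrder.one)) h1 h2 h3
  obtain ⟨⟨L, hs, k⟩, -, k'⟩ := hL Γ a c u h0 hcen
  have m1 := one_le_md' h0
  have L0 : 0 < L := hs.2.pos (one_pos.trans_le m1)
  have l1 : Ll L (|zK l| * L) := fun m => mul_le_mul_of_nonneg_right (hb m) L0.le
  have l2 : Ll (md c) (|zK l| * L) := Ll.ls_left hs.2 l1
  have hμ : Big (|zK l| * L) := big_iff_ll.2 (l2.mono_left m1)
  set k0 : a.Z := (n : a.Z) * l + (r : a.Z) with hk0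
  have l3 : Ll (ds (ipow c k0 * u) (f * u)) (|zK l| * L) := by
    refine Ll.ls_left ?_ l2
    have := k' _ (mul_mem (inv_mem hf') (ipow_mem_Ep c k0)) ht
    rwa [← ds_mul_left f, mul_assoc, mul_inv_cancel_left, ds_comm] at this
  have l4 : Ll (ds u (c * u)) (|zK l| * L) := Ll.ls_left hcen l2
  refine hK Γ a H _ c u (f * u) hH hμ hc h0 hu (mul_mem hf hu) ⟨l4, fix_congr ?_ l3⟩ ?_ l ?_
  · rwa [disp_comm (commute_ipow (Commute.refl c) k0).symm]
  · refine Ls.of_le_add (Ls.refl' _) (l3.add (l1.nat_mul r)) hμ.pos 1 ?_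
    have a1 : |zK l| ≤ |zK k0| + r := by
      have b1 : zK k0 = n * zK l + r := by rw [hk0, zK_add, zK_mul, zK_natCast, zK_natCast]
      have b2 : (1 : a.K) ≤ n := Nat.one_le_cast.2 hn
      have b3 : |(n : a.K) * zK l| ≤ |zK k0| + |(r : a.K)| := by
        rw [show (n : a.K) * zK l = zK k0 - r by rw [b1]; ring]
        exact abs_sub _ _
      rw [abs_mul, Nat.abs_cast, Nat.abs_cast] at b3
      exact (le_mul_of_one_le_left (abs_nonneg _) b2).trans b3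
    have a2 := mul_le_mul_of_nonneg_right a1 L0.le
    have a3 := (k k0).1
    have a4 := ds_tri u (f * u) (ipow c k0 * u)
    rw [ds_comm (f * u)] at a4
    push_cast
    linarith
  · have := (Ll.ls_left (k l).2.1 l2).ls.add (Ls.refl' (|zK l| * L))
    rwa [sub_add_cancel] at this

end B_cveA

theorem p_B_CVE (hELEM : S_ELEM) (hLINE : S_LINE) (hB_CVK : S_B_CVK) :
    S_B_CVE := by
  intro Γ a H hH
  refine ⟨fun μ hμ h hh lh c hc pc lc hm => ?_, fun c hc pc f hf hf' n hn => ?_⟩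
  · obtain ⟨u, u1, u2, -, u3, -⟩ := exists_proj hμ hm 1
    obtain ⟨v, v1, v2, -, v3, -⟩ := exists_proj hμ hm h
    have d1 := disp_le c h 1
    rw [ds_comm h 1, ds_one_mul, ds_one_left] at d1
    have hu := hH.mem (one_mem _) (mul_mem hc (one_mem _)) u1
    rw [ds_one_mul] at u2
    obtain ⟨f, hf, hf', e⟩ := B_cveA.slide hLINE hB_CVK hH hμ hc pc.1 hm hu
      (hH.mem hh (mul_mem hc hh) v1) ⟨u3, v3⟩ (Ls.mono_left (by
        linarith [ds_tri u 1 v, ds_tri 1 h v, ds_comm u 1, ds_one_left h, ln_nonneg h,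
          ln_nonneg c]) (lh.two.add lc))
    refine ⟨f, hf, hf', Ll.mono_left ?_ e.two⟩
    rw [← ds_conj]
    linarith [ds_tri f (f * u) h, ds_tri (f * u) v h, ds_comm v h, ds_mul_right f u, ds_one_left u]
  · obtain ⟨k, hk⟩ := pc.2 f hf'
    obtain ⟨l, r, -, rfl⟩ := exists_divmod k n hn
    refine ⟨_, B_cveA.root hLINE hB_CVK hH hc pc.1 hf hf' hn hk, ipow_mem_Ep c l, r, ?_⟩
    rwa [ipow_pow, ← ipow_natCast, ← ipow_add, mul_comm l]

end Pool.Agent.P.MP_dba3d2_lc
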