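import Pool.Agent.P.MP_dba3d2_lc.B.Iface2
import Pool.Agent.P.MP_dba3d2_lc.A.Iface
import Pool.Agent.P.MP_dba3d2_lc.A.Bas1
import Pool.Agent.P.MP_dba3d2_lc.B.Axis

/-! Step B_CVK of the stability project. -/

namespace Pool.Agent.P.MP_dba3d2_lc

open Filter

namespace B_cvk

variable {Γ : HG} {a : Amb} {μ L : a.K} {c z u v : MM Γ a} {H : Subgroup (MM Γ a)}

theorem shift (c z u : MM Γ a) (i l : a.Z) :
    ds (ipow c (i + l) * z) (ipow c l * u) = ds u (ipow c i * z) := by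
  rw [add_comm, ipow_add, mul_assoc, ds_mul_left, ds_comm]

/-- a translation by at most half of the segment realises an overlap -/
theorem key (hH : Cvx H) (hμ : Big μ) (hL : 0 < L)
    (C1 : ∀ k l : a.Z, |zK k - zK l| * L ≤ ds (ipow c k * z) (ipow c l * z))
    (C2 : ∀ i j k : a.Z, i ≤ j → j ≤ k → On μ (ipow c j * z) (ipow c i * z) (ipow c k * z))
    (hu : u ∈ H) (hv : v ∈ H) {i j l : a.Z} (hi : Ll (ds u (ipow c i * z)) μ)
    (hj : Ll (ds v (ipow c j * z)) μ) (hn : Ls μ ((zK j - zK i) * L)) (h0 : 0 ≤ zK l)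
    (h1 : 2 * zK l ≤ zK j - zK i) : ipow c l ∈ H := by
  have z0 : ∀ p : MM Γ a, Ll (ds p p) μ := fun p => Ll.of_nonpos (ds_self p).le hμ.pos.le
  have hi' : Ll (ds (ipow c i * z) u) μ := ds_comm u _ ▸ hi
  have hj' : Ll (ds (ipow c j * z) v) μ := ds_comm v _ ▸ hj
  have gi : Ll (ds (ipow c (i + l) * z) (ipow c l * u)) μ := shift c z u i l ▸ hi
  have gj : Ll (ds (ipow c (j + l) * z) (ipow c l * v)) μ := shift c z v j l ▸ hj
  have o1 : i ≤ i + l := zK_le.1 (by rw [zK_add]; linarith)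
  have o2 : i + l ≤ j := zK_le.1 (by rw [zK_add]; linarith)
  have o3 : j ≤ j + l := zK_le.1 (by rw [zK_add]; linarith)
  refine hH.ov hμ hu hv hu hv (p := ipow c (i + l) * z) (q := ipow c j * z)
    ⟨?_, (C2 _ _ _ o1 o2).congr (z0 _) hi' hj', (on_right hμ.pos.le _ _).congr (z0 _) hi' hj',
      (on_left hμ.pos.le _ _).congr (z0 _) gi gj, (C2 _ _ _ o2 o3).congr (z0 _) gi gj⟩
  refine hn.trans' ⟨2, ?_⟩
  have h2 := C1 (i + l) j
  rw [zK_add, abs_sub_comm] at h2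
  have h3 := mul_le_mul_of_nonneg_right (le_abs_self (zK j - (zK i + zK l))) hL.le
  have h4 := mul_le_mul_of_nonneg_right h1 hL.le
  push_cast
  linarith

theorem key2 (hH : Cvx H) (hμ : Big μ) (hL : 0 < L)
    (C1 : ∀ k l : a.Z, |zK k - zK l| * L ≤ ds (ipow c k * z) (ipow c l * z))
    (C2 : ∀ i j k : a.Z, i ≤ j → j ≤ k → On μ (ipow c j * z) (ipow c i * z) (ipow c k * z))
    (hu : u ∈ H) (hv : v ∈ H) {i j l : a.Z} (hi : Ll (ds u (ipow c i * z)) μ)
    (hj : Ll (ds v (ipow c j * z)) μ) (hn : Ls μ (|zK i - zK j| * L))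
    (h1 : 2 * |zK l| ≤ |zK i - zK j|) : ipow c l ∈ H := by
  have k : ∀ l : a.Z, 0 ≤ zK l → 2 * zK l ≤ |zK i - zK j| → ipow c l ∈ H := fun l h0 h1 => by
    rcases abs_cases (zK i - zK j) with e | e
    · rw [e.1] at hn h1
      exact key hH hμ hL C1 C2 hv hu hj hi hn h0 h1
    · rw [e.1, neg_sub] at hn h1
      exact key hH hμ hL C1 C2 hu hv hi hj hn h0 h1
  rcases abs_cases (zK l) with e | e
  · exact k l e.2 (e.1 ▸ h1)
  · have := k (-l) (by rw [zK_neg]; linarith [e.2]) (by rw [zK_neg, ← e.1]; exact h1)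
    rwa [ipow_neg, inv_mem_iff] at this

end B_cvk

theorem p_B_CVK (hLINE : S_LINE) :
    S_B_CVK := by
  intro Γ a H μ c u v hH hμ hc hf hu hv hs hn k hk
  obtain ⟨z, hz⟩ := exists_md_ds c
  obtain ⟨L, hL, hC⟩ := exists_coord hLINE hf (Ls.of_le hz.le)
  obtain ⟨C1, C2, C3⟩ := hC μ hs.md
  have L0 : 0 < L := hL.2.pos (one_pos.trans_le (one_le_md' hf))
  have L1 : Ll L μ := Ll.ls_left hL.1 hs.md
  obtain ⟨i, hi⟩ := (C3 u).1 hs.1
  obtain ⟨j, hj⟩ := (C3 v).1 hs.2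
  have h1 : Ls μ (|zK i - zK j| * L) := by
    refine hn.of_le_add (((C1 i j).1.add hi).add hj) hμ.pos 1 ?_
    have t1 := ds_tri u (ipow c i * z) v
    have t2 := ds_tri (ipow c i * z) (ipow c j * z) v
    rw [ds_comm (ipow c j * z) v] at t2
    push_cast
    linarith
  have h2 : Ls (|zK k| * L) μ := by
    refine Ls.mono_left ?_ ((hi.ls.add hk).add hi.ls)
    have t0 := (C1 (i + k) i).2
    rw [zK_add, add_sub_cancel_left] at t0
    have t1 := ds_tri (ipow c (i + k) * z) (ipow c k * u) (ipow c i * z)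
    have t2 := ds_tri (ipow c k * u) u (ipow c i * z)
    rw [B_cvk.shift] at t1
    rw [ds_comm _ u] at t2
    linarith
  obtain ⟨n, h3⟩ := h2.trans' h1
  rw [← mul_assoc] at h3
  have h4 := le_of_mul_le_mul_right h3 L0
  have h5 := le_of_mul_le_mul_right (L1.ls_right h1 (mul_nonneg (abs_nonneg _) L0.le) 4) L0
  obtain ⟨l, r, hr, e⟩ := exists_divmod k (4 * (n + 1)) (by omega)
  have h6 : 2 * |zK l| ≤ |zK i - zK j| := by
    have e1 : zK k = (4 * (n + 1) : ℕ) * zK l + (r : a.K) := by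
      rw [e, zK_add, zK_mul, zK_natCast, zK_natCast]
    have r0 : (0 : a.K) ≤ r := Nat.cast_nonneg r
    have r1 : (r : a.K) ≤ (4 * (n + 1) : ℕ) := Nat.cast_le.2 hr.le
    have n0 : (0 : a.K) ≤ n := Nat.cast_nonneg n
    have e2 : ((4 * (n + 1) : ℕ) : a.K) * |zK l| ≤ |zK k| + r := by
      have : ((4 * (n + 1) : ℕ) : a.K) * zK l = zK k - r := by rw [e1]; ring
      rw [← Nat.abs_cast (4 * (n + 1)), ← abs_mul, this]
      exact (abs_sub _ _).trans (by rw [abs_of_nonneg r0])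
    push_cast at e2 r1 h5
    refine le_of_mul_le_mul_left (a := 2 * ((n : a.K) + 1)) ?_ (by linarith)
    have := mul_le_mul_of_nonneg_left h5 (show (0 : a.K) ≤ n + 2 by linarith)
    linarith
  rw [e, ipow_add, mul_comm, ← ipow_pow, ipow_natCast]
  exact mul_mem (pow_mem (B_cvk.key2 hH hμ L0 (fun k l => (C1 k l).2) C2 hu hv hi hj h1 h6) _)
    (pow_mem hc _)

end Pool.Agent.P.MP_dba3d2_lc
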