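import Pool.Agent.P.MP_dba3d2_lc.B.Iface2
import Pool.Agent.P.MP_dba3d2_lc.B.Tre
import Pool.Agent.P.MP_dba3d2_lc.A.Bas1

/-! Step B_NET of the stability project. -/

namespace Pool.Agent.P.MP_dba3d2_lc

open Filter

namespace B_net

theorem grid {K : Type} [Field K] [LinearOrder K] [IsStrictOrderedRing K] (s t : K) (ht : 0 ≤ t)
    (N : ℕ) : ∃ i ≤ N, (i : K) * s ≤ t ∧ (t ≤ (i + 1) * s ∨ i = N) := by
  induction N with
  | zero => exact ⟨0, le_rfl, by simpa using ht, Or.inr rfl⟩
  | succ N ih =>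
    obtain ⟨i, h1, h2, h3⟩ := ih
    rcases h3 with h3 | rfl
    · exact ⟨i, h1.trans (Nat.le_succ N), h2, Or.inl h3⟩
    · rcases le_total t ((i + 1) * s) with h | h
      · exact ⟨i, Nat.le_succ i, h2, Or.inl h⟩
      · exact ⟨i + 1, le_rfl, by push_cast; exact h, Or.inr rfl⟩

variable {Γ : HG} {a : Amb} {μ : a.K}

theorem key (hμ : Big μ) {x y p q m r : MM Γ a} (hr : On μ r x y) (hp : On μ p x y)
    (hq : On μ q x y) (hpq : On μ p x q) (hm : On μ m p q) (h1 : ds m r ≤ ds p m + 1)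
    (h2 : ds m r ≤ ds m q) : On μ r p q := by
  obtain ⟨a1, a2⟩ := On.sub' hpq hm
  have b1 : On μ p x r := by
    refine (On.order hμ hp hr (Ll.mono_left ?_ (Ll.add a2 hμ.ll_one))).1
    have := ds_tri x r m
    rw [ds_comm r m] at this
    linarith
  have b2 : On μ r x q := by
    refine (On.order hμ hr hq (Ll.mono_left ?_ a1)).1
    have := ds_tri x m r
    linarith
  exact (On.sub b2 b1).2

end B_net

theorem p_B_NET :
    S_B_NET := by
  intro Γ a x y
  have hD := ds_nonneg x y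
  have hP : ∀ im : ℕ × ℕ, ∃ P : MM Γ a, im.1 ≤ im.2 + 1 → ds x P + ds P y = ds x y ∧
      ds x P ≤ im.1 * (ds x y / (im.2 + 1)) ∧ im.1 * (ds x y / (im.2 + 1)) ≤ ds x P + 1 := by
    rintro ⟨i, m⟩
    by_cases h : i ≤ m + 1
    · have hm : (0 : a.K) < (m : a.K) + 1 := by positivity
      have hi : (i : a.K) ≤ (m : a.K) + 1 := by exact_mod_cast h
      obtain ⟨P, hP⟩ := exists_point x y (i * (ds x y / (m + 1))) (by positivity) (by
        rw [← mul_div_assoc, div_le_iff₀ hm, mul_comm]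
        exact mul_le_mul_of_nonneg_left hi hD)
      exact ⟨P, fun _ => hP⟩
    · exact ⟨1, fun h' => absurd h' h⟩
  choose P hP using hP
  refine ⟨Set.range P, Set.countable_range P, fun μ hμ hxy => ?_⟩
  have h0 := hμ.pos
  have main : ∀ p, On μ p x y → ∀ n : ℕ, ∃ r ∈ Set.range P, On μ r x y ∧ n * ds p r ≤ μ := by
    intro p hp n
    obtain ⟨C, hC⟩ := hxy
    set m := 2 * n * C with hm
    have hm0 : (0 : a.K) < (m : a.K) + 1 := by positivity
    set s := ds x y / ((m : a.K) + 1) with hs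
    have hs0 : 0 ≤ s := by positivity
    have hsD : ((m : a.K) + 1) * s = ds x y := by rw [hs]; field_simp
    obtain ⟨i, i1, i2, i3⟩ := B_net.grid s (ds x p) (ds_nonneg x p) (m + 1)
    obtain ⟨r1, r2, r3⟩ := hP (i, m) i1
    simp only [← hs] at r2 r3
    refine ⟨P (i, m), ⟨_, rfl⟩, On.of_eq h0.le r1, ?_⟩
    have c := close_le x y p (P (i, m))
    have t1 := ds_tri x p y
    have t2 := ds_nonneg p y
    have e1 : ds x p - i * s ≤ s + (ds x p + ds p y - ds x y) := by
      rcases i3 with i3 | i3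
      · linarith
      · rw [i3]; push_cast; linarith
    rw [abs_of_nonneg (by linarith)] at c
    have l : Ll (2 * (ds x p + ds p y - ds x y) + 1 + 2 * (Γ.δ : a.K)) μ :=
      ((Ll.two hp).add hμ.ll_one).add (hμ.ll_delta Γ).two
    have l2 := l (2 * n)
    have hn : (0 : a.K) ≤ n := Nat.cast_nonneg n
    have e2 : ds p (P (i, m)) ≤ s + (2 * (ds x p + ds p y - ds x y) + 1 + 2 * (Γ.δ : a.K)) := by
      linarith
    have e3 : 2 * n * s ≤ μ := by
      refine le_of_mul_le_mul_left ?_ hm0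
      have e4 : ((m : a.K) + 1) * (2 * n * s) = 2 * n * ds x y := by rw [← hsD]; ring
      have e5 : (2 : a.K) * n * ds x y ≤ 2 * n * (C * μ) :=
        mul_le_mul_of_nonneg_left hC (by positivity)
      have e6 : (m : a.K) = 2 * n * C := by rw [hm]; push_cast; ring
      rw [e4, e6]
      linarith
    have e7 := mul_le_mul_of_nonneg_left e2 hn
    push_cast at l2
    linarith
  refine ⟨main, fun p q hp hq hpq => ?_⟩
  obtain ⟨m, m1, m2, m3⟩ := exists_mid p q
  have hm : On μ m p q := On.of_eq h0.le m1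
  obtain ⟨k, hk⟩ := id hpq
  obtain ⟨r, hr, r1, r2⟩ := main m (On.conv hμ hp hq hm) (8 * (k + 1))
  have hd := ds_nonneg p q
  have e1 : 8 * ds m r ≤ ds p q := by
    have hk0 : (0 : a.K) < (k : a.K) + 1 := by positivity
    refine le_of_mul_le_mul_left ?_ hk0
    push_cast at r2
    linarith
  have f1 : ds m r ≤ ds p m + 1 := by linarith
  have f2 : ds m r ≤ ds m q := by linarith
  have g1 := ds_tri p r m
  have g2 := ds_tri m r q
  have g3 := ds_nonneg p r
  have g4 := ds_nonneg r q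
  rw [ds_comm r m] at g1
  refine ⟨r, hr, ?_, ?_, ?_⟩
  · rcases On.total hμ hp hq with h | h
    · exact B_net.key hμ r1 hp hq h.1 hm f1 f2
    · exact B_net.key hμ r1.symm hp.symm hq.symm h.2.symm hm f1 f2
  · refine Ls.of_le_add hpq (hμ.ll_nat 3) h0 3 ?_
    push_cast
    linarith
  · refine Ls.of_le_add hpq (hμ.ll_nat 3) h0 3 ?_
    push_cast
    linarith

end Pool.Agent.P.MP_dba3d2_lc
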