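import Pool.Agent.P.MP_dba3d2_lc.A.Defs2

/-! Interface, chapter B: consequences of the closure conditions. -/

namespace Pool.Agent.P.MP_dba3d2_lc

open Filter

-- deps: FINM PERC B_CVE
-- imports: Pool.Agent.P.MP_dba3d2_lc.B.Axis2
def S_CVX : Prop := ∀ (Γ : HG) (a : Amb) (H : Subgroup (MM Γ a)), Cvx H → GC H

-- deps: ELEM LINE
-- imports: Pool.Agent.P.MP_dba3d2_lc.B.Axis2
def S_TRUNC : Prop := ∀ (Γ : HG) (a : Amb) (H W : Subgroup (MM Γ a)), GC0 H → std Γ a ≤ W →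
  Sep H W → GC0 (H ⊓ W)

-- deps:
def S_UNION : Prop := ∀ (Γ : HG) (a : Amb) (ι : Type) [Nonempty ι] (H : ι → Subgroup (MM Γ a)),
  Directed (· ≤ ·) H → ((∀ i, GC0 (H i)) → GC0 (⨆ i, H i)) ∧ ((∀ i, GC (H i)) → GC (⨆ i, H i))

-- deps: B_APX B_STX
-- imports: Pool.Agent.P.MP_dba3d2_lc.B.Axis2
def S_EXTGC : Prop := ∀ (Γ : HG) (a b : Amb) (E : Ext a b) (H : Subgroup (MM Γ a)),
  (GC0 H → GC0 (H.map (E.hom Γ))) ∧ (GC H → GC (H.map (E.hom Γ)))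

-- deps: B_CLO B_CN2 B_CN0
-- imports: Pool.Agent.P.MP_dba3d2_lc.B.Axis2
def S_COUNT : Prop := ∀ (Γ : HG) (a : Amb) (H : Subgroup (MM Γ a)) (X : Set (MM Γ a)), GC H →
  X.Countable → X ⊆ H → ∃ H0 ≤ H, X ⊆ H0 ∧ (H0 : Set (MM Γ a)).Countable ∧ GC H0

-- deps: ELEM LINE PERC
-- imports: Pool.Agent.P.MP_dba3d2_lc.B.Axis2
def S_NP : Prop := ∀ (Γ : HG) (a : Amb) (c : MM Γ a), Prim c → Big (ln c) →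
  ∀ k : ℕ, 2 ≤ k → Ls (ln c) (ln (c ^ k)) ∧ ¬ Per (ln c) 1 (c ^ k)

-- deps: ELEM LINE B_RT1 B_RT2
-- imports: Pool.Agent.P.MP_dba3d2_lc.B.Axis2
def S_ROOT : Prop := ∀ (Γ : HG) (a : Amb) (H : Subgroup (MM Γ a)), GC0 H →
  (∀ γ ∈ H, ¬ IsOfFinOrder γ → ∃ c ∈ H, Prim c ∧ Ep c = Ep γ) ∧
  (∀ c ∈ H, ∀ c' ∈ H, Prim c → Prim c' → ∀ x, Cj x c' c →
    (Ll (ln x) (ln c + ln c') → x ∈ H) ∧ (Cen c → Cen c' → Ls (ln x) (md c) → x ∈ H)) ∧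
  (∀ c ∈ H, ¬ IsOfFinOrder c → ∀ f ∈ Ep c, IsOfFinOrder f → f ∈ H) ∧
  (∀ c ∈ H, ¬ IsOfFinOrder c → ∀ c0, Prim c0 → Ep c0 = Ep c → c0 ∈ H) ∧
  (∀ c ∈ H, ¬ IsOfFinOrder c → ∀ g, InE c g → ∃ g' ∈ H, g * g'⁻¹ ∈ Ep c) ∧
  (∀ c ∈ H, ∀ c' ∈ H, ¬ IsOfFinOrder c → ¬ IsOfFinOrder c' → ∀ x, Cj x c' c →
    ∃ h ∈ H, x * h⁻¹ ∈ Ep c)

-- deps: ELEM LINE PERC ROOT B_RG0
-- imports: Pool.Agent.P.MP_dba3d2_lc.B.Axis2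
def S_RIG : Prop := ∀ (Γ : HG) (a : Amb) (H : Subgroup (MM Γ a)), GC0 H →
  (∀ c ∈ H, ∀ d ∈ H, ∀ c' ∈ H, ∀ d' ∈ H, ¬ IsOfFinOrder c → ¬ IsOfFinOrder d →
    ¬ IsOfFinOrder c' → ¬ IsOfFinOrder d' → Ep c ≠ Ep d → ∀ x, Cj x c' c → Cj x d' d → x ∈ H) ∧
  (∀ c ∈ H, ∀ d ∈ H, ¬ IsOfFinOrder c → ¬ IsOfFinOrder d → Ep c ≠ Ep d →
    ∀ f g, InE c f → InE d g → f * g ∈ H → f ∈ H)

-- deps: ELEM LINE B_NM1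
-- imports: Pool.Agent.P.MP_dba3d2_lc.B.Axis2
def S_NORM : Prop := ∀ (Γ : HG) (a : Amb) (H : Subgroup (MM Γ a)), GC0 H →
  (∀ c ∈ H, Prim c → Cen c → ∀ h ∈ H, ∃ f ∈ H, f ∈ Ep c ∧
    Ls (ln (h * f)) (ln (h * c * h⁻¹)) ∧ NE c (h * f)) ∧
  (∀ c ∈ H, ∀ c' ∈ H, Prim c → Prim c' → Cen c → Cen c' → ∀ h ∈ H, ¬ Cj h c' c →
    ∃ f ∈ H, ∃ f' ∈ H, f ∈ Ep c ∧ f' ∈ Ep c' ∧ NE c (f * h * f')⁻¹ ∧ NE c' (f * h * f') ∧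
      ∀ q : MM Γ a, Ls (ln (f * h * f'))
        (ln (q⁻¹ * c * q) + ln (q⁻¹ * (f * h * f' * c' * (f * h * f')⁻¹) * q)))

end Pool.Agent.P.MP_dba3d2_lc
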