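import Pool.Agent.P.MP_dba3d2_lc.B.Iface2
import Pool.Agent.P.MP_dba3d2_lc.A.Iface
import Pool.Agent.P.MP_dba3d2_lc.B.Iface
import Pool.Agent.P.MP_dba3d2_lc.B.Axis2

/-! Step B_NM1 of the stability project. -/

namespace Pool.Agent.P.MP_dba3d2_lc

open Filter

namespace B_nm1

variable {Γ : HG} {a : Amb}

theorem ln_conj_le (y c : MM Γ a) : ln (y * c * y⁻¹) ≤ 2 * ln y + ln c := by
  linarith [ln_mul_le (y * c) y⁻¹, ln_mul_le y c, ln_inv y]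

theorem disp_inv_eq (y c : MM Γ a) : ds y⁻¹ (c * y⁻¹) = ln (y * c * y⁻¹) := by
  rw [ds_conj, inv_inv]

theorem core (hE : S_ELEM) (hL : S_LINE) {H : Subgroup (MM Γ a)} (hH : GC0 H) {c y : MM Γ a}
    (hcH : c ∈ H) (hc : Prim c) (hn : Cen c) (hy : y ∈ H) (hs : Ls (ln y) (ln (y * c * y⁻¹))) :
    ∃ f ∈ H, f ∈ Ep c ∧ Ls (ln (y * f)) (ln (y * c * y⁻¹)) ∧ NE c (y * f) := by
  by_cases hb : Big (ln y) ∧ Ll (md c) (ln y)
  swap
  · refine ⟨1, one_mem _, one_mem _, ?_⟩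
    rw [mul_one]
    exact ⟨hs, fun h1 h2 _ => hb ⟨h1, h2⟩⟩
  obtain ⟨hμ, hm⟩ := hb
  have h0 := hμ.pos
  have c0 : Ll (ln c) (ln y) := Ll.ls_left hn hm
  obtain ⟨f, hf, he, e⟩ := hH.ex _ hμ y⁻¹ (inv_mem hy) (Ls.of_le (ln_inv y).le) c hcH hc c0.ls hm
  have e1 : ds f y⁻¹ = ln (y * f) := by rw [ds, ← mul_inv_rev, ln_inv]
  rw [e1, inv_inv] at e
  have e3 : Ll (2 * ln (y * f) - ln (y * c * y⁻¹)) (ln y) :=
    Ll.mono_left (le_of_eq (by ring)) (e.add c0)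
  have e4 := e3 1
  have e5 := c0 1
  rw [Nat.cast_one, one_mul] at e4 e5
  have z0 := ln_nonneg (y * f)
  have s1 : Ls (ln (y * f)) (ln y) := ⟨2, by
    have := ln_conj_le y c
    push_cast
    linarith⟩
  have s2 : Ls (ln y) (ln (y * f)) := by
    have k := (hc.conj' f).disp' hE hL hc.1 (Ep_conj_mem' he) 1
    rw [ds_one_mul, ds_one_mul] at k
    refine hs.of_le_add (Ll.ls_left k c0) h0 2 ?_
    have := ln_conj_le (y * f) (f⁻¹ * c * f)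
    rw [show y * f * (f⁻¹ * c * f) * (y * f)⁻¹ = y * c * y⁻¹ by group] at this
    exact_mod_cast this
  refine ⟨f, hf, he, s1.trans' hs, fun _ _ hF => ?_⟩
  obtain ⟨q, q1, q2, -, q3⟩ := (Sim.fol_iff ⟨s1, s2⟩ z0 h0.le).1 hF
  have d1 := disp_le c (y * f)⁻¹ q
  have d2 := disp_ll (c := c) (c' := f * c * f⁻¹) hμ (by rwa [md_conj'])
    (fun w hw => hc.fix hE hL (hc.conj f).1 (Ep_conj_mem he).symm hw) y⁻¹
  rw [disp_inv_eq] at d1 d2
  rw [disp_inv_eq, show y * (f * c * f⁻¹) * y⁻¹ = y * f * c * (y * f)⁻¹ by group] at d2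
  rw [On, ds_one_left, ds_one_left, ln_inv, ds_comm q] at q2
  refine Ll.not_ls (Ll.mono_left ?_ (((q2.two.add e3).add d2).add q3)) h0 q1
  linarith [ln_nonneg q]

end B_nm1

theorem p_B_NM1 (hELEM : S_ELEM) (hLINE : S_LINE) (hROOT : S_ROOT) :
    S_B_NM1 := by
  intro Γ a H hH c hcH hc hn h hh
  have hγ : h * c * h⁻¹ ∈ H := mul_mem (mul_mem hh hcH) (inv_mem hh)
  obtain ⟨p, hp, l1, n2⟩ := hH.cen1 hγ (hc.conj h).1
  have hc2 := (hc.conj h).conj' p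
  have hx : Cj (h⁻¹ * p) (p⁻¹ * (h * c * h⁻¹) * p) c := congrArg Ep (by group)
  obtain ⟨k, l2⟩ := short_conj hELEM hLINE hc hc2 hn n2 hx
  have hy := ((hROOT Γ a H hH).2.1 c hcH _ (mul_mem (mul_mem (inv_mem hp) hγ) hp) hc hc2 _
    ((Cj.of_mem (inv_mem (ipow_mem_Ep c k))).mul hx)).2 hn n2 l2
  have h0 : ipow c k ∈ H := by
    have := mul_mem (mul_mem (inv_mem hh) hp) (inv_mem hy)
    rwa [show h⁻¹ * p * ((ipow c k)⁻¹ * (h⁻¹ * p))⁻¹ = ipow c k by group] at this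
  have e : h * ipow c k * c * (h * ipow c k)⁻¹ = h * c * h⁻¹ := by
    rw [mul_assoc h, ← (commute_ipow (Commute.refl c) k).eq]
    group
  obtain ⟨f, hf, he, r⟩ := B_nm1.core hELEM hLINE hH hcH hc hn (mul_mem hh h0) (by
    rw [e, show h * ipow c k = p * ((ipow c k)⁻¹ * (h⁻¹ * p))⁻¹ by group]
    refine Ls.mono_left (ln_mul_le _ _) (l1.add ?_)
    rw [ln_inv]
    exact l2.mono_right ((md_conj' h c).symm.trans_le (md_le_ln _)))
  rw [e, mul_assoc] at r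
  exact ⟨_, mul_mem h0 hf, mul_mem (ipow_mem_Ep c k) he, r⟩

end Pool.Agent.P.MP_dba3d2_lc
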