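import Pool.Agent.P.MP_dba3d2_lc.B.Iface2
import Pool.Agent.P.MP_dba3d2_lc.A.Iface
import Pool.Agent.P.MP_dba3d2_lc.B.Iface
import Pool.Agent.P.MP_dba3d2_lc.B.Axis2

/-! Step B_RG0 of the stability project. -/

namespace Pool.Agent.P.MP_dba3d2_lc

open Filter

namespace B_rg0

variable {Γ : HG} {a : Amb} {μ : a.K}

theorem ls_pow {g : MM Γ a} (h : Ls (ln g) μ) (n : ℕ) : Ls (ln (g ^ n)) μ :=
  Ls.mono_left (ln_pow_le g n) (h.nat_mul n)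

theorem ll_md {g : MM Γ a} (h : Ll (md g) μ) (n : ℕ) : Ll (md (g ^ n)) μ :=
  Ll.mono_left (md_pow_le g n) (h.nat_mul n)

theorem ls_disp {g u : MM Γ a} (h : Ls (ln g) μ) (h' : Ls (ln u) μ) : Ls (ds u (g * u)) μ := by
  refine Ls.mono_left (disp_le g u 1) ?_
  rw [ds_one_right, ds_one_mul]
  exact h'.two.add h

theorem root (hE : S_ELEM) {H : Subgroup (MM Γ a)} {c c' x : MM Γ a} (hc' : c' ∈ H) (p : Prim c)
    (p' : Prim c') (l : Ls (ln c') μ) (h : Cj x c' c) :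
    ∃ C' ∈ H, Ls (ln C') μ ∧ x * C' * x⁻¹ = c ^ (Γ.e * Γ.e) := by
  rcases h.pow hE p p' with e | e
  · exact ⟨_, pow_mem hc' _, ls_pow l _, e⟩
  · exact ⟨_, inv_mem (pow_mem hc' _), by rw [ln_inv]; exact ls_pow l _, e⟩

theorem key (hμ : Big μ) {C D p b : MM Γ a} (hC : Ll (md C) μ) (hD : Ll (md D) μ)
    (hp : Ll (ds p (C * p)) μ) (hb : ∀ z, Ll (ds z (D * z)) μ → On μ b p z)
    (hl : Ls μ (ds b (C * b))) (y : MM Γ a) :
    ∃ y2, (y2 = y ∨ y2 = D * y) ∧ On μ b y2 (C * y2) ∧ On μ (C * b) y2 (C * y2) := by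
  have h0 := hμ.pos
  obtain ⟨q, q1, q2, q3, q4, q5⟩ := exists_proj hμ hC b
  obtain ⟨m, m1, -, -, m4, -⟩ := exists_proj hμ hD y
  have l1 : Ls μ (ds b q) := hl.of_le_add (hμ.ll_nat 2) h0 2 (by simpa using q3)
  have l2 : Ls μ (ds q (C * b)) := l1.mono_right (by linarith)
  have fin : ∀ y2, On μ m y2 p → On μ b y2 (C * y2) ∧ On μ (C * b) y2 (C * y2) := fun y2 h => by
    have a1 := ((h.sub' (hb m m4).symm).1.sub' (q5 p hp)).2
    have a2 : On μ (C * b) q (C * y2) := On.symm ((a1.mul C).congr (p' := C * b) (x' := C * y2)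
      (y' := q) (by simpa using Ll.zero h0.le) (by simpa using Ll.zero h0.le)
      (by rw [ds_comm]; exact q4))
    have a3 := On.glue hμ a1 (On.of_eq h0.le q1) l1
    have a4 := (On.glue hμ a3.2 a2 l2).2
    exact ⟨(a4.sub a3.1).1, a4⟩
  rcases On.cases hμ (On.of_eq h0.le m1) p with h | h
  · exact ⟨y, Or.inl rfl, fin y h⟩
  · exact ⟨_, Or.inr rfl, fin _ h⟩

end B_rg0

open B_rg0

theorem p_B_RG0 (hELEM : S_ELEM) (hLINE : S_LINE) (hNP : S_NP) :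
    S_B_RG0 := by
  intro Γ a H μ hH hμ c hc d hd c' hc' d' hd' pc pd pc' pd' lc ld lc' ld' mc md' hq x _ j1 j2
  have h0 := hμ.pos
  have e0 := ee_ne_zero Γ
  obtain ⟨C', hC', lC', eC⟩ := root hELEM hc' pc pc' lc' j1
  obtain ⟨D', hD', lD', eD⟩ := root hELEM hd' pd pd' ld' j2
  obtain ⟨p, -, p2, -, p4, -⟩ := exists_proj hμ mc 1
  obtain ⟨b, -, b2, -, b4, b5⟩ := exists_proj hμ (ll_md md' (Γ.e * Γ.e)) p
  have lp : Ls (ln p) μ := by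
    rw [ds_one_mul, ds_one_left] at p2
    exact Ls.mono_left (by linarith [ln_nonneg p]) lc
  have fd : Ll (ds b (d * b)) μ := Ll.ls_left (pow_disp hELEM hLINE pd.1 e0 b) b4
  have s1 : Ls μ (ln (b⁻¹ * c * b)) := by
    rw [← ds_conj]
    exact (hq b).of_le_add fd h0 1 (by simp)
  have s2 : Ls (ln (b⁻¹ * c * b)) μ := by
    rw [← ds_conj]
    refine Ls.mono_left (disp_le c b p) (Ls.add ?_ p4.ls)
    rw [ds_comm]
    exact Ls.mono_left b2 (ls_disp (ls_pow ld _) lp)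
  obtain ⟨n1, n2⟩ := hNP Γ a _ (pc.conj' b) (hμ.of_ls s1) (Γ.e * Γ.e * 2) (by omega)
  have e1 : (b⁻¹ * c * b) ^ (Γ.e * Γ.e * 2) = b⁻¹ * c ^ (Γ.e * Γ.e * 2) * b := by
    simpa using conj_pow (a := b⁻¹) (b := c) (i := Γ.e * Γ.e * 2)
  rw [e1] at n1 n2
  have n3 : Ls μ (ds b (c ^ (Γ.e * Γ.e * 2) * b)) := by rw [ds_conj]; exact s1.trans' n1
  rw [Sim.per_iff ⟨s2, s1⟩ (ln_nonneg _) h0.le, ← per_mul_iff b, mul_one, ← mul_assoc,
    mul_inv_cancel_left] at n2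
  have k := key hμ (ll_md mc (Γ.e * Γ.e * 2)) (ll_md md' (Γ.e * Γ.e)) (fix_pow p4 _) b5 n3
  obtain ⟨u, hu, u1, u2⟩ := k 1
  obtain ⟨y, hy, y1, y2⟩ := k x
  have hu' : u ∈ H ∧ Ls (ln u) μ := by
    rcases hu with rfl | rfl
    · exact ⟨one_mem H, by simpa using Ls.zero h0.le⟩
    · rw [mul_one]; exact ⟨pow_mem hd _, ls_pow ld _⟩
  obtain ⟨u', hu1, hu2, rfl⟩ : ∃ u' ∈ H, Ls (ln u') μ ∧ y = x * u' := by
    rcases hy with rfl | rfl
    · exact ⟨1, one_mem H, by simpa using Ls.zero h0.le, (mul_one _).symm⟩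
    · exact ⟨D', hD', lD', by rw [← eD, inv_mul_cancel_right]⟩
  have e2 : c ^ (Γ.e * Γ.e * 2) * (x * u') = x * (C' ^ 2 * u') := by
    rw [pow_mul, ← eC, conj_pow]; group
  rw [e2] at y1 y2
  exact hH.g2' hμ hu'.1 (mul_mem (pow_mem hc _) hu'.1) hu1 (mul_mem (pow_mem hC' _) hu1)
    (ls_disp (ls_pow lc _) hu'.2) (ls_disp (ls_pow lC' _) hu2) ⟨n3, u1, u2, y1, y2⟩ n2

end Pool.Agent.P.MP_dba3d2_lc
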