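import Pool.Agent.P.MP_dba3d2_lc.B.Iface2
import Pool.Agent.P.MP_dba3d2_lc.A.Iface
import Pool.Agent.P.MP_dba3d2_lc.B.Axis2

/-! Step B_RT1 of the stability project. -/

namespace Pool.Agent.P.MP_dba3d2_lc

open Filter

theorem B_rt1.cen (hE : S_ELEM) (hL : S_LINE) (hP : S_PERC) {Γ : HG} {a : Amb}
    {H : Subgroup (MM Γ a)} (hH : GC0 H) {γ : MM Γ a} (h1 : γ ∈ H) (h2 : ¬ IsOfFinOrder γ)
    (h3 : Cen γ) : ∃ c ∈ H, Prim c ∧ Ep c = Ep γ := by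
  obtain ⟨c0, hc, he⟩ := (hE Γ a γ h2).1
  have l0 : Ls (ln c0) (ln γ) := by simpa only [ds_one_mul] using hc.disp' hE hL h2 he 1
  by_cases hμ : Big (ln γ)
  swap
  · exact ⟨c0, hH.of_not_big (not_big_of_ls l0 hμ), hc, he⟩
  have e0 : Γ.e ≠ 0 := Γ.good.pos.ne'
  obtain ⟨p1, p2⟩ := Ep_pow hE h2 e0
  have cm : Commute c0 (γ ^ Γ.e) := mem_Ep.1 (he ▸ self_mem_Ep c0)
  have l1 : Ls (ln (γ ^ Γ.e)) (ln γ) := ⟨_, ln_pow_le γ _⟩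
  rcases ll_or_ls hμ.pos (md c0) with hm | hm
  · obtain ⟨z, -, z1, -, z2, -⟩ := exists_proj hμ hm 1
    rw [ds_one_mul, ds_one_left] at z1
    obtain ⟨q, hq⟩ := exists_md_ds (γ ^ Γ.e)
    have l2 : Ls (ln γ) (md (γ ^ Γ.e)) :=
      Ls.trans' h3 (Ls.mono_left (md_le_ds γ q) (hq ▸ pow_disp hE hL h2 e0 q))
    obtain ⟨N, -, hN⟩ := pow_long hL p1 (D := 2 * ln z + ln γ + ln γ)
      (((Ls.mono_left z1 (l0.trans' l2)).add l2).add l2)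
    obtain ⟨p, q, ⟨o1, o2, o3, o4, o5⟩, -⟩ := exists_ov hμ (x := 1) (y := (γ ^ Γ.e) ^ N) (x' := z)
      (y' := (γ ^ Γ.e) ^ N * z) (ds_one_left z).le (ds_mul_right _ z).le le_rfl
      (((hN N le_rfl).trans (md_le_ln _)).trans (ds_one_left _).ge)
    have st : Stab (ln γ) p q c0 :=
      Stab.sub hμ ⟨z2, (disp_comm (cm.pow_right N).symm z).symm ▸ z2⟩ o4 o5
    obtain ⟨c, c1, c2, c3⟩ := hH.g20 _ hμ _ (pow_mem (pow_mem h1 _) N)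
      (Ls.trans' ⟨_, ln_pow_le _ N⟩ l1) p q o1 o2 o3 ⟨c0, hc.1, st⟩
    exact ⟨c, c1, c2, (Ep_eq_of_stab hE hP hμ o1 c2.1 hc.1 c3 st).trans he⟩
  · exact ⟨c0, hH.axis hE hL hP hμ (pow_mem h1 _) (pow_mem h1 _)
      (by rw [cm.eq, mul_inv_cancel_right]) l1 l1 l0 p1 hc (he.trans p2.symm) hm, hc, he⟩

theorem p_B_RT1 (hELEM : S_ELEM) (hLINE : S_LINE) (hPERC : S_PERC) :
    S_B_RT1 := by
  intro Γ a H hH γ h1 h2
  obtain ⟨p, hp, -, h3⟩ := hH.cen1 h1 h2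
  obtain ⟨c, c1, c2, c3⟩ := B_rt1.cen hELEM hLINE hPERC hH (mul_mem (mul_mem (inv_mem hp) h1) hp)
    (mt (finOrder_conj' p γ).1 h2) h3
  refine ⟨p * c * p⁻¹, mul_mem (mul_mem hp c1) (inv_mem hp), c2.conj p, ?_⟩
  rw [(Ep_conj_iff p).2 c3]
  congr 1
  group

end Pool.Agent.P.MP_dba3d2_lc
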