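import Pool.Agent.P.MP_dba3d2_lc.B.Iface2
import Pool.Agent.P.MP_dba3d2_lc.A.Iface
import Pool.Agent.P.MP_dba3d2_lc.B.Iface
import Pool.Agent.P.MP_dba3d2_lc.B.Axis2

/-! Step B_RT2 of the stability project. -/

namespace Pool.Agent.P.MP_dba3d2_lc

open Filter

theorem p_B_RT2 (hELEM : S_ELEM) (hLINE : S_LINE) (hPERC : S_PERC) (hNP : S_NP) :
    S_B_RT2 := by
  intro Γ a H hH c hcH c' hcH' hc hc' x h
  have hE : Γ.e * Γ.e ≠ 0 := Nat.mul_ne_zero Γ.good.pos.ne' Γ.good.pos.ne'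
  obtain ⟨γ', m', he, l'⟩ : ∃ γ' ∈ H, x * γ' * x⁻¹ = c ^ (Γ.e * Γ.e) ∧ Ls (ln γ') (ln c') := by
    rcases Cj.pow hELEM hc hc' h with e | e
    · exact ⟨_, pow_mem hcH' _, e, _, ln_pow_le _ _⟩
    · exact ⟨_, inv_mem (pow_mem hcH' _), e, _, (ln_inv _).le.trans (ln_pow_le _ _)⟩
  have hd : Prim (x * c' * x⁻¹) := hc'.conj x
  have hep : Ep (x * c' * x⁻¹) = Ep c := h
  refine ⟨fun hx => ?_, fun h1 h2 hx => ?_⟩
  · by_cases hμ : Big (ln c + ln c')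
    swap
    · exact hH.of_not_big (not_big_of_ls hx.ls hμ)
    have n0 := ln_nonneg c
    have n1 := ln_nonneg c'
    obtain ⟨n, e1⟩ : Ls (ln (x * c' * x⁻¹)) (ln c) := by
      simpa only [ds_one_mul] using hd.disp' hELEM hLINE hc.1 hep 1
    have e2 : ln c' ≤ ln x + ln (x * c' * x⁻¹) + ln x := by
      have k : c' = x⁻¹ * (x * c' * x⁻¹) * x := by group
      have k1 := ln_mul_le (x⁻¹ * (x * c' * x⁻¹)) x
      have k2 := ln_mul_le x⁻¹ (x * c' * x⁻¹)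
      rw [← k] at k1
      rw [ln_inv] at k2
      linarith
    have s1 : Ls (ln c + ln c') (ln c) :=
      (Ls.refl' _).of_le_add hx.two hμ.pos (n + 1) (by push_cast; linarith)
    have s2 : Ls (ln c) (ln c + ln c') := Ls.of_le (by linarith)
    have s3 : Ls (ln c') (ln c + ln c') := Ls.of_le (by linarith)
    obtain ⟨p1, p2⟩ := hNP Γ a c hc (hμ.of_ls s1) (Γ.e * Γ.e * 2)
      (by have := Nat.pos_of_ne_zero hE; omega)
    have e3 : x * γ' ^ 2 = c ^ (Γ.e * Γ.e * 2) * x := by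
      rw [pow_mul, ← he, conj_pow, inv_mul_cancel_right]
    have z : ∀ y : MM Γ a, Ll (ds y y) (ln c + ln c') := fun y =>
      Ll.of_nonpos (by simp) hμ.pos.le
    have t1 : Ll (ds 1 x) (ln c + ln c') := by rwa [ds_one_left]
    have t2 : Ll (ds (c ^ (Γ.e * Γ.e * 2)) (x * γ' ^ 2)) (ln c + ln c') := by
      rwa [e3, ds_mul_right]
    refine hH.g2 _ hμ (c ^ (Γ.e * Γ.e * 2)) (pow_mem hcH _) (γ' ^ 2) (pow_mem m' _)
      (Ls.trans' ⟨_, ln_pow_le _ _⟩ s2) (Ls.trans' ⟨_, ln_pow_le _ _⟩ (l'.trans' s3)) x 1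
      (c ^ (Γ.e * Γ.e * 2)) ⟨?_, on_left hμ.pos.le _ _, on_right hμ.pos.le _ _,
        (on_left hμ.pos.le _ _).congr (z _) t1 t2, (on_right hμ.pos.le _ _).congr (z _) t1 t2⟩
      fun e => p2 ((Sim.per_iff ⟨s2, s1⟩ n0 hμ.pos.le).2 e)
    rw [ds_one_left]
    exact s1.trans' p1
  · by_cases hμ : Big (md c)
    swap
    · exact hH.of_not_big (not_big_of_ls hx hμ)
    have e1 : Ls (md c') (md c) := by
      simpa only [md_conj'] using hd.md_ls hELEM hLINE hc.1 hep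
    obtain ⟨f1, f2⟩ := Ep_pow hELEM hc.1 hE
    exact hH.axis hELEM hLINE hPERC hμ (pow_mem hcH _) m' he
      (Ls.trans' ⟨_, ln_pow_le _ _⟩ h1) (l'.trans' (Ls.trans' h2 e1)) hx f1 hc f2.symm (Ls.refl' _)

end Pool.Agent.P.MP_dba3d2_lc
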