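import Pool.Agent.P.MP_dba3d2_lc.B.Iface2
import Pool.Agent.P.MP_dba3d2_lc.A.Iface
import Pool.Agent.P.MP_dba3d2_lc.A.Iface2
import Pool.Agent.P.MP_dba3d2_lc.B.Axis2

/-! Step B_SMALL of the stability project. -/

namespace Pool.Agent.P.MP_dba3d2_lc

open Filter

namespace B_small

variable {Γ : HG} {a : Amb} {μ : a.K}

theorem side (hμ : Big μ) {p q m r g : MM Γ a} (hm : On μ m p q) (hg : Ll (ds m (g * m)) μ)
    (hr : On μ r p q) (h : ds p (g * p) ≤ ds p r) :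
    ∃ x, Ll (ds x (g * x)) μ ∧ On μ x p r := by
  have h0 := hμ.pos.le
  obtain ⟨x, h1, h2, h3⟩ := exists_mid p (g * p)
  have h4 : Ll (ds p (g * p) - 2 * ds p x) μ :=
    Ll.mono_left (by push_cast; linarith) (hμ.ll_nat 2)
  obtain ⟨h5, h6⟩ := fix_mid hμ hg (On.of_eq h0 h1) (Ll.of_nonpos (by linarith) h0) h4
  have h7 := ds_nonneg p x
  exact ⟨x, h5, (On.order hμ (hm.sub h6).1 hr (Ll.of_nonpos (by linarith) h0)).1⟩

theorem scale {x y : a.K} {n k : ℕ} (hn : 0 < n) (hk : k ≤ n) (hy : 0 ≤ y) (h1 : n * x ≤ μ)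
    (h2 : μ ≤ k * y) : x ≤ y := by
  have h3 : (k : a.K) * y ≤ n * y := mul_le_mul_of_nonneg_right (by exact_mod_cast hk) hy
  exact le_of_mul_le_mul_left (h1.trans (h2.trans h3)) (by exact_mod_cast hn)

theorem less {x : a.K} {n k : ℕ} (hk : k ≤ n) (hx : 0 ≤ x) (h1 : n * x ≤ μ) : k * x ≤ μ :=
  (mul_le_mul_of_nonneg_right (by exact_mod_cast hk) hx).trans h1

end B_small

open B_small in
theorem p_B_SMALL (hTORS : S_TORS) (hELEM : S_ELEM) (hLINE : S_LINE) (hPERC : S_PERC) (hA_SMALL : S_A_SMALL) :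
    S_B_SMALL := by
  intro Γ a μ p q hμ hn hP
  have h0 := hμ.pos.le
  obtain ⟨r, s, hr, hs, hrs, -, ⟨n1, h1⟩, h2, ⟨n2, h3⟩, h4⟩ :=
    inner_nper hELEM hLINE hPERC hμ hn hP
  obtain ⟨n0, hn0, m, hm, hfix⟩ := hA_SMALL Γ a μ p q hμ hn hP
  have hm' : On μ m p q := On.of_eq h0 hm
  refine ⟨r, s, n0 + n1 + n2, hr, hs, h2, h4, by omega, ?_, fun g hp hq => ?_⟩
  · have hf : Finite (StabG μ r s) := (hTORS Γ a _ fun k hk => by
      by_contra h
      exact h4 ⟨k, h, (mem_stabG h0).1 hk⟩).1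
    exact (Set.toFinite (StabG μ r s : Set (MM Γ a))).subset fun g hg => (mem_stabG h0).2 hg
  · have hg := hfix g (less (by omega) (ds_nonneg _ _) hp) (less (by omega) (ds_nonneg _ _) hq)
    rw [ds_comm] at h3
    obtain ⟨x, hx, hx'⟩ := side hμ hm' hg hr (scale (by omega) (by omega) (ds_nonneg _ _) hp h1)
    obtain ⟨y, hy, hy'⟩ := side hμ hm'.symm hg hs.symm
      (scale (by omega) (by omega) (ds_nonneg _ _) hq h3)
    have h5 : On μ s p y := (hs.symm.sub hy').2.symm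
    obtain ⟨h6, h7⟩ := h5.sub hrs
    have h8 := (h6.sub hx').2
    exact ⟨fix_conv hμ hx hy h8, fix_conv hμ hx hy (h8.sub' h7).1⟩

end Pool.Agent.P.MP_dba3d2_lc
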