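import Pool.Agent.P.MP_dba3d2_lc.B.Iface2
import Pool.Agent.P.MP_dba3d2_lc.A.Bas2

/-! Step B_STX of the stability project. -/

namespace Pool.Agent.P.MP_dba3d2_lc

open Filter

namespace B_stx

/-- a finite internal set does not grow in an extension -/
theorem fin_ext {a b : Amb} (E : Ext a b) {X : Type} [Nonempty X] (P : a.I → X → Prop)
    {F : Set (Germ (a.V : Filter a.I) X)} (hF : F.Finite)
    (h : ∀ g : a.I → X, (∀ᶠ i in (a.V : Filter a.I), P i (g i)) → Germ.ofFun g ∈ F)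
    (u : b.I → X) (hu : ∀ᶠ j in (b.V : Filter b.I), P (E.π j) (u j)) :
    ∃ s ∈ F, Germ.ofFun u = E.mp s := by
  have h1 : ∀ᶠ i in (a.V : Filter a.I), ∀ x, P i x →
      ∃ s ∈ F, x = (Quotient.out s : a.I → X) i := by
    by_contra e
    rw [← Ultrafilter.eventually_not] at e
    simp only [not_forall, exists_prop] at e
    obtain ⟨g, hg⟩ := e.choice
    obtain ⟨i, h1, h2⟩ := (hg.and (Bas2A.out_coe g)).exists
    exact h1.2 ⟨_, h g (hg.mono fun i hi => hi.1), h2.symm⟩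
  obtain ⟨s, h2, h3⟩ := (Ultrafilter.eventually_exists_mem_iff
    (P := fun s j => u j = (Quotient.out s : a.I → X) (E.π j)) hF).1
    (((E.hπ.eventually h1).and hu).mono fun j hj => hj.1 _ hj.2)
  refine ⟨s, h2, (Germ.coe_eq.2 h3).trans ?_⟩
  conv_rhs => rw [← Quotient.out_eq s]
  rfl

end B_stx

theorem p_B_STX (hB_SMALL : S_B_SMALL) :
    S_B_STX := by
  intro Γ a μ p q h1 h2 h3
  obtain ⟨r, s, n, k1, k2, k3, k4, -, k6, k7⟩ := hB_SMALL Γ a μ p q h1 h2 h3
  refine ⟨r, s, k1, k2, k3, k4, fun b E u hu => ?_⟩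
  induction μ using Germ.inductionOn with | h μ =>
  induction p using Germ.inductionOn with | h p =>
  induction q using Germ.inductionOn with | h q =>
  induction u using Germ.inductionOn with | h u =>
  obtain ⟨u0, e1, e2⟩ := B_stx.fin_ext E (fun i g => (n : ℝ) * Γ.len ((p i)⁻¹ * (g * p i)) ≤ μ i ∧
      (n : ℝ) * Γ.len ((q i)⁻¹ * (g * q i)) ≤ μ i) k6
    (fun g hg => k7 _ (hg.mono fun i hi => hi.1) (hg.mono fun i hi => hi.2)) u
    (Eventually.and (hu.1 n) (hu.2 n))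
  exact ⟨u0, e2, e1⟩

end Pool.Agent.P.MP_dba3d2_lc
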