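import Pool.Agent.P.MP_dba3d2_lc.A.Defs2

/-! Interface, chapter B, second layer. -/

namespace Pool.Agent.P.MP_dba3d2_lc

open Filter

-- deps: TORS ELEM LINE PERC A_SMALL
-- imports: Pool.Agent.P.MP_dba3d2_lc.B.Axis2
def S_B_SMALL : Prop := ∀ (Γ : HG) (a : Amb) (μ : a.K) (p q : MM Γ a), Big μ → Ls μ (ds p q) →
  ¬ Per μ p q → ∃ (r s : MM Γ a) (n : ℕ), On μ r p q ∧ On μ s p q ∧ Ls μ (ds r s) ∧ ¬ Per μ r s ∧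
    0 < n ∧ {g | Stab μ r s g}.Finite ∧
    ∀ g, n * ds p (g * p) ≤ μ → n * ds q (g * q) ≤ μ → Stab μ r s g

-- deps:
-- imports: Pool.Agent.P.MP_dba3d2_lc.B.Tre
def S_B_APX : Prop := ∀ (Γ : HG) (a b : Amb) (E : Ext a b) (μ : a.K) (x y : MM Γ a) (p : MM Γ b),
  Big μ → Ls (ds x y) μ → On (E.mp μ) p (E.hom Γ x) (E.hom Γ y) →
  ∃ p0, On μ p0 x y ∧ Ll (ds p (E.hom Γ p0)) (E.mp μ)

-- deps: B_SMALL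
-- imports: Pool.Agent.P.MP_dba3d2_lc.B.Fix
def S_B_STX : Prop := ∀ (Γ : HG) (a : Amb) (μ : a.K) (p q : MM Γ a), Big μ → Ls μ (ds p q) →
  ¬ Per μ p q → ∃ r s : MM Γ a, On μ r p q ∧ On μ s p q ∧ Ls μ (ds r s) ∧ ¬ Per μ r s ∧
    ∀ (b : Amb) (E : Ext a b) (u : MM Γ b), Stab (E.mp μ) (E.hom Γ p) (E.hom Γ q) u →
      ∃ u0, u = E.hom Γ u0 ∧ Stab μ r s u0

-- deps:
def S_B_CLO : Prop := ∀ (G : Type) [Group G] (H : Subgroup G) (X : Set G) (W : List G → Set G),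
  X.Countable → X ⊆ H → (∀ l, (W l).Countable) → (∀ l, (∀ x ∈ l, x ∈ H) → W l ⊆ H) →
  ∃ H0 ≤ H, X ⊆ H0 ∧ (H0 : Set G).Countable ∧ ∀ l, (∀ x ∈ l, x ∈ H0) → W l ⊆ H0

-- deps:
-- imports: Pool.Agent.P.MP_dba3d2_lc.B.Tre
def S_B_NET : Prop := ∀ (Γ : HG) (a : Amb) (x y : MM Γ a), ∃ R : Set (MM Γ a), R.Countable ∧
  ∀ μ : a.K, Big μ → Ls (ds x y) μ →
    (∀ p, On μ p x y → ∀ n : ℕ, ∃ r ∈ R, On μ r x y ∧ n * ds p r ≤ μ) ∧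
    ∀ p q, On μ p x y → On μ q x y → Ls μ (ds p q) →
      ∃ r ∈ R, On μ r p q ∧ Ls μ (ds p r) ∧ Ls μ (ds r q)

-- deps: ELEM LINE PERC B_SMALL B_NET
-- imports: Pool.Agent.P.MP_dba3d2_lc.B.Axis2
def S_B_CN2 : Prop := ∀ (Γ : HG) (a : Amb) (h h' : MM Γ a),
  {g | ∃ (μ : a.K) (p q : MM Γ a), Big μ ∧ Ls (ln h) μ ∧ Ls (ln h') μ ∧
    Ov μ p q 1 h g (g * h') ∧ ¬ Per μ p q}.Countable

-- deps: TORS ELEM PERC B_NET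
-- imports: Pool.Agent.P.MP_dba3d2_lc.B.Axis2
def S_B_CN0 : Prop := ∀ (Γ : HG) (a : Amb) (h : MM Γ a),
  {c | Prim c ∧ ∃ (μ : a.K) (p q : MM Γ a), Big μ ∧ Ls (ln h) μ ∧ Ls μ (ds p q) ∧
    On μ p 1 h ∧ On μ q 1 h ∧ Stab μ p q c}.Countable

-- deps: LINE
-- imports: Pool.Agent.P.MP_dba3d2_lc.B.Axis
def S_B_CVK : Prop := ∀ (Γ : HG) (a : Amb) (H : Subgroup (MM Γ a)) (μ : a.K) (c u v : MM Γ a),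
  Cvx H → Big μ → c ∈ H → ¬ IsOfFinOrder c → u ∈ H → v ∈ H → Stab μ u v c → Ls μ (ds u v) →
  ∀ k : a.Z, Ls (ds u (ipow c k * u)) μ → ipow c k ∈ H

-- deps: ELEM LINE B_CVK
-- imports: Pool.Agent.P.MP_dba3d2_lc.B.Axis
def S_B_CVE : Prop := ∀ (Γ : HG) (a : Amb) (H : Subgroup (MM Γ a)), Cvx H →
  (∀ μ, Big μ → ∀ h ∈ H, Ls (ln h) μ → ∀ c ∈ H, Prim c → Ls (ln c) μ → Ll (md c) μ →
    ∃ f ∈ H, f ∈ Ep c ∧ Ll (2 * ds f h - (ln c + ln (h⁻¹ * c * h))) μ) ∧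
  ∀ c ∈ H, Prim c → ∀ f ∈ H, f ∈ Ep c → ∀ n : ℕ, 0 < n →
    ∃ f' ∈ H, f' ∈ Ep c ∧ ∃ r : ℕ, IsOfFinOrder (f⁻¹ * (f' ^ n * c ^ r))

-- deps: ELEM LINE PERC
-- imports: Pool.Agent.P.MP_dba3d2_lc.B.Axis2
def S_B_RT1 : Prop := ∀ (Γ : HG) (a : Amb) (H : Subgroup (MM Γ a)), GC0 H →
  ∀ γ ∈ H, ¬ IsOfFinOrder γ → ∃ c ∈ H, Prim c ∧ Ep c = Ep γ

-- deps: ELEM LINE PERC NP
-- imports: Pool.Agent.P.MP_dba3d2_lc.B.Axis2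
def S_B_RT2 : Prop := ∀ (Γ : HG) (a : Amb) (H : Subgroup (MM Γ a)), GC0 H →
  ∀ c ∈ H, ∀ c' ∈ H, Prim c → Prim c' → ∀ x, Cj x c' c →
    (Ll (ln x) (ln c + ln c') → x ∈ H) ∧ (Cen c → Cen c' → Ls (ln x) (md c) → x ∈ H)

-- deps: ELEM LINE NP
-- imports: Pool.Agent.P.MP_dba3d2_lc.B.Axis2
def S_B_RG0 : Prop := ∀ (Γ : HG) (a : Amb) (H : Subgroup (MM Γ a)) (μ : a.K), GC0 H → Big μ →
  ∀ c ∈ H, ∀ d ∈ H, ∀ c' ∈ H, ∀ d' ∈ H, Prim c → Prim d → Prim c' → Prim d' →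
    Ls (ln c) μ → Ls (ln d) μ → Ls (ln c') μ → Ls (ln d') μ → Ll (md c) μ → Ll (md d) μ →
    (∀ q, Ls μ (ds q (c * q) + ds q (d * q))) →
    ∀ x, Ls (ln x) μ → Cj x c' c → Cj x d' d → x ∈ H

-- deps: ELEM LINE ROOT
-- imports: Pool.Agent.P.MP_dba3d2_lc.B.Axis2
def S_B_NM1 : Prop := ∀ (Γ : HG) (a : Amb) (H : Subgroup (MM Γ a)), GC0 H →
  ∀ c ∈ H, Prim c → Cen c → ∀ h ∈ H, ∃ f ∈ H, f ∈ Ep c ∧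
    Ls (ln (h * f)) (ln (h * c * h⁻¹)) ∧ NE c (h * f)

end Pool.Agent.P.MP_dba3d2_lc
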