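import Pool.Agent.P.MP_dba3d2_lc.B.Iface
import Pool.Agent.P.MP_dba3d2_lc.B.Iface2
import Pool.Agent.P.MP_dba3d2_lc.B.Axis2

/-! Step COUNT of the stability project. -/

namespace Pool.Agent.P.MP_dba3d2_lc

open Filter

namespace CountA

variable {Γ : HG} {a : Amb}

theorem std_countable (Γ : HG) (a : Amb) : (std Γ a : Set (MM Γ a)).Countable := by
  have h : (Set.univ : Set Γ.G).Countable :=
    (Set.countable_iUnion fun n : ℕ => (Γ.fin n).countable).mono fun g _ =>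
      Set.mem_iUnion.2 ⟨Γ.len g, le_refl (Γ.len g)⟩
  have : Countable Γ.G := Set.countable_univ_iff.1 h
  exact Set.countable_range (cst Γ a)

/-- a chosen witness in `H` -/
noncomputable def eps (H : Subgroup (MM Γ a)) (P : MM Γ a → Prop) : MM Γ a :=
  Classical.epsilon fun x => x ∈ H ∧ P x

theorem eps_spec {H : Subgroup (MM Γ a)} {P : MM Γ a → Prop} (h : ∃ x ∈ H, P x) :
    eps H P ∈ H ∧ P (eps H P) :=
  Classical.epsilon_spec h

/-- the overlap set -/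
def s2 (h h' : MM Γ a) : Set (MM Γ a) :=
  {g | ∃ (μ : a.K) (p q : MM Γ a), Big μ ∧ Ls (ln h) μ ∧ Ls (ln h') μ ∧
    Ov μ p q 1 h g (g * h') ∧ ¬ Per μ p q}

/-- the period set -/
def s0 (h : MM Γ a) : Set (MM Γ a) :=
  {c | Prim c ∧ ∃ (μ : a.K) (p q : MM Γ a), Big μ ∧ Ls (ln h) μ ∧ Ls μ (ds p q) ∧
    On μ p 1 h ∧ On μ q 1 h ∧ Stab μ p q c}

/-- exponent witnesses -/
def pex (h c f : MM Γ a) : Prop :=
  f ∈ Ep c ∧ Ll (2 * ds f h - (ln c + ln (h⁻¹ * c * h))) (ln h + ln c)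

/-- purity witnesses -/
def ppur (c f : MM Γ a) (n : ℕ) (f' : MM Γ a) : Prop :=
  f' ∈ Ep c ∧ ∃ r : ℕ, IsOfFinOrder (f⁻¹ * (f' ^ n * c ^ r))

/-- centring witnesses -/
def pcen (c c' p : MM Γ a) : Prop :=
  Ls (ln p) (ln c + ln c') ∧ ∀ q,
    Ls (ln (p⁻¹ * c * p) + ln (p⁻¹ * c' * p)) (ln (q⁻¹ * c * q) + ln (q⁻¹ * c' * q))

/-- conjugation witnesses -/
def pfin (l : List (MM Γ a)) (p : MM Γ a) : Prop := ∀ k ∈ l, p⁻¹ * k * p ∈ std Γ a

/-- the witnesses attached to a pair -/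
def w2 (H : Subgroup (MM Γ a)) (x y : MM Γ a) : Set (MM Γ a) :=
  s2 x y ∪ (s0 x ∪ ({eps H (pex x y), eps H (pcen x y)} ∪ Set.range fun n => eps H (ppur x y n)))

/-- the witnesses attached to a list -/
def wl (H : Subgroup (MM Γ a)) (l : List (MM Γ a)) : Set (MM Γ a) :=
  (H : Set (MM Γ a)) ∩ (w2 H (l.getD 0 1) (l.getD 1 1) ∪ {eps H (pfin l)})

end CountA

open CountA in
theorem p_COUNT (hB_CLO : S_B_CLO) (hB_CN2 : S_B_CN2) (hB_CN0 : S_B_CN0) :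
    S_COUNT := by
  intro Γ a H X hH hX hXH
  obtain ⟨H0, h0, h1, h2, h3⟩ := hB_CLO (MM Γ a) H (X ∪ std Γ a) (wl H)
    (hX.union (std_countable Γ a)) (Set.union_subset hXH hH.base)
    (fun l => Set.Countable.mono Set.inter_subset_right
      (((hB_CN2 Γ a _ _).union ((hB_CN0 Γ a _).union (((Set.countable_singleton _).insert _).union
        (Set.countable_range _)))).union (Set.countable_singleton _)))
    fun l _ => Set.inter_subset_left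
  have k : ∀ {x y z}, x ∈ H0 → y ∈ H0 → z ∈ H → z ∈ w2 H x y → z ∈ H0 := fun {x y z} hx hy hz e =>
    h3 [x, y] (by simp [hx, hy]) ⟨hz, Or.inl e⟩
  refine ⟨H0, h0, Set.subset_union_left.trans h1, h2,
    ⟨⟨Set.subset_union_right.trans h1, ?_, ?_, ?_, ?_, ?_⟩, ?_⟩⟩
  · intro μ hμ x hx y hy a1 a2 g p q a3 a4
    exact k hx hy (hH.g2 μ hμ x (h0 hx) y (h0 hy) a1 a2 g p q a3 a4)
      (Or.inl ⟨μ, p, q, hμ, a1, a2, a3, a4⟩)
  · intro μ hμ x hx a1 p q a2 a3 a4 a5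
    obtain ⟨c, hc, b1, b2⟩ := hH.g20 μ hμ x (h0 hx) a1 p q a2 a3 a4 a5
    exact ⟨c, k hx hx hc (Or.inr (Or.inl ⟨b1, μ, p, q, hμ, a1, a2, a3, a4, b2⟩)), b1, b2⟩
  · intro μ hμ x hx a1 c hc a2 a3 a4
    have n0 : 0 ≤ ln x + ln c := add_nonneg (ln_nonneg _) (ln_nonneg _)
    rcases ll_or_ls hμ.pos (ln x + ln c) with e | e
    · refine ⟨1, one_mem _, one_mem _, Ll.mono_left ?_ e.two⟩
      rw [ds_one_left]
      linarith [ln_nonneg c, ln_nonneg (x⁻¹ * c * x)]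
    · obtain ⟨f, hf, b1, b2⟩ := hH.ex μ hμ x (h0 hx) a1 c (h0 hc) a2 a3 a4
      obtain ⟨d1, d2, d3⟩ := eps_spec (P := pex x c) ⟨f, hf, b1, b2.ls_right e n0⟩
      exact ⟨_, k hx hc d1 (Or.inr (Or.inr (Or.inl (Or.inl rfl)))), d2,
        d3.ls_right (a1.add a3) hμ.pos.le⟩
  · intro c hc a1 f hf a2 n hn
    obtain ⟨d1, d2⟩ := eps_spec (P := ppur c f n) (hH.pur c (h0 hc) a1 f (h0 hf) a2 n hn)
    exact ⟨_, k hc hf d1 (Or.inr (Or.inr (Or.inr ⟨n, rfl⟩))), d2⟩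
  · intro c hc c' hc' a1 a2
    obtain ⟨d1, d2⟩ := eps_spec (P := pcen c c') (hH.cen c (h0 hc) c' (h0 hc') a1 a2)
    exact ⟨_, k hc hc' d1 (Or.inr (Or.inr (Or.inl (Or.inr rfl)))), d2⟩
  · intro K hK hf
    have fin : (K : Set (MM Γ a)).Finite := Set.toFinite _
    have m : ∀ x, x ∈ fin.toFinset.toList ↔ x ∈ K := fun x => by simp
    obtain ⟨p, hp, b⟩ := hH.finc K (hK.trans h0) hf
    obtain ⟨d1, d2⟩ := eps_spec (P := pfin fin.toFinset.toList) ⟨p, hp, fun x hx => b x ((m x).1 hx)⟩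
    exact ⟨_, h3 _ (fun x hx => hK ((m x).1 hx)) ⟨d1, Or.inr rfl⟩, fun x hx => d2 x ((m x).2 hx)⟩

end Pool.Agent.P.MP_dba3d2_lc
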