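import Pool.Agent.P.MP_dba3d2_lc.B.Iface
import Pool.Agent.P.MP_dba3d2_lc.A.Iface
import Pool.Agent.P.MP_dba3d2_lc.B.Iface2
import Pool.Agent.P.MP_dba3d2_lc.B.Axis2

/-! Step CVX of the stability project. -/

namespace Pool.Agent.P.MP_dba3d2_lc

open Filter

namespace CvxA

variable {Γ : HG} {a : Amb} {H : Subgroup (MM Γ a)} {c m p q : MM Γ a} {ν M : a.K}

theorem med (hc : Ls (ds m (c * m)) (md c)) (h1 : c ≠ 1) (hq : ds q (c * q) ≤ M)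
    (hp : ∀ μ : a.K, Big μ → On μ p m q) : Ls (ds p (c * p)) M := by
  have hM := (md_le_ds c q).trans hq
  refine ls_of_scale ((one_le_md h1).trans hM) fun hν h => ll_irrefl hν.pos ?_
  exact fix_conv hν (Ll.ls_left (hc.mono_right hM) h) (Ll.mono_left hq h) (hp _ hν)

theorem mid (hν : Big ν) (hz : ¬ Big (ds p (c * p)))
    (hm : ds 1 m + ds m (c * 1) = ds 1 (c * 1) ∧ 2 * ds 1 m ≤ ds 1 (c * 1) ∧
      ds 1 (c * 1) ≤ 2 * ds 1 m + 2) : Ll (ds m (c * m)) ν ∧ On ν m 1 p :=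
  fix_mid hν (hν.ll_of_not_big hz) (On.of_eq hν.pos.le hm.1)
    (Ll.of_nonpos (sub_nonpos.2 hm.2.1) hν.pos.le)
    (Ll.mono_left (by linarith [hm.2.2]) hν.ll_one.two)

theorem cen (hH : Cvx H) {c' : MM Γ a} (hc : c ∈ H) (hc' : c' ∈ H) (h1 : c ≠ 1) (h1' : c' ≠ 1) :
    ∃ p ∈ H, Ls (ln p) (ln c + ln c') ∧ ∀ q,
      Ls (ln (p⁻¹ * c * p) + ln (p⁻¹ * c' * p)) (ln (q⁻¹ * c * q) + ln (q⁻¹ * c' * q)) := by
  obtain ⟨m, a1, a2, a3⟩ := exists_mid 1 (c * 1)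
  obtain ⟨m', b1, b2, b3⟩ := exists_mid 1 (c' * 1)
  obtain ⟨q, hq, -⟩ := exists_min_disp c c'
  obtain ⟨p, e, hp⟩ := exists_median m m' q
  refine ⟨p, hH.mem (hH.mem H.one_mem (H.mul_mem hc H.one_mem) a1)
    (hH.mem H.one_mem (H.mul_mem hc' H.one_mem) b1) e, Ls.of_le ?_, fun q' => ?_⟩
  · rw [ds_one_mul, ds_one_left] at a2 b2
    have := ds_tri 1 m p
    rw [ds_one_left, ds_one_left] at this
    linarith [ds_le_ln m m', ds_nonneg p m', ln_nonneg m']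
  · simp only [← ds_conj]
    refine Ls.mono_right (Ls.add
      (med (mid_cen h1 a1 a2 a3) h1 (le_add_of_nonneg_right (ds_nonneg _ _)) fun μ h => (hp μ h).1)
      (med (mid_cen h1' b1 b2 b3) h1' (le_add_of_nonneg_left (ds_nonneg _ _))
        fun μ h => (hp μ h).2)) (hq q')

theorem finc (hFINM : S_FINM) (hH : Cvx H) : FinC H := by
  intro K hK hfin
  obtain ⟨p, hp, -⟩ := hFINM Γ a K hfin
  have hp' : ∀ k ∈ K, ¬ Big (ds p (k * p)) := fun k hk => ds_conj k p ▸ mem_std_iff.1 (hp k hk)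
  obtain ⟨k0, hk0⟩ := Finite.exists_max fun k : K => ln (k : MM Γ a)
  obtain ⟨m, hm⟩ := exists_mid 1 ((k0 : MM Γ a) * 1)
  refine ⟨m, hH.mem H.one_mem (H.mul_mem (hK k0.2) H.one_mem) hm.1, fun k hk => ?_⟩
  rw [mem_std_iff, ← ds_conj]
  intro hν
  obtain ⟨m', hm'⟩ := exists_mid 1 (k * 1)
  have h1 := mid hν (hp' _ k0.2) hm
  have h2 := mid hν (hp' k hk) hm'
  have h3 : ds 1 m' - ds 1 m ≤ 1 := by
    have := hk0 ⟨k, hk⟩
    rw [ds_one_mul] at hm hm'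
    linarith [hm.2.2, hm'.2.1]
  exact ll_irrefl hν.pos (fix_conv hν h2.1 (hν.ll_of_not_big (hp' k hk))
    (On.order hν h2.2 h1.2 (Ll.mono_left h3 hν.ll_one)).2)

end CvxA

theorem p_CVX (hFINM : S_FINM) (hPERC : S_PERC) (hB_CVE : S_B_CVE) :
    S_CVX := by
  intro Γ a H hH
  obtain ⟨h1, h2⟩ := hB_CVE Γ a H hH
  refine ⟨⟨hH.1, fun μ hμ h hh h' hh' _ _ g p q ho _ => ?_, fun μ hμ h hh _ p q hn hp hq hP => ?_,
    h1, h2, fun c hc c' hc' e e' => CvxA.cen hH hc hc' (fun u => e (u ▸ IsOfFinOrder.one))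
      fun u => e' (u ▸ IsOfFinOrder.one)⟩, CvxA.finc hFINM hH⟩
  · exact hH.ov hμ H.one_mem hh H.one_mem hh' (by rwa [mul_one])
  · obtain ⟨c, c1, c2, -⟩ := hPERC Γ a μ p q hμ hn hP
    exact ⟨c, hH.ov hμ H.one_mem hh H.one_mem hh (c2.ov hp hq hn), c1, c2⟩

end Pool.Agent.P.MP_dba3d2_lc
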