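import Pool.Agent.P.MP_dba3d2_lc.B.Tre
import Pool.Agent.P.MP_dba3d2_lc.A.Bas1

/-! Shared toolbox, part three: fixed points, stabilisers of segments, closure conditions. -/

namespace Pool.Agent.P.MP_dba3d2_lc

open Filter

variable {Γ : HG} {a : Amb} {μ : a.K} {c c' g h m p q r s u v w x y z p' q' x' y' : MM Γ a}

theorem FixA.ll_self (h0 : 0 ≤ μ) (x : MM Γ a) : Ll (ds x x) μ := by
  rw [ds_self]; exact Ll.zero h0
theorem FixA.ll_comm (h : Ll (ds x y) μ) : Ll (ds y x) μ := by rwa [ds_comm]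
theorem FixA.ll_two (hμ : Big μ) : Ll 2 μ := by exact_mod_cast hμ.ll_nat 2

open FixA

/-! fixed points -/
theorem fix_congr (h : Ll (ds p (g * p)) μ) (hp : Ll (ds p p') μ) : Ll (ds p' (g * p')) μ :=
  Ll.mono_left (disp_le g p' p) ((ll_comm hp).two.add h)
theorem fix_inv (h : Ll (ds p (g * p)) μ) : Ll (ds p (g⁻¹ * p)) μ := by rwa [disp_inv]
theorem fix_mul (h1 : Ll (ds p (g * p)) μ) (h2 : Ll (ds p (h * p)) μ) :
    Ll (ds p (g * h * p)) μ := Ll.mono_left (disp_mul g h p) (h1.add h2)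
theorem fix_pow (h : Ll (ds p (g * p)) μ) (n : ℕ) : Ll (ds p (g ^ n * p)) μ :=
  Ll.mono_left (disp_pow g p n) (h.nat_mul n)
theorem fix_conv (hμ : Big μ) (hp : Ll (ds p (g * p)) μ) (hq : Ll (ds q (g * q)) μ)
    (hr : On μ r p q) : Ll (ds r (g * r)) μ :=
  hr.close hμ ((hr.mul g).congr (ll_self hp.nonneg _) (ll_comm hp) (ll_comm hq))
    (Ll.mono_left (by linarith [ds_mul_left g p r, ds_tri (g * p) p (g * r), ds_comm p (g * p)]) hp)
    (Ll.mono_left (by linarith [ds_mul_left g p r, ds_tri p (g * p) (g * r)]) hp)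
/-- the midpoint of `[x, c x]` is the projection of `x` to the fixed set of `c` -/
theorem fix_mid (hμ : Big μ) (hz : Ll (ds z (c * z)) μ) (hm : On μ m x (c * x))
    (h1 : Ll (2 * ds x m - ds x (c * x)) μ) (h2 : Ll (ds x (c * x) - 2 * ds x m) μ) :
    Ll (ds m (c * m)) μ ∧ On μ m x z := by
  have e1 := ds_mul_left c x z
  have e2 := ds_tri (c * x) (c * z) z
  have e3 := ds_tri (c * x) z (c * z)
  have e4 := ds_comm z (c * z)
  have e5 := ds_comm m (c * x)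
  have e6 := ds_tri x m (c * x)
  have key : On μ m x z ∧ On μ m (c * x) z := by
    rcases hm.cases hμ z with h | h
    · exact ⟨h, Ll.mono_left (by linarith) (((Ll.add h hm).add h2).add hz)⟩
    · exact ⟨Ll.mono_left (by linarith) ((Ll.add h h1).add hz), h⟩
  refine ⟨key.2.close hμ ((key.1.mul c).congr (ll_self hz.nonneg _) (ll_self hz.nonneg _)
    (ll_comm hz)) ?_ ?_, key.1⟩
  · exact Ll.mono_left (by linarith [ds_mul_left c x m]) (Ll.add hm h2)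
  · exact Ll.mono_left (by linarith [ds_mul_left c x m]) h1
theorem exists_proj (hμ : Big μ) (hc : Ll (md c) μ) (x : MM Γ a) : ∃ m,
    ds x m + ds m (c * x) = ds x (c * x) ∧ 2 * ds x m ≤ ds x (c * x) ∧
    ds x (c * x) ≤ 2 * ds x m + 2 ∧ Ll (ds m (c * m)) μ ∧
    ∀ z, Ll (ds z (c * z)) μ → On μ m x z := by
  obtain ⟨m, a1, a2, a3⟩ := exists_mid x (c * x)
  obtain ⟨q, hq⟩ := exists_md_ds c
  have k := fun z (hz : Ll (ds z (c * z)) μ) => fix_mid hμ hz (On.of_eq hc.nonneg a1)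
    (Ll.of_nonpos (by linarith) hc.nonneg) (Ll.mono_left (by linarith) (ll_two hμ))
  exact ⟨m, a1, a2, a3, (k q (hq ▸ hc)).1, fun z hz => (k z hz).2⟩
theorem proj_on (hμ : Big μ) (hm : Ll (ds m (c * m)) μ) (h : Ll (2 * ds x m - ds x (c * x)) μ)
    (hz : Ll (ds z (c * z)) μ) : On μ m x z := by
  obtain ⟨m0, -, -, a3, -, k⟩ := exists_proj hμ (Ll.mono_left (md_le_ds c m) hm) x
  have t : Ll (ds m0 m) μ :=
    Ll.half (Ll.mono_left (by linarith) (((Ll.two (k m hm)).add h).add (ll_two hμ)))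
  exact (k z hz).congr t (ll_self h.nonneg _) (ll_self h.nonneg _)
/-- the displacement only depends on the fixed set -/
theorem disp_ll (hμ : Big μ) (hc : Ll (md c') μ)
    (h : ∀ w, Ll (ds w (c' * w)) μ → Ll (ds w (c * w)) μ) (x : MM Γ a) :
    Ll (ds x (c * x) - ds x (c' * x)) μ := by
  obtain ⟨m, -, a2, -, a4, -⟩ := exists_proj hμ hc x
  exact Ll.mono_left (by linarith [disp_le c x m]) (h m a4)
/-- the midpoint of `[x, c x]` is a centre of `c` -/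
theorem mid_cen (hc : c ≠ 1) (hm : ds x m + ds m (c * x) = ds x (c * x))
    (h1 : 2 * ds x m ≤ ds x (c * x)) (h2 : ds x (c * x) ≤ 2 * ds x m + 2) :
    Ls (ds m (c * m)) (md c) := by
  refine ls_of_scale (one_le_md hc) fun hB hl => ll_irrefl hB.pos ?_
  obtain ⟨q, hq⟩ := exists_md_ds c
  exact (fix_mid hB (z := q) (hq ▸ hl) (On.of_eq hl.nonneg hm)
    (Ll.of_nonpos (by linarith) hl.nonneg) (Ll.mono_left (by linarith) (ll_two hB))).1
theorem on_of_not_fol (hμ : Big μ) (h1 : Ll (ln c) μ) (h : ¬ Fol μ y c)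
    (hz : Ll (ds z (c * z)) μ) : On μ 1 y z := by
  obtain ⟨m, -, -, -, a4, k⟩ := exists_proj hμ (Ll.mono_left (md_le_ln c) h1) y
  have h1' : Ll (ds 1 (c * 1)) μ := by rwa [ds_one_mul]
  rcases ll_or_ls hμ.pos (ln m) with t | t
  · exact (k z hz).congr (by rwa [ds_one_right]) (ll_self h1.nonneg _) (ll_self h1.nonneg _)
  · exact absurd ⟨m, t, (k 1 h1').symm, h1', a4⟩ h
theorem Fol.mono (h : Fol μ y c) (hy : On μ y 1 y') : Fol μ y' c :=
  let ⟨q, a1, a2, a3⟩ := h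
  ⟨q, a1, (hy.sub a2).1, a3⟩

theorem Stab.symm (h : Stab μ p q g) : Stab μ q p g := ⟨h.2, h.1⟩
theorem Stab.one (h0 : 0 ≤ μ) (p q : MM Γ a) : Stab μ p q 1 := by
  constructor <;> rw [one_mul] <;> exact ll_self h0 _
theorem Stab.inv (h : Stab μ p q g) : Stab μ p q g⁻¹ := ⟨fix_inv h.1, fix_inv h.2⟩
theorem Stab.mul (h1 : Stab μ p q g) (h2 : Stab μ p q h) : Stab μ p q (g * h) :=
  ⟨fix_mul h1.1 h2.1, fix_mul h1.2 h2.2⟩
theorem Stab.pow (h : Stab μ p q g) (n : ℕ) : Stab μ p q (g ^ n) := ⟨fix_pow h.1 n, fix_pow h.2 n⟩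
theorem Stab.congr (h : Stab μ p q g) (hp : Ll (ds p p') μ) (hq : Ll (ds q q') μ) :
    Stab μ p' q' g := ⟨fix_congr h.1 hp, fix_congr h.2 hq⟩
theorem stab_conj (h : MM Γ a) : Stab μ (h * p) (h * q) (h * g * h⁻¹) ↔ Stab μ p q g := by
  unfold Stab
  rw [disp_conj, disp_conj]
theorem stab_conj' (h : MM Γ a) : Stab μ p q (h⁻¹ * g * h) ↔ Stab μ (h * p) (h * q) g := by
  unfold Stab
  rw [disp_conj', disp_conj']
theorem Stab.sub (hμ : Big μ) (h : Stab μ p q g) (hr : On μ r p q) (hs : On μ s p q) :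
    Stab μ r s g := ⟨fix_conv hμ h.1 h.2 hr, fix_conv hμ h.1 h.2 hs⟩
theorem Stab.md (h : Stab μ p q g) : Ll (md g) μ := Ll.mono_left (md_le_ds g p) h.1
/-- a stabiliser of a nondegenerate subsegment realises an overlap -/
theorem Stab.ov (h : Stab μ p q g) (hp : On μ p x y) (hq : On μ q x y) (hn : Ls μ (ds p q)) :
    Ov μ p q x y (g * x) (g * y) :=
  ⟨hn, hp, hq, (hp.mul g).congr (ll_comm h.1) (ll_self h.1.nonneg _) (ll_self h.1.nonneg _),
    (hq.mul g).congr (ll_comm h.2) (ll_self h.1.nonneg _) (ll_self h.1.nonneg _)⟩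
theorem Per.symm (h : Per μ p q) : Per μ q p :=
  let ⟨g, a1, a2⟩ := h
  ⟨g, a1, a2.symm⟩
theorem Per.congr (h : Per μ p q) (hp : Ll (ds p p') μ) (hq : Ll (ds q q') μ) : Per μ p' q' :=
  let ⟨g, a1, a2⟩ := h
  ⟨g, a1, a2.congr hp hq⟩
theorem per_mul_iff (h : MM Γ a) : Per μ (h * p) (h * q) ↔ Per μ p q :=
  ⟨fun ⟨g, a1, a2⟩ => ⟨h⁻¹ * g * h, by rwa [finOrder_conj'], (stab_conj' h).2 a2⟩,
    fun ⟨g, a1, a2⟩ => ⟨h * g * h⁻¹, by rwa [finOrder_conj], (stab_conj h).2 a2⟩⟩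
theorem Per.sub (hμ : Big μ) (h : Per μ p q) (hr : On μ r p q) (hs : On μ s p q) : Per μ r s :=
  let ⟨g, a1, a2⟩ := h
  ⟨g, a1, a2.sub hμ hr hs⟩

/-! the closure conditions for arbitrary segments of `H` -/
theorem GC0.g2' {H : Subgroup (MM Γ a)} (hH : GC0 H) (hμ : Big μ) (hx : x ∈ H) (hy : y ∈ H)
    (hx' : x' ∈ H) (hy' : y' ∈ H) (h1 : Ls (ds x y) μ) (h2 : Ls (ds x' y') μ)
    (h : Ov μ p q x y (g * x') (g * y')) (hn : ¬ Per μ p q) : g ∈ H := by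
  have t := h.mul x⁻¹
  rw [inv_mul_cancel, ← mul_assoc,
    show x⁻¹ * (g * y') = x⁻¹ * g * x' * (x'⁻¹ * y') by group] at t
  have k := hH.g2 μ hμ _ (H.mul_mem (H.inv_mem hx) hy) _ (H.mul_mem (H.inv_mem hx') hy') h1 h2
    _ _ _ t (by rwa [per_mul_iff])
  have := H.mul_mem (H.mul_mem hx k) (H.inv_mem hx')
  rwa [show x * (x⁻¹ * g * x') * x'⁻¹ = g by group] at this
theorem GC0.g20' {H : Subgroup (MM Γ a)} (hH : GC0 H) (hμ : Big μ) (hx : x ∈ H) (hy : y ∈ H)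
    (h1 : Ls (ds x y) μ) (hn : Ls μ (ds p q)) (hp : On μ p x y) (hq : On μ q x y)
    (h : Per μ p q) : ∃ c ∈ H, Prim c ∧ Stab μ p q c := by
  have tp := hp.mul x⁻¹
  have tq := hq.mul x⁻¹
  rw [inv_mul_cancel] at tp tq
  obtain ⟨c, a1, a2, a3⟩ := hH.g20 μ hμ _ (H.mul_mem (H.inv_mem hx) hy) h1 _ _
    (by rwa [ds_mul_left]) tp tq ((per_mul_iff _).2 h)
  refine ⟨x * c * x⁻¹, H.mul_mem (H.mul_mem hx a1) (H.inv_mem hx), a2.conj x, ?_⟩
  have := (stab_conj x).2 a3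
  rwa [mul_inv_cancel_left, mul_inv_cancel_left] at this
theorem GC0.of_not_big {H : Subgroup (MM Γ a)} (hH : GC0 H) (h : ¬ Big (ln g)) : g ∈ H :=
  hH.base (mem_std_iff.2 h)
/-- centring one element -/
theorem GC0.cen1 {H : Subgroup (MM Γ a)} (hH : GC0 H) (hc : c ∈ H) (h : ¬ IsOfFinOrder c) :
    ∃ p ∈ H, Ls (ln p) (ln c) ∧ Cen (p⁻¹ * c * p) := by
  obtain ⟨p, a1, a2, a3⟩ := hH.cen c hc c hc h h
  obtain ⟨q, hq⟩ := exists_md c
  refine ⟨p, a1, a2.trans' ((Ls.refl' _).add (Ls.refl' _)), ?_⟩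
  have t := a3 q
  unfold Cen
  rw [md_conj, ← hq]
  exact Ls.mono_left (le_add_of_nonneg_left (ln_nonneg _))
    (t.trans' ((Ls.refl' _).add (Ls.refl' _)))

end Pool.Agent.P.MP_dba3d2_lc
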