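import Pool.Agent.P.MP_dba3d2_lc.A.Bas1
import Pool.Agent.P.MP_dba3d2_lc.B.Iface
import Pool.Agent.P.MP_dba3d2_lc.B.Iface2
import Pool.Agent.P.MP_dba3d2_lc.B.Fix

/-! Step EXTGC of the stability project. -/

namespace Pool.Agent.P.MP_dba3d2_lc

open Filter

namespace ExtgcA

variable {Γ : HG} {a b : Amb} (E : Ext a b) {μ : a.K} {H : Subgroup (MM Γ a)}

theorem on_iff (p x y : MM Γ a) :
    On (E.kh μ) (E.hom Γ p) (E.hom Γ x) (E.hom Γ y) ↔ On μ p x y := by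
  simp only [On, E.ds_hom, ← map_add, ← map_sub, E.ll_iff]

theorem stab_iff (p q g : MM Γ a) :
    Stab (E.kh μ) (E.hom Γ p) (E.hom Γ q) (E.hom Γ g) ↔ Stab μ p q g := by
  simp only [Stab, ← map_mul, E.ds_hom, E.ll_iff]

theorem ep_iff (f c : MM Γ a) : E.hom Γ f ∈ Ep (E.hom Γ c) ↔ f ∈ Ep c := by
  simp only [mem_Ep, commute_iff_eq, ← map_pow, ← map_mul, E.hom_injective.eq_iff]

theorem per_hom {p q : MM Γ a} (h : Per μ p q) : Per (E.kh μ) (E.hom Γ p) (E.hom Γ q) := by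
  obtain ⟨g, h1, h2⟩ := h
  exact ⟨_, mt E.finOrder_iff.1 h1, (stab_iff E p q g).2 h2⟩

theorem apx (hA : S_B_APX) (hμ : Big μ) {h : MM Γ a} (hl : Ls (ln h) μ) {p : MM Γ b}
    (hp : On (E.kh μ) p 1 (E.hom Γ h)) : ∃ p0, On μ p0 1 h ∧ Ll (ds p (E.hom Γ p0)) (E.kh μ) :=
  hA Γ a b E μ 1 h p hμ (by rwa [ds_one_left]) (by rwa [map_one])

theorem nondeg (hμ : Big μ) {p q : MM Γ b} {p0 q0 : MM Γ a} (h : Ls (E.kh μ) (ds p q))
    (hp : Ll (ds p (E.hom Γ p0)) (E.kh μ)) (hq : Ll (ds q (E.hom Γ q0)) (E.kh μ)) :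
    Ls μ (ds p0 q0) := by
  rw [← E.ls_iff, ← E.ds_hom]
  refine h.of_le_add (hp.add hq) (E.big_iff.2 hμ).pos 1 ?_
  have h1 := ds_tri p (E.hom Γ p0) q
  have h2 := ds_tri (E.hom Γ p0) (E.hom Γ q0) q
  rw [ds_comm (E.hom Γ q0) q] at h2
  push_cast
  linarith

theorem stab_mem (hS : S_B_STX) (hH : GC0 H) (hμ : Big μ) {h p q : MM Γ a} (hh : h ∈ H)
    (hl : Ls (ln h) μ) (hp : On μ p 1 h) (hq : On μ q 1 h) (hn : Ls μ (ds p q))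
    (np : ¬ Per μ p q) {u : MM Γ b} (hu : Stab (E.kh μ) (E.hom Γ p) (E.hom Γ q) u) :
    u ∈ H.map (E.hom Γ) := by
  obtain ⟨r, s, h1, h2, h3, h4, h5⟩ := hS Γ a μ p q hμ hn np
  obtain ⟨u0, rfl, h6⟩ := h5 b E u hu
  have h7 := h6.ov (hp.conv hμ hq h1) (hp.conv hμ hq h2) h3
  rw [mul_one] at h7
  exact Subgroup.mem_map_of_mem _ (hH.g2 μ hμ h hh h hh hl hl u0 r s h7 h4)

theorem near {ν : b.K} {g p x y : MM Γ b} (h1 : Ll (ds p x) ν) (h2 : Ll (ds (g⁻¹ * p) y) ν) :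
    Ll (ds (g * y) x) ν := by
  refine Ll.mono_left ?_ (h2.add h1)
  have := ds_tri (g * y) p x
  rwa [← ds_mul_left g⁻¹ (g * y) p, inv_mul_cancel_left, ds_comm y] at this

theorem fixu {g : MM Γ b} {g0 p p' : MM Γ a} (h1 : Ll (ds (g * E.hom Γ p') (E.hom Γ p)) (E.kh μ))
    (h2 : Ll (ds (g0 * p') p) μ) :
    Ll (ds (E.hom Γ p) (g * (E.hom Γ g0)⁻¹ * E.hom Γ p)) (E.kh μ) := by
  rw [← E.ll_iff, ← E.ds_hom, map_mul] at h2
  refine Ll.mono_left ?_ (h1.add h2)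
  have := ds_tri (E.hom Γ p) (g * E.hom Γ p') (g * (E.hom Γ g0)⁻¹ * E.hom Γ p)
  rwa [ds_comm _ (g * E.hom Γ p'), mul_assoc, ds_mul_left, ← ds_mul_left (E.hom Γ g0) (E.hom Γ p'),
    mul_inv_cancel_left, ← mul_assoc] at this

theorem g2 (hA : S_B_APX) (hS : S_B_STX) (hH : GC0 H) (hμ : Big μ) {h h' : MM Γ a} (hh : h ∈ H)
    (hh' : h' ∈ H) (hl : Ls (ln h) μ) (hl' : Ls (ln h') μ) {g p q : MM Γ b}
    (ho : Ov (E.kh μ) p q 1 (E.hom Γ h) g (g * E.hom Γ h')) (np : ¬ Per (E.kh μ) p q) :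
    g ∈ H.map (E.hom Γ) := by
  obtain ⟨hn, o1, o2, o3, o4⟩ := ho
  have o5 := o3.mul g⁻¹
  have o6 := o4.mul g⁻¹
  rw [inv_mul_cancel, inv_mul_cancel_left] at o5 o6
  obtain ⟨p0, a1, b1⟩ := apx E hA hμ hl o1
  obtain ⟨q0, a2, b2⟩ := apx E hA hμ hl o2
  obtain ⟨p1, a3, b3⟩ := apx E hA hμ hl' o5
  obtain ⟨q1, a4, b4⟩ := apx E hA hμ hl' o6
  obtain ⟨g0, hg⟩ := exists_min_move p1 p0 q1 q0
  have c1 := near b1 b3
  have c2 := near b2 b4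
  have c3 := E.ll_iff.1 (Ll.mono_left (hg b E g) (c1.add c2))
  have d1 : Ll (ds (g0 * p1) p0) μ := Ll.mono_left (le_add_of_nonneg_right (ds_nonneg _ _)) c3
  have d2 : Ll (ds (g0 * q1) q0) μ := Ll.mono_left (le_add_of_nonneg_left (ds_nonneg _ _)) c3
  have n0 := nondeg E hμ hn b1 b2
  have np0 : ¬ Per μ p0 q0 := fun k =>
    np ((per_hom E k).congr (by rwa [ds_comm]) (by rwa [ds_comm]))
  have z : ∀ x : MM Γ a, Ll (ds x x) μ := fun x => by rw [ds_self]; exact Ll.zero hμ.pos.le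
  have e1 := (a3.mul g0).congr d1 (z _) (z _)
  have e2 := (a4.mul g0).congr d2 (z _) (z _)
  rw [mul_one] at e1 e2
  have m0 := hH.g2 μ hμ h hh h' hh' hl hl' g0 p0 q0 ⟨n0, a1, a2, e1, e2⟩ np0
  have m1 := stab_mem E hS hH hμ hh hl a1 a2 n0 np0 ⟨fixu E c1 d1, fixu E c2 d2⟩
  have := mul_mem m1 (Subgroup.mem_map_of_mem (E.hom Γ) m0)
  rwa [inv_mul_cancel_right] at this

theorem g20 (hA : S_B_APX) (hS : S_B_STX) (hH : GC0 H) (hμ : Big μ) {h : MM Γ a} (hh : h ∈ H)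
    (hl : Ls (ln h) μ) {p q : MM Γ b} (hn : Ls (E.kh μ) (ds p q))
    (o1 : On (E.kh μ) p 1 (E.hom Γ h)) (o2 : On (E.kh μ) q 1 (E.hom Γ h))
    (hp : Per (E.kh μ) p q) : ∃ c ∈ H.map (E.hom Γ), Prim c ∧ Stab (E.kh μ) p q c := by
  obtain ⟨p0, a1, b1⟩ := apx E hA hμ hl o1
  obtain ⟨q0, a2, b2⟩ := apx E hA hμ hl o2
  have n0 := nondeg E hμ hn b1 b2
  have k : Per μ p0 q0 := by
    by_contra np
    obtain ⟨r, s, -, -, -, h4, h5⟩ := hS Γ a μ p0 q0 hμ n0 np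
    obtain ⟨g, h1, h2⟩ := hp.congr b1 b2
    obtain ⟨u0, rfl, h6⟩ := h5 b E g h2
    exact h4 ⟨u0, mt E.finOrder_iff.2 h1, h6⟩
  obtain ⟨c, h1, h2, h3⟩ := hH.g20 μ hμ h hh hl p0 q0 n0 a1 a2 k
  exact ⟨_, Subgroup.mem_map_of_mem _ h1, E.prim_iff.2 h2,
    ((stab_iff E p0 q0 c).2 h3).congr (by rwa [ds_comm]) (by rwa [ds_comm])⟩

theorem sim {ν : b.K} (hν : Big ν) {h : MM Γ a} {p q : MM Γ b} (hl : Ls (ln (E.hom Γ h)) ν)
    (hn : Ls ν (ds p q)) (o1 : On ν p 1 (E.hom Γ h)) (o2 : On ν q 1 (E.hom Γ h)) :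
    Sim ν (E.kh (ln h)) ∧ Big (ln h) := by
  have k := o1.nondeg hν o2 hn
  rw [ds_one_left, E.ln_hom] at k
  rw [E.ln_hom] at hl
  exact ⟨⟨k, hl⟩, E.big_iff.1 (hν.of_ls k)⟩

theorem gc0 (hA : S_B_APX) (hS : S_B_STX) (hH : GC0 H) : GC0 (H.map (E.hom Γ)) where
  base := by
    rintro _ ⟨x, rfl⟩
    exact ⟨cst Γ a x, hH.base ⟨x, rfl⟩, rfl⟩
  g2 := by
    rintro ν hν _ ⟨h, hh, rfl⟩ _ ⟨h', hh', rfl⟩ hl hl' g p q ho np
    obtain ⟨s, hb⟩ := sim E hν hl ho.1 ho.2.1 ho.2.2.1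
    have h1 := (E.big_iff.2 hb).pos.le
    rw [E.ln_hom] at hl'
    exact g2 E hA hS hH hb hh hh' (Ls.refl' _) (E.ls_iff.1 (hl'.trans' s.1))
      ((s.ov_iff hν.pos.le h1).1 ho) (mt (s.per_iff hν.pos.le h1).2 np)
  g20 := by
    rintro ν hν _ ⟨h, hh, rfl⟩ hl p q hn o1 o2 hp
    obtain ⟨s, hb⟩ := sim E hν hl hn o1 o2
    have h1 := (E.big_iff.2 hb).pos.le
    obtain ⟨c, h2, h3, h4⟩ := g20 E hA hS hH hb hh (Ls.refl' _) (s.2.trans' hn)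
      ((s.on_iff hν.pos.le h1).1 o1) ((s.on_iff hν.pos.le h1).1 o2) ((s.per_iff hν.pos.le h1).1 hp)
    exact ⟨c, h2, h3, (s.stab_iff hν.pos.le h1).2 h4⟩
  ex := by
    rintro ν hν _ ⟨h, hh, rfl⟩ hl _ ⟨c, hc, rfl⟩ pc lc mc
    rcases ll_or_ls hν.pos (ln (E.hom Γ h) + ln (E.hom Γ c)) with k | k
    · refine ⟨1, one_mem _, one_mem _, Ll.mono_left ?_ k.two⟩
      rw [ds_one_left]
      linarith [ln_nonneg (E.hom Γ c), ln_nonneg ((E.hom Γ h)⁻¹ * E.hom Γ c * E.hom Γ h)]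
    · have s : Sim ν (E.kh (ln h + ln c)) := by
        rw [map_add, ← E.ln_hom, ← E.ln_hom]
        exact ⟨k, hl.add lc⟩
      have hb := hν.of_ls s.1
      rw [s.ll_iff hν.pos.le hb.pos.le, E.md_hom, E.ll_iff] at mc
      obtain ⟨f, h1, h2, h3⟩ := hH.ex _ (E.big_iff.1 hb) h hh
        (Ls.of_le (le_add_of_nonneg_right (ln_nonneg _))) c hc (E.prim_iff.1 pc)
        (Ls.of_le (le_add_of_nonneg_left (ln_nonneg _))) mc
      refine ⟨_, Subgroup.mem_map_of_mem _ h1, (ep_iff E f c).2 h2, ?_⟩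
      rw [s.ll_iff hν.pos.le hb.pos.le, ← map_inv, ← map_mul, ← map_mul, E.ds_hom, E.ln_hom,
        E.ln_hom, ← map_ofNat E.kh 2, ← map_mul, ← map_add, ← map_sub, E.ll_iff]
      exact h3
  pur := by
    rintro _ ⟨c, hc, rfl⟩ pc _ ⟨f, hf, rfl⟩ ef n hn
    obtain ⟨f', h1, h2, r, h3⟩ := hH.pur c hc (E.prim_iff.1 pc) f hf ((ep_iff E f c).1 ef) n hn
    refine ⟨_, Subgroup.mem_map_of_mem _ h1, (ep_iff E f' c).2 h2, r, ?_⟩
    rwa [← map_pow, ← map_pow, ← map_inv, ← map_mul, ← map_mul, E.finOrder_iff]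
  cen := by
    rintro _ ⟨c, hc, rfl⟩ _ ⟨c', hc', rfl⟩ n1 n2
    obtain ⟨p, h1, h2, h3⟩ := hH.cen c hc c' hc' (mt E.finOrder_iff.2 n1) (mt E.finOrder_iff.2 n2)
    obtain ⟨q0, -, h4⟩ := exists_min_disp c c'
    refine ⟨_, Subgroup.mem_map_of_mem _ h1, ?_, fun q => ?_⟩
    · rwa [E.ln_hom, E.ln_hom, E.ln_hom, ← map_add, E.ls_iff]
    · have h5 := h4 b E q
      simp only [ds_conj] at h5
      refine Ls.mono_right ?_ h5
      simp only [← map_inv, ← map_mul, E.ln_hom, ← map_add, E.ls_iff]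
      exact h3 q0

theorem finc (hH : FinC H) : FinC (H.map (E.hom Γ)) := by
  intro K hK hf
  obtain ⟨p, h1, h2⟩ := hH (K.comap (E.hom Γ))
    (fun x hx => by
      obtain ⟨y, hy, e⟩ := hK hx
      exact E.hom_injective e ▸ hy)
    (Finite.of_injective (fun x : K.comap (E.hom Γ) => (⟨E.hom Γ x, x.2⟩ : K))
      fun x y e => Subtype.ext (E.hom_injective (congrArg Subtype.val e)))
  refine ⟨_, Subgroup.mem_map_of_mem _ h1, fun k hk => ?_⟩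
  obtain ⟨y, -, rfl⟩ := hK hk
  obtain ⟨x, e⟩ := h2 y hk
  exact ⟨x, by rw [← map_inv, ← map_mul, ← map_mul, ← e, E.hom_cst]⟩

end ExtgcA

theorem p_EXTGC (hB_APX : S_B_APX) (hB_STX : S_B_STX) :
    S_EXTGC := fun _ _ _ E _ =>
  ⟨ExtgcA.gc0 E hB_APX hB_STX,
    fun h => ⟨ExtgcA.gc0 E hB_APX hB_STX h.toGC0, ExtgcA.finc E h.finc⟩⟩

end Pool.Agent.P.MP_dba3d2_lc
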