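import Pool.Agent.P.MP_dba3d2_lc.B.Iface
import Pool.Agent.P.MP_dba3d2_lc.A.Iface
import Pool.Agent.P.MP_dba3d2_lc.B.Iface2
import Pool.Agent.P.MP_dba3d2_lc.B.Axis2

/-! Step NORM of the stability project. -/

namespace Pool.Agent.P.MP_dba3d2_lc

open Filter

namespace NormA

variable {Γ : HG} {a : Amb} {H : Subgroup (MM Γ a)} {c c' y0 : MM Γ a}

theorem conj_le (y c : MM Γ a) : ln (y * c * y⁻¹) ≤ 2 * ln y + ln c := by
  have h1 := ln_mul_le (y * c) y⁻¹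
  have h2 := ln_mul_le y c
  rw [ln_inv] at h1
  linarith

theorem move (hE : S_ELEM) (hL : S_LINE) (hc : Prim c) (hc' : Prim c') {h f f' : MM Γ a}
    (hf : f ∈ Ep c) (hf' : f' ∈ Ep c') (q : MM Γ a) :
    Ls (ln ((f⁻¹ * q)⁻¹ * c * (f⁻¹ * q)) + ln ((f⁻¹ * q)⁻¹ * (h * c' * h⁻¹) * (f⁻¹ * q)))
      (ln (q⁻¹ * c * q) + ln (q⁻¹ * (f * h * f' * c' * (f * h * f')⁻¹) * q)) := by
  have h1 := hc.disp' hE hL (hc.conj' f).1 (Ep_conj_mem' hf).symm (f⁻¹ * q)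
  have h2 := (hc'.conj h).disp' hE hL ((hc'.conj f').conj h).1
    ((Ep_conj_iff h).2 (Ep_conj_mem hf').symm) (f⁻¹ * q)
  rw [ds_conj, ds_conj] at h1 h2
  rw [show (f⁻¹ * q)⁻¹ * (f⁻¹ * c * f) * (f⁻¹ * q) = q⁻¹ * c * q by group] at h1
  rw [show (f⁻¹ * q)⁻¹ * (h * (f' * c' * f'⁻¹) * h⁻¹) * (f⁻¹ * q) =
    q⁻¹ * (f * h * f' * c' * (f * h * f')⁻¹) * q by group] at h2
  exact (h1.mono_right (le_add_of_nonneg_right (ln_nonneg _))).add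
    (h2.mono_right (le_add_of_nonneg_left (ln_nonneg _)))

theorem step1 (hB : S_B_NM1) (hH : GC0 H) (m : c ∈ H) (hc : Prim c) (cc : Cen c) (hy : y0 ∈ H) :
    ∃ f ∈ H, f ∈ Ep c ∧ Ls (ln (f * y0)) (ln y0) ∧ NE c (f * y0)⁻¹ := by
  by_cases hA : Ll (md c) (ln y0)
  · obtain ⟨f, h1, h2, h3, h4⟩ := hB Γ a H hH c m hc cc y0⁻¹ (inv_mem hy)
    refine ⟨f⁻¹, inv_mem h1, inv_mem h2, ?_, by rwa [mul_inv_rev, inv_inv]⟩
    rw [← ln_inv, mul_inv_rev, inv_inv]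
    refine h3.trans' (Ls.mono_left (conj_le _ _) ?_)
    rw [ln_inv]
    exact (Ls.refl' _).two.add (Ls.trans' cc hA.ls)
  · refine ⟨1, one_mem _, one_mem _, by rw [one_mul]; exact Ls.refl' _, fun _ h => ?_⟩
    rw [one_mul, ln_inv] at h
    exact absurd h hA

theorem step2 (hE : S_ELEM) (hL : S_LINE) (hB : S_B_NM1) (hH : GC0 H) (m : c ∈ H) (m' : c' ∈ H)
    (hc : Prim c) (hc' : Prim c') (cc : Cen c) (cc' : Cen c') (hy : y0 ∈ H)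
    (hs : ∀ f ∈ Ep c, ∀ f' ∈ Ep c',
      Ls (ln y0) (ln c + ln (f * y0 * f' * c' * (f * y0 * f')⁻¹))) :
    ∃ f ∈ H, ∃ f' ∈ H, f ∈ Ep c ∧ f' ∈ Ep c' ∧ NE c (f * y0 * f')⁻¹ ∧ NE c' (f * y0 * f') ∧
      Ls (ln (f * y0 * f')) (ln y0) := by
  obtain ⟨f, f1, f2, f3, f4⟩ := step1 hB hH m hc cc hy
  have h0 := ln_nonneg y0
  by_cases hA : Ll (md c') (ln y0)
  swap
  · refine ⟨f, f1, 1, one_mem _, f2, one_mem _, ?_⟩
    rw [mul_one]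
    exact ⟨f4, fun _ h => absurd (h.ls_right f3 h0) hA, f3⟩
  obtain ⟨g, g1, g2, g3, g4⟩ := hB Γ a H hH c' m' hc' cc' (f * y0) (mul_mem f1 hy)
  have l' : Ll (ln c') (ln y0) := Ll.ls_left cc' hA
  have g5 : Ls (ln (f * y0 * g)) (ln y0) :=
    g3.trans' (Ls.mono_left (conj_le _ _) (f3.two.add l'.ls))
  refine ⟨f, f1, g, g1, f2, g2, fun hb hl hF => ?_, g4, g5⟩
  rw [ln_inv] at hb hl hF
  rw [inv_inv] at hF
  have hμ : Big (ln y0) := hb.of_ls g5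
  have hA' : Ll (md c) (ln y0) := hl.ls_right g5 h0
  have l : Ll (ln c) (ln y0) := Ll.ls_left cc hA'
  have key : ∀ f' ∈ Ep c', Ls (ln y0) (ln (f * y0 * f')) := fun f' hf' =>
    (hs f f2 f' hf').of_le_add (l.add l') hμ.pos 2 (by
      have := conj_le (f * y0 * f') c'
      push_cast
      linarith)
  have s1 : Sim (ln (f * y0 * g)) (ln y0) := ⟨g5, key g g2⟩
  have s2 : Sim (ln (f * y0)) (ln y0) := ⟨f3, by simpa using key 1 (one_mem _)⟩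
  have n1 := g4 hb ((s1.ll_iff (ln_nonneg _) h0).2 hA)
  rw [s1.fol_iff (ln_nonneg _) h0] at n1 hF
  have z1 := hc'.disp' hE hL (hc'.conj' g).1 (Ep_conj_mem' g2).symm g⁻¹
  rw [ds_conj (g⁻¹ * c' * g), show g⁻¹⁻¹ * (g⁻¹ * c' * g) * g⁻¹ = c' by group] at z1
  have o1 := (on_of_not_fol hμ l' n1 (Ll.ls_left z1 l')).mul (f * y0 * g)
  rw [mul_one, mul_inv_cancel, mul_inv_cancel_right] at o1
  refine f4 ?_ ?_ ?_ <;> rw [ln_inv]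
  · exact s2.big_iff.2 hμ
  · exact (s2.ll_iff (ln_nonneg _) h0).2 hA'
  · rw [inv_inv, s2.fol_iff (ln_nonneg _) h0]
    exact hF.mono o1

end NormA

theorem p_NORM (hELEM : S_ELEM) (hLINE : S_LINE) (hB_NM1 : S_B_NM1) :
    S_NORM := by
  intro Γ a H hH
  refine ⟨hB_NM1 Γ a H hH, fun c m c' m' hc hc' cc cc' h hh _ => ?_⟩
  obtain ⟨p, hp, -, hM⟩ := hH.cen c m (h * c' * h⁻¹) (mul_mem (mul_mem hh m') (inv_mem hh)) hc.1
    (hc'.conj h).1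
  obtain ⟨f1, a1, a2, a3, -⟩ := hB_NM1 Γ a H hH c m hc cc p⁻¹ (inv_mem hp)
  obtain ⟨f2, b1, b2, b3, -⟩ := hB_NM1 Γ a H hH c' m' hc' cc' (p⁻¹ * h) (mul_mem (inv_mem hp) hh)
  rw [inv_inv] at a3
  rw [show p⁻¹ * h * c' * (p⁻¹ * h)⁻¹ = p⁻¹ * (h * c' * h⁻¹) * p by group] at b3
  have h0 : Ls (ln (f1⁻¹ * h * f2)) (ln (p⁻¹ * c * p) + ln (p⁻¹ * (h * c' * h⁻¹) * p)) := by
    have := ln_mul_le (p⁻¹ * f1)⁻¹ (p⁻¹ * h * f2)
    rw [ln_inv, show (p⁻¹ * f1)⁻¹ * (p⁻¹ * h * f2) = f1⁻¹ * h * f2 by group] at this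
    exact Ls.mono_left this ((a3.mono_right (le_add_of_nonneg_right (ln_nonneg _))).add
      (b3.mono_right (le_add_of_nonneg_left (ln_nonneg _))))
  have e : ∀ f f' : MM Γ a, f * (f1⁻¹ * h * f2) * f' = f * f1⁻¹ * h * (f2 * f') := fun f f' => by
    group
  have h1 : ∀ f ∈ Ep c, ∀ f' ∈ Ep c', ∀ q : MM Γ a, Ls (ln (f1⁻¹ * h * f2)) (ln (q⁻¹ * c * q) +
      ln (q⁻¹ * (f * f1⁻¹ * h * (f2 * f') * c' * (f * f1⁻¹ * h * (f2 * f'))⁻¹) * q)) :=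
    fun f hf f' hf' q => (h0.trans' (hM _)).trans'
      (NormA.move hELEM hLINE hc hc' (mul_mem hf (inv_mem a2)) (mul_mem b2 hf') q)
  obtain ⟨f, k1, f', k2, k3, k4, k5, k6, k7⟩ := NormA.step2 hELEM hLINE hB_NM1 hH m m' hc hc' cc cc'
    (mul_mem (mul_mem (inv_mem a1) hh) b1) fun f hf f' hf' => by
      have := h1 f hf f' hf' 1
      rwa [inv_one, one_mul, one_mul, mul_one, mul_one, ← e] at this
  rw [e] at k5 k6 k7
  exact ⟨_, mul_mem k1 (inv_mem a1), _, mul_mem b1 k2, mul_mem k3 (inv_mem a2), mul_mem b2 k4,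
    k5, k6, fun q => k7.trans' (h1 f k3 f' k4 q)⟩

end Pool.Agent.P.MP_dba3d2_lc
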