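import Pool.Agent.P.MP_dba3d2_lc.B.Iface
import Pool.Agent.P.MP_dba3d2_lc.A.Iface
import Pool.Agent.P.MP_dba3d2_lc.B.Axis2

/-! Step NP of the stability project. -/

namespace Pool.Agent.P.MP_dba3d2_lc

open Filter

namespace Np

variable {Γ : HG} {a : Amb} {c w : MM Γ a}

theorem gap (hμ : Big (ln c)) (hm : Ls (ln c) (md c)) (h1 : On (ln c) w 1 c)
    (h2 : On (ln c) w c (c * c)) : Ls (ln c) (ln c - 2 * ds c w) := by
  refine (ll_or_ls hμ.pos _).resolve_left fun h => ?_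
  obtain ⟨m, e1, e2, e3⟩ := exists_mid 1 c
  have o : On (ln c) m 1 c := On.of_eq hμ.pos.le e1
  have o' := o.mul c
  rw [mul_one] at o'
  have e4 : ds c (c * m) = ds 1 m := by rw [← ds_mul_left c 1 m, mul_one]
  rw [ds_one_left c] at e1 e2 e3
  have e5 := ds_comm c m
  have t := hμ.ll_nat 2
  push_cast at t
  have a1 := (On.order hμ o.symm h1.symm (Ll.half (Ll.mono_left (by linarith) (h.add t)))).1
  have a2 := (On.order hμ o' h2 (Ll.half (Ll.mono_left (by linarith) h))).1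
  have a3 := On.close hμ a1 a2 (Ll.mono_left (by linarith) t)
    (Ll.of_nonpos (by linarith) hμ.pos.le)
  exact (Ll.mono_left (md_le_ds c m) a3).not_ls hμ.pos hm

theorem axis (hμ : Big (ln c)) (hm : Ls (ln c) (md c)) : ∃ π : MM Γ a,
    Ls (ln c) (ds π (c * π)) ∧ ∀ k i, i ≤ k + 1 → On (ln c) (c ^ i * π) 1 (c ^ (k + 1)) := by
  obtain ⟨w, e, hw⟩ := exists_median 1 c (c * c)
  obtain ⟨h3, h2⟩ := hw _ hμ
  have h1 : On (ln c) w 1 c := On.of_eq hμ.pos.le e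
  have hg := gap hμ hm h1 h2
  obtain ⟨π, rfl⟩ : ∃ π, w = c * π := ⟨c⁻¹ * w, (mul_inv_cancel_left _ _).symm⟩
  have h4 : On (ln c) π 1 c := (on_mul_iff c).1 (by rwa [mul_one])
  have e4 : ds c (c * π) = ds 1 π := by rw [← ds_mul_left c 1 π, mul_one]
  rw [ds_one_left c] at e
  have e5 := ds_comm c (c * π)
  have e6 := hg.pos hμ.pos
  obtain ⟨h5, h6⟩ := On.order hμ h4 h1 (Ll.of_nonpos (by linarith) hμ.pos.le)
  have h7 : Ls (ln c) (ds π (c * π)) := hg.mono_right (by linarith [ds_tri 1 π (c * π)])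
  have h8 := (((h3.sub h5).2).sub' (h6.mul c)).2
  have s : ∀ i : ℕ, ∀ x, c ^ i * (c * x) = c ^ (i + 1) * x := fun i x => by
    rw [pow_succ, mul_assoc]
  have b : ∀ i : ℕ, Ls (ln c) (ds (c ^ i * π) (c ^ (i + 1) * π)) := fun i => by
    rwa [← s, ds_mul_left]
  have c1 : ∀ i : ℕ, On (ln c) (c ^ i * π) 1 (c ^ (i + 1) * π) := fun i => by
    induction i with
    | zero => simpa using h5
    | succ i ih =>
      have := h8.mul (c ^ i)
      rw [s, s, s] at this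
      exact (On.glue hμ ih this (b i)).2
  refine ⟨π, h7, fun k i hi => ?_⟩
  induction hi using Nat.decreasingInduction with
  | self =>
    have := h6.mul (c ^ k)
    rw [s, ← pow_succ] at this
    exact (On.glue hμ (c1 k) this (b k)).2
  | of_succ i _ ih => exact (ih.sub (c1 i)).1

end Np

theorem p_NP (hELEM : S_ELEM) (hLINE : S_LINE) (hPERC : S_PERC) :
    S_NP := by
  intro Γ a c hc hμ k hk
  have h1 : Ls (ln c) (ln (c ^ k)) := by
    have := pow_disp hELEM hLINE hc.1 (show k ≠ 0 by omega) 1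
    rwa [ds_one_mul, ds_one_mul] at this
  refine ⟨h1, ?_⟩
  rintro ⟨d, hd, hs⟩
  have hg := (Ep_pow hELEM hc.1 (show k ≠ 0 by omega)).1
  rcases ll_or_ls hμ.pos (md c) with hm | hm
  · obtain ⟨q, hq⟩ := exists_md_ds c
    have h2 : Ll (md (c ^ k)) (ln c) := Ll.mono_left (md_le_ds _ q) (fix_pow (hq ▸ hm) k)
    obtain ⟨m, e1, -, e3, e4, -⟩ := exists_proj hμ h2 1
    rw [mul_one] at e1 e3
    have h3 := fix_conv hμ hs.1 hs.2 (On.of_eq hμ.pos.le e1)
    rw [ds_one_left (c ^ k)] at e3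
    have h4 : Ls (ln c) (ds 1 m) := h1.of_le_add (hμ.ll_nat 2) hμ.pos 2 (by exact_mod_cast e3)
    have h5 := inE_of_stab (g := c ^ k) hELEM hPERC hμ h4 hd ⟨hs.1, h3⟩
      ⟨by rw [mul_one]; exact hs.2, fix_congr h3 e4⟩
    have h6 := fix_of_fix hELEM hLINE hd (h5.mem hELEM hd hg) hs.1 h2
    rw [ds_one_mul] at h6
    exact h6.not_ls hμ.pos h1
  · obtain ⟨π, h2, h3⟩ := Np.axis hμ hm
    obtain ⟨k, rfl⟩ : ∃ j, k = j + 1 := ⟨k - 1, by omega⟩
    have f := fun i hi => fix_conv hμ hs.1 hs.2 (h3 k i hi)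
    have f0 := f 0 (by omega)
    have f1 := f 1 (by omega)
    have f2 := f 2 hk
    rw [pow_zero, one_mul] at f0
    rw [pow_one] at f1
    rw [pow_two, mul_assoc] at f2
    have h5 := inE_of_stab (g := c) hELEM hPERC hμ h2 hd ⟨f0, f1⟩ ⟨f1, f2⟩
    have h6 := hc.md_ls hELEM hLINE hd (Ep_eq hELEM hd (h5.mem hELEM hd hc.1) hc.1)
    exact (Ll.ls_left h6 hs.md).not_ls hμ.pos hm

end Pool.Agent.P.MP_dba3d2_lc
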