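import Pool.Agent.P.MP_dba3d2_lc.B.Iface
import Pool.Agent.P.MP_dba3d2_lc.A.Iface
import Pool.Agent.P.MP_dba3d2_lc.B.Iface2
import Pool.Agent.P.MP_dba3d2_lc.B.Axis2

/-! Step RIG of the stability project. -/

namespace Pool.Agent.P.MP_dba3d2_lc

open Filter

namespace Rig

variable {Γ : HG} {a : Amb} {H : Subgroup (MM Γ a)} {c d c' d' x : MM Γ a} {μ : a.K}

theorem key (hE : S_ELEM) (hL : S_LINE) (hc : Prim c) (hc' : Prim c') (h : Cj x c' c) :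
    Ls (ds x (c * x)) (ln c') := by
  have := hc.disp' hE hL (hc'.conj x).1 h.symm x
  rwa [inv_mul_cancel_right, ds_mul_right] at this

theorem axis (hE : S_ELEM) (hL : S_LINE) (hP : S_PERC) (hH : GC0 H) (hμ : Big μ) (m : c ∈ H)
    (m' : c' ∈ H) (hc : Prim c) (hc' : Prim c') (h : Cj x c' c) (l : Ls (ln c) μ)
    (l' : Ls (ln c') μ) (lx : Ls (ln x) μ) (hm : Ls μ (md c)) : x ∈ H := by
  obtain ⟨e1, e2⟩ := Ep_pow hE hc.1 (Nat.mul_pos Γ.good.pos Γ.good.pos).ne'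
  have l1 := Ls.mono_left (ln_pow_le c (Γ.e * Γ.e)) (l.nat_mul _)
  have l2 := Ls.mono_left (ln_pow_le c' (Γ.e * Γ.e)) (l'.nat_mul _)
  rcases h.pow hE hc hc' with e | e
  · exact hH.axis hE hL hP hμ (pow_mem m _) (pow_mem m' _) e l1 l2 lx e1 hc e2.symm hm
  · exact hH.axis hE hL hP hμ (pow_mem m _) (inv_mem (pow_mem m' _)) e l1 (by rwa [ln_inv]) lx e1
      hc e2.symm hm

theorem core (hE : S_ELEM) (hL : S_LINE) (hP : S_PERC) (hR : S_B_RG0) (hH : GC0 H) (mc : c ∈ H)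
    (md' : d ∈ H) (mc' : c' ∈ H) (md'' : d' ∈ H) (hc : Prim c) (hd : Prim d) (hc' : Prim c')
    (hd' : Prim d') (hne : Ep c ≠ Ep d) (h1 : Cj x c' c) (h2 : Cj x d' d)
    (z : ∀ q, Ls (ln c + ln d) (ds q (c * q) + ds q (d * q)))
    (z' : ∀ q, Ls (ln c' + ln d') (ds q (c' * q) + ds q (d' * q))) : x ∈ H := by
  have a1 : ∀ u v : MM Γ a, Ls (ln u) (ln u + ln v) := fun u v =>
    Ls.of_le (le_add_of_nonneg_right (ln_nonneg v))
  have a2 : ∀ u v : MM Γ a, Ls (ln v) (ln u + ln v) := fun u v =>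
    Ls.of_le (le_add_of_nonneg_left (ln_nonneg u))
  have b : Ls (ln c' + ln d') (ln c + ln d) := (z' x⁻¹).trans'
    (((key hE hL hc' hc h1.inv).trans' (a1 c d)).add ((key hE hL hd' hd h2.inv).trans' (a2 c d)))
  have lc' := (a1 c' d').trans' b
  have ld' := (a2 c' d').trans' b
  have o : 1 ≤ ln c + ln d :=
    le_add_of_le_of_nonneg ((one_le_md' hc.1).trans (md_le_ln c)) (ln_nonneg d)
  have lx : Ls (ln x) (ln c + ln d) := ls_of_scale o fun hb hl => hne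
    (Ep_eq_of_stab hE hP hb (p := 1) (q := x) (by rw [ds_one_left]; exact Ls.refl' _) hc.1 hd.1
      ⟨by rw [ds_one_mul]; exact hl.ls_left (a1 c d),
        hl.ls_left ((key hE hL hc hc' h1).trans' lc')⟩
      ⟨by rw [ds_one_mul]; exact hl.ls_left (a2 c d),
        hl.ls_left ((key hE hL hd hd' h2).trans' ld')⟩)
  by_cases hb : Big (ln c + ln d)
  · rcases ll_or_ls hb.pos (md c) with k1 | k1
    · rcases ll_or_ls hb.pos (md d) with k2 | k2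
      · exact hR Γ a H _ hH hb c mc d md' c' mc' d' md'' hc hd hc' hd' (a1 c d) (a2 c d) lc' ld'
          k1 k2 z x lx h1 h2
      · exact axis hE hL hP hH hb md' md'' hd hd' h2 (a2 c d) ld' lx k2
    · exact axis hE hL hP hH hb mc mc' hc hc' h1 (a1 c d) lc' lx k1
  · exact hH.of_not_big (not_big_of_ls lx hb)

theorem cen (hH : GC0 H) (mc : c ∈ H) (md' : d ∈ H) (hc : Prim c) (hd : Prim d) :
    ∃ p ∈ H, ∀ q, Ls (ln (p⁻¹ * c * p) + ln (p⁻¹ * d * p))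
      (ds q (p⁻¹ * c * p * q) + ds q (p⁻¹ * d * p * q)) := by
  obtain ⟨p, hp, -, h⟩ := hH.cen c mc d md' hc.1 hd.1
  refine ⟨p, hp, fun q => ?_⟩
  rw [disp_conj', disp_conj', ds_conj, ds_conj]
  exact h _

theorem one (hE : S_ELEM) (hL : S_LINE) (hP : S_PERC) (hT : S_ROOT) (hR : S_B_RG0) (hH : GC0 H)
    (mc : c ∈ H) (md' : d ∈ H) (mc' : c' ∈ H) (md'' : d' ∈ H) (hc : ¬ IsOfFinOrder c)
    (hd : ¬ IsOfFinOrder d) (hc' : ¬ IsOfFinOrder c') (hd' : ¬ IsOfFinOrder d')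
    (hne : Ep c ≠ Ep d) (h1 : Cj x c' c) (h2 : Cj x d' d) : x ∈ H := by
  obtain ⟨c0, m1, p1, e1⟩ := (hT Γ a H hH).1 c mc hc
  obtain ⟨d0, m2, p2, e2⟩ := (hT Γ a H hH).1 d md' hd
  obtain ⟨c1, m3, p3, e3⟩ := (hT Γ a H hH).1 c' mc' hc'
  obtain ⟨d1, m4, p4, e4⟩ := (hT Γ a H hH).1 d' md'' hd'
  obtain ⟨p, hp, z⟩ := cen hH m1 m2 p1 p2
  obtain ⟨p', hp', z'⟩ := cen hH m3 m4 p3 p4
  have k : ∀ {u v : MM Γ a}, u ∈ H → v ∈ H → u⁻¹ * v * u ∈ H := fun hu hv =>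
    mul_mem (mul_mem (inv_mem hu) hv) hu
  have := core hE hL hP hR hH (k hp m1) (k hp m2) (k hp' m3) (k hp' m4) (p1.conj' p) (p2.conj' p)
    (p3.conj' p') (p4.conj' p') (fun e => hne (e1.symm.trans (((Ep_conj_iff' p).1 e).trans e2)))
    ((h1.congr e3 e1).conj p p') ((h2.congr e4 e2).conj p p') z z'
  rwa [mul_mem_cancel_right hp', mul_mem_cancel_left (inv_mem hp)] at this

end Rig

theorem p_RIG (hELEM : S_ELEM) (hLINE : S_LINE) (hPERC : S_PERC) (hROOT : S_ROOT) (hB_RG0 : S_B_RG0) :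
    S_RIG := by
  intro Γ a H hH
  refine ⟨fun c mc d md' c' mc' d' md'' hc hd hc' hd' hne x h1 h2 =>
    Rig.one hELEM hLINE hPERC hROOT hB_RG0 hH mc md' mc' md'' hc hd hc' hd' hne h1 h2,
    fun c mc d md' hc hd hne f g hf hg m => ?_⟩
  have e : Cj f d (f * g * d * (f * g)⁻¹) := by
    have := (Cj.self (f * g) d).mul hg.inv.cj
    rwa [mul_inv_cancel_right] at this
  exact Rig.one hELEM hLINE hPERC hROOT hB_RG0 hH mc (mul_mem (mul_mem m md') (inv_mem m)) mc md'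
    hc (mt (finOrder_conj _ _).1 hd) hc hd
    (fun k => hne ((Ep_conj_iff f).1 (Eq.trans hf.cj (k.trans e.symm)))) hf.cj e

end Pool.Agent.P.MP_dba3d2_lc
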