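import Pool.Agent.P.MP_dba3d2_lc.B.Iface
import Pool.Agent.P.MP_dba3d2_lc.A.Iface
import Pool.Agent.P.MP_dba3d2_lc.B.Iface2
import Pool.Agent.P.MP_dba3d2_lc.B.Axis2

/-! Step ROOT of the stability project. -/

namespace Pool.Agent.P.MP_dba3d2_lc

open Filter

theorem p_ROOT (hELEM : S_ELEM) (hLINE : S_LINE) (hB_RT1 : S_B_RT1) (hB_RT2 : S_B_RT2) :
    S_ROOT := by
  intro Γ a H hH
  have r1 := hB_RT1 Γ a H hH
  have r2 := hB_RT2 Γ a H hH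
  have back : ∀ p ∈ H, ∀ p' ∈ H, ∀ x, p⁻¹ * x * p' ∈ H → x ∈ H := fun p hp p' hp' x h => by
    simpa [mul_assoc] using H.mul_mem (H.mul_mem hp h) (H.inv_mem hp')
  have cj : ∀ p ∈ H, ∀ x ∈ H, p⁻¹ * x * p ∈ H := fun p hp x hx =>
    H.mul_mem (H.mul_mem (H.inv_mem hp) hx) hp
  have r3 : ∀ c ∈ H, ¬ IsOfFinOrder c → ∀ f ∈ Ep c, IsOfFinOrder f → f ∈ H := by
    intro c hc ic f hf tf
    obtain ⟨c1, h1, p1, e1⟩ := r1 c hc ic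
    obtain ⟨p, hp, -, cp⟩ := hH.cen1 h1 p1.1
    have m : p⁻¹ * f * p ∈ Ep (p⁻¹ * c1 * p) := by
      rw [mem_Ep_conj', e1]; simpa [mul_assoc] using hf
    have l := tors_disp hLINE (p1.conj' p).1 m ((finOrder_conj' p f).2 tf) 1
    rw [ds_one_mul, ds_one_mul] at l
    exact back p hp p hp f ((r2 _ (cj p hp _ h1) _ (cj p hp _ h1) (p1.conj' p) (p1.conj' p) _
      (Cj.of_mem m)).2 cp cp (l.trans' cp))
  have r6 : ∀ c ∈ H, ∀ c' ∈ H, ¬ IsOfFinOrder c → ¬ IsOfFinOrder c' → ∀ x, Cj x c' c →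
      ∃ h ∈ H, x * h⁻¹ ∈ Ep c := by
    intro c hc c' hc' ic ic' x hx
    obtain ⟨c1, h1, p1, e1⟩ := r1 c hc ic
    obtain ⟨c1', h1', p1', e1'⟩ := r1 c' hc' ic'
    obtain ⟨p, hp, -, cp⟩ := hH.cen1 h1 p1.1
    obtain ⟨p', hp', -, cp'⟩ := hH.cen1 h1' p1'.1
    have j := (hx.congr e1' e1).conj p p'
    obtain ⟨k, hk⟩ := short_conj hELEM hLINE (p1.conj' p) (p1'.conj' p') cp cp' j
    have m := ipow_mem_Ep (p⁻¹ * c1 * p) k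
    have y := (r2 _ (cj p hp _ h1) _ (cj p' hp' _ h1') (p1.conj' p) (p1'.conj' p') _
      ((Cj.of_mem (inv_mem m)).mul j)).2 cp cp' hk
    refine ⟨_, H.mul_mem (H.mul_mem hp y) (H.inv_mem hp'), ?_⟩
    rw [mem_Ep_conj', e1] at m
    simpa [mul_assoc] using m
  refine ⟨r1, r2, r3, fun c hc ic c0 p0 e0 => ?_,
    fun c hc ic g hg => r6 c hc c hc ic ic g hg.cj, r6⟩
  obtain ⟨c1, h1, p1, e1⟩ := r1 c hc ic
  have m0 : c0⁻¹ ∈ Ep c := inv_mem (e0 ▸ self_mem_Ep c0)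
  have m1 : c1 ∈ Ep c := e1 ▸ self_mem_Ep c1
  rcases Prim.pm hELEM p1 p0 (e0.trans e1.symm) with t | t
  · exact inv_mem_iff.1 ((H.mul_mem_cancel_right h1).1 (r3 c hc ic _ (mul_mem m0 m1) t))
  · exact inv_mem_iff.1 ((H.mul_mem_cancel_right (inv_mem h1)).1
      (r3 c hc ic _ (mul_mem m0 (inv_mem m1)) t))

end Pool.Agent.P.MP_dba3d2_lc
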