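import Pool.Agent.P.MP_dba3d2_lc.A.Bas1
import Pool.Agent.P.MP_dba3d2_lc.A.Bas2
import Pool.Agent.P.MP_dba3d2_lc.A.Defs2

/-! Shared toolbox, part one: scales, displacement, algebra of elementary closures, minimisers. -/

namespace Pool.Agent.P.MP_dba3d2_lc

open Filter

section scales
variable {K : Type} [Field K] [LinearOrder K] [IsStrictOrderedRing K] {x y z μ ν : K}

theorem Big.ll_nat (h : Big μ) (n : ℕ) : Ll (n : K) μ :=
  h.ll_of_not_big fun e => by
  have := e (n + 1); push_cast at this; linarith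
theorem Big.ll_one (h : Big μ) : Ll 1 μ :=
  big_iff_ll.1 h
theorem Ll.zero (h : 0 ≤ μ) : Ll 0 μ :=
  Ll.of_nonpos le_rfl h
theorem Ls.zero (h : 0 ≤ μ) : Ls 0 μ :=
  Ls.of_le h
theorem Ls.pos (h : Ls μ y) (h0 : 0 < μ) : 0 < y := by
  obtain ⟨n, e⟩ := h
  exact pos_of_mul_pos_right (h0.trans_le e) n.cast_nonneg
/-- a negligible quantity is smaller than every quantity of the scale -/
theorem Ll.lt_of_ls (h : Ll x μ) (h' : Ls μ y) (h0 : 0 < μ) (n : ℕ) : n * x < y := by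
  obtain ⟨m, e⟩ := h'
  have y0 := Ls.pos ⟨m, e⟩ h0
  have a := h ((m + 1) * n)
  push_cast at a
  exact lt_of_mul_lt_mul_left (a := (m : K) + 1) (by linarith) (by positivity)
theorem Ls.of_le_add (h : Ls μ x) (h' : Ll y μ) (_h0 : 0 < μ) (n : ℕ) (e : x ≤ n * z + y) :
    Ls μ z := by
  obtain ⟨m, a⟩ := h
  have b := h' (2 * m)
  have c := mul_le_mul_of_nonneg_left e (m.cast_nonneg (α := K))
  refine ⟨2 * m * n, ?_⟩
  push_cast at b ⊢
  linarith
theorem Ll.two (h : Ll x μ) : Ll (2 * x) μ := by simpa using h.nat_mul 2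
theorem Ll.half (h : Ll (2 * x) μ) : Ll x μ := by
  rcases le_total x 0 with e | e
  · exact Ll.of_nonpos e h.nonneg
  · exact Ll.mono_left (by linarith) h
theorem Ls.two (h : Ls x μ) : Ls (2 * x) μ := by simpa using h.nat_mul 2
omit [IsStrictOrderedRing K] in
theorem Ll.max (h : Ll x μ) (h' : Ll y μ) : Ll (max x y) μ := by
  rcases max_choice x y with e | e <;> rwa [e]
omit [IsStrictOrderedRing K] in
theorem Ll.abs (h : Ll x μ) (h' : Ll (-x) μ) : Ll |x| μ :=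
  Ll.max h h'
theorem ll_irrefl (h : 0 < x) : ¬ Ll x x :=
  fun e => e.not_ls h (Ls.refl' x)
theorem ll_or_ls (h : 0 < μ) (x : K) : Ll x μ ∨ Ls μ x :=
  (em _).imp_right (not_ll_iff' h).1
/-- the scale argument -/
theorem ls_of_scale (hy : 1 ≤ y) (h : Big x → Ll y x → False) : Ls x y := by
  by_contra e
  have k : Ll y x := fun n => (not_le.1 fun a => e ⟨n, a⟩).le
  exact h (big_iff_ll.2 (k.mono_left hy)) k
theorem not_big_of_ls (h : Ls x y) (hy : ¬ Big y) : ¬ Big x :=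
  fun e => hy (e.of_ls h)
theorem not_big_add (hx : ¬ Big x) (hy : ¬ Big y) : ¬ Big (x + y) := by
  obtain ⟨n, a⟩ := not_big_iff.1 hx
  obtain ⟨m, b⟩ := not_big_iff.1 hy
  exact not_big_iff.2 ⟨n + m, by push_cast; linarith⟩
theorem not_big_nat (n : ℕ) : ¬ Big (n : K) :=
  not_big_iff.2 ⟨n + 1, by push_cast; linarith⟩
theorem Ls.add_cases (h : Ls μ (x + y)) : Ls μ x ∨ Ls μ y := by
  rcases le_total x y with e | e
  · exact Or.inr (h.trans' ⟨2, by push_cast; linarith⟩)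
  · exact Or.inl (h.trans' ⟨2, by push_cast; linarith⟩)
theorem Sim.ll_iff (h : Sim μ ν) (h0 : 0 ≤ μ) (h1 : 0 ≤ ν) : Ll x μ ↔ Ll x ν :=
  ⟨fun e => e.ls_right h.1 h1, fun e => e.ls_right h.2 h0⟩
theorem Sim.big_iff (h : Sim μ ν) : Big μ ↔ Big ν :=
  ⟨fun e => e.of_ls h.1, fun e => e.of_ls h.2⟩
/-- if `x` is at most `C / n` times the scale up to negligible errors, for all `n`, it is negligible -/
theorem ll_of_forall (h0 : 0 < μ) (h : ∀ n : ℕ, 0 < n → Ll (n * x - μ) μ) : Ll x μ :=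
  fun n => by
  rcases n.eq_zero_or_pos with rfl | hn
  · simpa using h0.le
  have := h (2 * n) (by omega) 1
  push_cast at this
  linarith
end scales

variable {Γ : HG} {a b : Amb} {μ ν : a.K} {c c' d f g h p q x y x' y' : MM Γ a}

theorem Big.ll_delta (hμ : Big μ) (Γ : HG) : Ll (Γ.δ : a.K) μ :=
  hμ.ll_nat _
theorem Sim.on_iff (s : Sim μ ν) (h0 : 0 ≤ μ) (h1 : 0 ≤ ν) : On μ p x y ↔ On ν p x y :=
  s.ll_iff h0 h1
theorem Sim.stab_iff (s : Sim μ ν) (h0 : 0 ≤ μ) (h1 : 0 ≤ ν) : Stab μ p q g ↔ Stab ν p q g :=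
  and_congr (s.ll_iff h0 h1) (s.ll_iff h0 h1)
theorem Sim.per_iff (s : Sim μ ν) (h0 : 0 ≤ μ) (h1 : 0 ≤ ν) : Per μ p q ↔ Per ν p q :=
  exists_congr fun _ => and_congr_right fun _ => s.stab_iff h0 h1
theorem Sim.ov_iff (s : Sim μ ν) (h0 : 0 ≤ μ) (h1 : 0 ≤ ν) :
    Ov μ p q x y x' y' ↔ Ov ν p q x y x' y' :=
  and_congr ⟨s.2.trans', s.1.trans'⟩ (and_congr (s.on_iff h0 h1) (and_congr (s.on_iff h0 h1)
    (and_congr (s.on_iff h0 h1) (s.on_iff h0 h1))))
theorem Sim.fol_iff (s : Sim μ ν) (h0 : 0 ≤ μ) (h1 : 0 ≤ ν) : Fol μ h c ↔ Fol ν h c :=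
  exists_congr fun _ => and_congr ⟨s.2.trans', s.1.trans'⟩
    (and_congr (s.on_iff h0 h1) (s.stab_iff h0 h1))

/-! displacement -/
theorem ds_conj (c p : MM Γ a) : ds p (c * p) = ln (p⁻¹ * c * p) := by rw [ds, mul_assoc]
theorem ds_one_mul (c : MM Γ a) : ds 1 (c * 1) = ln c := by rw [mul_one, ds_one_left]
theorem ds_mul_right (p c : MM Γ a) : ds p (p * c) = ln c := by rw [ds, inv_mul_cancel_left]
theorem ds_le_ln (x y : MM Γ a) : ds x y ≤ ln x + ln y := by simpa using ds_tri x 1 y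
theorem md_le_ds (c p : MM Γ a) : md c ≤ ds p (c * p) :=
  ds_conj c p ▸ md_le c p
theorem exists_md_ds (c : MM Γ a) : ∃ q, ds q (c * q) = md c :=
  (exists_md c).imp fun q h => (ds_conj c q).trans h
theorem md_conj' (g c : MM Γ a) : md (g * c * g⁻¹) = md c := by simpa using md_conj c g⁻¹
theorem one_le_md (h : c ≠ 1) : 1 ≤ md c := by
  obtain ⟨q, e⟩ := exists_md c
  refine e ▸ one_le_ln fun k => h ?_
  simpa [mul_assoc] using congrArg (fun z => q * z * q⁻¹) k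
theorem one_le_md' (h : ¬ IsOfFinOrder c) : 1 ≤ md c :=
  one_le_md fun e => h (e ▸ IsOfFinOrder.one)
theorem disp_le (c x z : MM Γ a) : ds x (c * x) ≤ 2 * ds x z + ds z (c * z) := by
  linarith [ds_tri x z (c * x), ds_tri z (c * z) (c * x), ds_mul_left c z x, ds_comm z x]
theorem disp_inv (c x : MM Γ a) : ds x (c⁻¹ * x) = ds x (c * x) := by rw [← ds_mul_left c, mul_inv_cancel_left, ds_comm]
theorem disp_mul (g h x : MM Γ a) : ds x (g * h * x) ≤ ds x (g * x) + ds x (h * x) := by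
  have := ds_tri x (g * x) (g * (h * x))
  rwa [ds_mul_left, ← mul_assoc] at this
theorem disp_pow (g x : MM Γ a) (n : ℕ) : ds x (g ^ n * x) ≤ n * ds x (g * x) := by
  induction n with
  | zero => simp
  | succ n ih =>
    have := disp_mul (g ^ n) g x
    rw [← pow_succ] at this
    push_cast
    linarith
theorem disp_conj (g c x : MM Γ a) : ds (g * x) (g * c * g⁻¹ * (g * x)) = ds x (c * x) := by
  rw [mul_assoc, inv_mul_cancel_left, mul_assoc, ds_mul_left]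
theorem disp_conj' (g c x : MM Γ a) : ds x (g⁻¹ * c * g * x) = ds (g * x) (c * (g * x)) := by
  rw [← ds_mul_left g, mul_assoc, mul_assoc, mul_inv_cancel_left]
theorem disp_comm (h : Commute g c) (x : MM Γ a) : ds (g * x) (c * (g * x)) = ds x (c * x) := by
  rw [← mul_assoc, ← h.eq, mul_assoc, ds_mul_left]
theorem ln_pow_le (g : MM Γ a) (n : ℕ) : ln (g ^ n) ≤ n * ln g := by simpa using disp_pow g 1 n

/-! exponents -/
theorem ipow_natCast (c : MM Γ a) (n : ℕ) : ipow c (n : a.Z) = c ^ n :=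
  Germ.inductionOn c fun f => Bas1.geq fun i => zpow_natCast (f i) n
theorem ipow_zero (c : MM Γ a) : ipow c 0 = 1 :=
  Germ.inductionOn c fun f => Bas1.geq fun i => zpow_zero (f i)
theorem ipow_one (c : MM Γ a) : ipow c 1 = c :=
  Germ.inductionOn c fun f => Bas1.geq fun i => zpow_one (f i)
theorem ipow_inv (c : MM Γ a) (k : a.Z) : ipow c⁻¹ k = ipow c (-k) :=
  Germ.inductionOn₂ c k fun f g => Bas1.geq fun i => inv_zpow' (f i) (g i)
theorem ipow_pow (c : MM Γ a) (k : a.Z) (n : ℕ) : ipow c k ^ n = ipow c (k * (n : a.Z)) := by rw [ipow_mul, ipow_natCast]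
theorem ds_ipow (c z : MM Γ a) (k l : a.Z) :
    ds (ipow c k * z) (ipow c l * z) = ds z (ipow c (l - k) * z) := by
  rw [sub_eq_neg_add, ipow_add, ipow_neg, mul_assoc, ← ds_mul_left (ipow c k) z,
    mul_inv_cancel_left]
theorem zK_sub (k l : a.Z) : zK (k - l) = zK k - zK l := by rw [sub_eq_add_neg, zK_add, zK_neg, sub_eq_add_neg]
theorem zK_natCast (n : ℕ) : zK (n : a.Z) = (n : a.K) :=
  rfl
theorem zK_zero : zK (0 : a.Z) = 0 := by simpa using zK_natCast (a := a) 0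
theorem one_le_abs_zK {k : a.Z} (h : k ≠ 0) : 1 ≤ |zK k| := by
  induction k using Germ.inductionOn with | h f => ?_
  rw [Germ.abs_def]
  refine Germ.coe_le.2 ((Ultrafilter.eventually_not.2 (mt Germ.coe_eq.2 h)).mono fun i hi => ?_)
  show (1 : ℝ) ≤ |(f i : ℝ)|
  exact_mod_cast Int.one_le_abs hi
theorem exists_int_of_not_big {k : a.Z} (h : ¬ Big |zK k|) : ∃ n : ℤ, k = (n : a.Z) := by
  obtain ⟨n, h⟩ := not_big_iff.1 h
  induction k using Germ.inductionOn with | h f => ?_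
  rw [Germ.abs_def] at h
  obtain ⟨x, -, hx⟩ := (Ultrafilter.eventually_exists_mem_iff (P := fun x i => f i = x)
    (Set.finite_Icc (-n : ℤ) n)).1 ((Germ.coe_le.1 h.le).mono fun i hi =>
      ⟨f i, abs_le.1 (by exact_mod_cast (show |(f i : ℝ)| ≤ n from hi)), rfl⟩)
  exact ⟨x, Germ.coe_eq.2 hx⟩
theorem unit_Z {k l : a.Z} (h : k * l = 1) : k = 1 ∨ k = -1 := by
  induction k using Germ.inductionOn with | h f => ?_
  induction l using Germ.inductionOn with | h g => ?_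
  exact (Ultrafilter.eventually_or.1 ((Germ.coe_eq.1 h).mono fun i hi =>
    Int.eq_one_or_neg_one_of_mul_eq_one hi)).imp Germ.coe_eq.2 Germ.coe_eq.2
theorem mul_ne_zero_Z {k l : a.Z} (hk : k ≠ 0) (hl : l ≠ 0) : k * l ≠ 0 :=
  fun e => by
  induction k using Germ.inductionOn with | h f => ?_
  induction l using Germ.inductionOn with | h g => ?_
  exact (Ultrafilter.eventually_or.1 ((Germ.coe_eq.1 e).mono fun i hi =>
    mul_eq_zero.1 hi)).elim (fun u => hk (Germ.coe_eq.2 u)) fun u => hl (Germ.coe_eq.2 u)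
theorem natCast_ne_zero_Z {n : ℕ} (h : n ≠ 0) : (n : a.Z) ≠ 0 :=
  fun e => by
  have := congrArg zK e
  rw [zK_natCast, zK_zero] at this
  exact h (Nat.cast_eq_zero.1 this)

/-! elementary closures -/
theorem finOrder_conj (g c : MM Γ a) : IsOfFinOrder (g * c * g⁻¹) ↔ IsOfFinOrder c :=
  (MulAut.conj g).injective.isOfFinOrder_iff (f := (MulAut.conj g).toMonoidHom)
theorem finOrder_conj' (g c : MM Γ a) : IsOfFinOrder (g⁻¹ * c * g) ↔ IsOfFinOrder c := by simpa using finOrder_conj g⁻¹ c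
theorem mem_Ep : f ∈ Ep c ↔ Commute f (c ^ Γ.e) :=
  Subgroup.mem_centralizer_singleton_iff
theorem self_mem_Ep (c : MM Γ a) : c ∈ Ep c :=
  mem_Ep.2 (Commute.self_pow _ _)
theorem ipow_mem_Ep (c : MM Γ a) (k : a.Z) : ipow c k ∈ Ep c :=
  mem_Ep.2 (commute_ipow (Commute.pow_self c _) k).symm
theorem Ep_inv (c : MM Γ a) : Ep c⁻¹ = Ep c :=
  Subgroup.ext fun _ => by
  rw [mem_Ep, mem_Ep, inv_pow, Commute.inv_right_iff]
theorem mem_Ep_conj : f ∈ Ep (g * c * g⁻¹) ↔ g⁻¹ * f * g ∈ Ep c := by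
  rw [mem_Ep, mem_Ep, conj_pow]
  exact ⟨fun e => by simpa [mul_assoc] using e.map (MulAut.conj g).symm,
    fun e => by simpa [mul_assoc] using e.map (MulAut.conj g)⟩
theorem mem_Ep_conj' : f ∈ Ep (g⁻¹ * c * g) ↔ g * f * g⁻¹ ∈ Ep c := by simpa using mem_Ep_conj (g := g⁻¹)
theorem Ep_conj_iff (g : MM Γ a) : Ep (g * c * g⁻¹) = Ep (g * d * g⁻¹) ↔ Ep c = Ep d := by
  refine ⟨fun e => Subgroup.ext fun f => ?_, fun e => Subgroup.ext fun f => by
    rw [mem_Ep_conj, mem_Ep_conj, e]⟩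
  have := SetLike.ext_iff.1 e (g * f * g⁻¹)
  rw [mem_Ep_conj, mem_Ep_conj] at this
  simpa [mul_assoc] using this
theorem Ep_conj_iff' (g : MM Γ a) : Ep (g⁻¹ * c * g) = Ep (g⁻¹ * d * g) ↔ Ep c = Ep d := by simpa using Ep_conj_iff (c := c) (d := d) g⁻¹
theorem Ep_conj_mem (h : f ∈ Ep c) : Ep (f * c * f⁻¹) = Ep c := by rw [Ep, conj_pow, (mem_Ep.1 h).eq, mul_inv_cancel_right, Ep]
theorem Ep_conj_mem' (h : f ∈ Ep c) : Ep (f⁻¹ * c * f) = Ep c := by simpa using Ep_conj_mem (inv_mem h)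
theorem Prim.conj (h : Prim c) (g : MM Γ a) : Prim (g * c * g⁻¹) :=
  ⟨mt (finOrder_conj g c).1 h.1, fun f hf => (h.2 _ (mem_Ep_conj.1 hf)).imp fun k e => by
    rw [ipow_conj]
    simpa [mul_assoc] using (finOrder_conj g _).2 e⟩
theorem Prim.conj' (h : Prim c) (g : MM Γ a) : Prim (g⁻¹ * c * g) := by simpa using h.conj g⁻¹
theorem Prim.inv (h : Prim c) : Prim c⁻¹ :=
  ⟨fun e => h.1 e.of_inv, fun f hf => by
    obtain ⟨k, e⟩ := h.2 f (Ep_inv c ▸ hf)
    exact ⟨-k, by rwa [ipow_inv, neg_neg]⟩⟩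
theorem InE.of_mem (h : g ∈ Ep c) : InE c g :=
  Or.inl (by rw [(mem_Ep.1 h).eq, mul_inv_cancel_right])
theorem InE.inv (h : InE c g) : InE c g⁻¹ := by
  rcases h with e | e
  · exact Or.inl (by nth_rw 1 [← e]; group)
  · refine Or.inr (inv_injective ?_)
    rw [inv_inv, inv_inv, mul_inv_rev, mul_inv_rev, inv_inv, ← e]; group
theorem InE.mul (h1 : InE c g) (h2 : InE c h) : InE c (g * h) := by
  have k : g * h * c ^ Γ.e * (g * h)⁻¹ = g * (h * c ^ Γ.e * h⁻¹) * g⁻¹ := by group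
  have k' : g * (c ^ Γ.e)⁻¹ * g⁻¹ = (g * c ^ Γ.e * g⁻¹)⁻¹ := by group
  rcases h1 with e | e <;> rcases h2 with e' | e' <;> simp only [InE, k, e', k', e, inv_inv] <;>
    simp
theorem InE.cj (h : InE c g) : Cj g c c := by
  rcases h with e | e
  · rw [Cj, Ep, conj_pow, e, Ep]
  · rw [Cj, Ep, conj_pow, e, ← inv_pow]; exact Ep_inv c
theorem Cj.self (x c : MM Γ a) : Cj x c (x * c * x⁻¹) :=
  rfl
theorem Cj.of_mem (h : f ∈ Ep c) : Cj f c c :=
  Ep_conj_mem h
theorem Cj.one_iff : Cj 1 c' c ↔ Ep c' = Ep c := by simp [Cj]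
theorem Cj.mul (h1 : Cj x c' c) (h2 : Cj y d c') : Cj (x * y) d c := by
  have := (Ep_conj_iff x).2 h2
  rw [Cj, ← h1, ← this]; congr 1; group
theorem Cj.inv (h : Cj x c' c) : Cj x⁻¹ c c' := by
  have := (Ep_conj_iff' x).2 h
  rw [Cj, inv_inv, ← this]; congr 1; group
theorem Cj.congr {d' : MM Γ a} (h : Cj x c' c) (h1 : Ep d' = Ep c') (h2 : Ep d = Ep c) :
    Cj x d' d :=
  ((Ep_conj_iff x).2 h1).trans (Eq.trans h h2.symm)
theorem Cj.conj (h : Cj x c' c) (p p' : MM Γ a) :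
    Cj (p⁻¹ * x * p') (p'⁻¹ * c' * p') (p⁻¹ * c * p) := by
  have := (Ep_conj_iff' p).2 h
  rw [Cj, ← this]; congr 1; group

/-! internal minimisers; they stay minimisers in every extension -/
theorem Sc.argmin {X : Type} [Nonempty X] (F : X → ℕ) : ∃ x, ∀ y, F x ≤ F y :=
  ⟨Function.argmin F, fun y => Function.argmin_le F y⟩
theorem exists_min_disp (c c' : MM Γ a) : ∃ q0 : MM Γ a,
    (∀ q, ds q0 (c * q0) + ds q0 (c' * q0) ≤ ds q (c * q) + ds q (c' * q)) ∧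
    ∀ (b : Amb) (E : Ext a b) (q : MM Γ b), E.kh (ds q0 (c * q0) + ds q0 (c' * q0)) ≤
      ds q (E.hom Γ c * q) + ds q (E.hom Γ c' * q) := by
  induction c using Germ.inductionOn with | h f => ?_
  induction c' using Germ.inductionOn with | h f' => ?_
  choose q0 hq using fun i => Sc.argmin fun q : Γ.G => Γ.len (q⁻¹ * (f i * q)) + Γ.len (q⁻¹ * (f' i * q))
  refine ⟨Germ.ofFun q0, fun q => ?_, fun b E q => ?_⟩
  · induction q using Germ.inductionOn with | h q => ?_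
    exact Bas1.gle fun i => show (Γ.len _ : ℝ) + Γ.len _ ≤ Γ.len _ + Γ.len _ by
      exact_mod_cast hq i (q i)
  · induction q using Germ.inductionOn with | h q => ?_
    exact Bas1.gle fun i => show (Γ.len _ : ℝ) + Γ.len _ ≤ Γ.len _ + Γ.len _ by
      exact_mod_cast hq (E.π i) (q i)
theorem exists_min_move (x y x' y' : MM Γ a) : ∃ g0 : MM Γ a,
    ∀ (b : Amb) (E : Ext a b) (g : MM Γ b), E.kh (ds (g0 * x) y + ds (g0 * x') y') ≤
      ds (g * E.hom Γ x) (E.hom Γ y) + ds (g * E.hom Γ x') (E.hom Γ y') := by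
  induction x using Germ.inductionOn with | h x => ?_
  induction y using Germ.inductionOn with | h y => ?_
  induction x' using Germ.inductionOn with | h x' => ?_
  induction y' using Germ.inductionOn with | h y' => ?_
  choose g0 hg using fun i => Sc.argmin fun g : Γ.G =>
    Γ.len ((g * x i)⁻¹ * y i) + Γ.len ((g * x' i)⁻¹ * y' i)
  refine ⟨Germ.ofFun g0, fun b E g => ?_⟩
  induction g using Germ.inductionOn with | h g => ?_
  exact Bas1.gle fun i => show (Γ.len _ : ℝ) + Γ.len _ ≤ Γ.len _ + Γ.len _ by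
    exact_mod_cast hg (E.π i) (g i)

end Pool.Agent.P.MP_dba3d2_lc
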