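import Pool.Agent.P.MP_dba3d2_lc.B.Iface
import Pool.Agent.P.MP_dba3d2_lc.A.Iface
import Pool.Agent.P.MP_dba3d2_lc.B.Axis2

/-! Step TRUNC of the stability project. -/

namespace Pool.Agent.P.MP_dba3d2_lc

open Filter

namespace Trunc

variable {Γ : HG} {a : Amb} {H W : Subgroup (MM Γ a)} {h w w' : MM Γ a}

theorem mem (hS : Sep H W) (hh : h ∈ H) (hw : w ∈ W) (e : Ls (ln h) (ln w)) : h ∈ W := by
  by_contra n
  exact (hS h hh n w hw).not_ls (one_pos.trans_le (one_le_ln fun k => n (k ▸ W.one_mem))) e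

theorem mem2 (hS : Sep H W) (hh : h ∈ H) (hw : w ∈ W) (hw' : w' ∈ W)
    (e : Ls (ln h) (ln w + ln w')) : h ∈ W :=
  e.add_cases.elim (mem hS hh hw) (mem hS hh hw')

end Trunc

theorem p_TRUNC (hELEM : S_ELEM) (hLINE : S_LINE) :
    S_TRUNC := by
  intro Γ a H W hH hW hS
  refine ⟨le_inf hH.base hW, ?_, ?_, ?_, ?_, ?_⟩
  · intro μ hμ h hh h' hh' l1 l2 g p q ho hn
    have hg := hH.g2 μ hμ h hh.1 h' hh'.1 l1 l2 g p q ho hn
    obtain ⟨o1, o2, o3, o4, -⟩ := ho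
    have a1 := o2.ls_left (by rwa [ds_one_left])
    have a2 := o4.ls_left (by rwa [ds_mul_right])
    have a3 := On.nondeg hμ o2 o3 o1
    rw [ds_one_left] at a3
    refine ⟨hg, Trunc.mem hS hg hh.2 (Ls.trans' (Ls.mono_left ?_ (a1.add a2)) a3)⟩
    have := ds_tri 1 p g
    rwa [ds_one_left g, ds_comm p g] at this
  · intro μ hμ h hh l1 p q o1 o2 o3 hp
    obtain ⟨c, hc, k1, k2⟩ := hH.g20 μ hμ h hh.1 l1 p q o1 o2 o3 hp
    have a1 := o2.ls_left (by rwa [ds_one_left])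
    have a3 := On.nondeg hμ o2 o3 o1
    rw [ds_one_left] at a3
    refine ⟨c, ⟨hc, Trunc.mem hS hc hh.2
      (Ls.trans' (Ls.mono_left ?_ (a1.two.add k2.1.ls)) a3)⟩, k1, k2⟩
    exact ds_one_mul c ▸ disp_le c 1 p
  · intro μ hμ h hh l1 c hc k1 l2 l3
    have n1 := ln_nonneg c
    have n2 := ln_nonneg (h⁻¹ * c * h)
    rcases ll_or_ls hμ.pos (ln c + ln h) with e | e
    · refine ⟨1, one_mem _, one_mem _, Ll.mono_left ?_ e.two⟩
      rw [ds_one_left]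
      linarith
    · obtain ⟨f, hf, k2, k3⟩ := hH.ex μ hμ h hh.1 l1 c hc.1 k1 l2 l3
      refine ⟨f, ⟨hf, Trunc.mem2 hS hf hc.2 hh.2
        (Ls.trans' (Ls.mono_left ?_ ((k3.ls.add l2.two).add (l1.two.add l1))) e)⟩, k2, k3⟩
      have b1 := ds_tri 1 h f
      rw [ds_one_left, ds_one_left, ds_comm] at b1
      have b2 := ln_mul_le (h⁻¹ * c) h
      have b3 := ln_mul_le h⁻¹ c
      rw [ln_inv] at b3
      linarith [ds_nonneg f h]
  · intro c hc k1 f hf k2 n hn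
    obtain ⟨f', hf', k3, r, k4⟩ := hH.pur c hc.1 k1 f hf.1 k2 n hn
    refine ⟨f', ⟨hf', ?_⟩, k3, r, k4⟩
    by_cases t : IsOfFinOrder f'
    · have := tors_disp hLINE k1.1 k3 t 1
      rw [ds_one_mul, ds_one_mul] at this
      exact Trunc.mem hS hf' hc.2 this
    · have b1 := pow_disp hELEM hLINE t hn.ne' 1
      have b2 := tors_disp hLINE k1.1 (mul_mem (inv_mem k2)
        (mul_mem (pow_mem k3 n) (pow_mem (self_mem_Ep c) r))) k4 1
      rw [ds_one_mul, ds_one_mul] at b1 b2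
      have n1 := ln_nonneg c
      have n2 := ln_nonneg f
      have b3 : Ls (ln c) (ln f + ln c) := Ls.of_le (by linarith)
      refine Trunc.mem2 hS hf' hf.2 hc.2 (b1.trans' (Ls.mono_left ?_
        (((Ls.of_le (by linarith : ln f ≤ ln f + ln c)).add (b2.trans' b3)).add (b3.nat_mul r))))
      have b4 := ln_mul_le (f * (f⁻¹ * (f' ^ n * c ^ r))) (c ^ r)⁻¹
      have b5 := ln_mul_le f (f⁻¹ * (f' ^ n * c ^ r))
      rw [mul_inv_cancel_left] at b4 b5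
      rw [mul_inv_cancel_right, ln_inv] at b4
      linarith [ln_pow_le c r]
  · intro c hc c' hc' k1 k2
    obtain ⟨p, hp, k3, k4⟩ := hH.cen c hc.1 c' hc'.1 k1 k2
    exact ⟨p, ⟨hp, Trunc.mem2 hS hp hc.2 hc'.2 k3⟩, k3, k4⟩

end Pool.Agent.P.MP_dba3d2_lc
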