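import Pool.Agent.P.MP_dba3d2_lc.B.Iface

/-! Step UNION of the stability project. -/

namespace Pool.Agent.P.MP_dba3d2_lc

open Filter

namespace UnionA

variable {G ι : Type} [Group G] [Nonempty ι] {H : ι → Subgroup G}

theorem one (hd : Directed (· ≤ ·) H) {x : G} (hx : x ∈ ⨆ i, H i) : ∃ i, x ∈ H i :=
  (Subgroup.mem_iSup_of_directed hd).1 hx

theorem two (hd : Directed (· ≤ ·) H) {x y : G} (hx : x ∈ ⨆ i, H i) (hy : y ∈ ⨆ i, H i) :
    ∃ i, x ∈ H i ∧ y ∈ H i := by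
  obtain ⟨i, hi⟩ := one hd hx
  obtain ⟨j, hj⟩ := one hd hy
  obtain ⟨k, h1, h2⟩ := hd i j
  exact ⟨k, h1 hi, h2 hj⟩

theorem fin (hd : Directed (· ≤ ·) H) {K : Subgroup G} (hK : K ≤ ⨆ i, H i) [Finite K] :
    ∃ i, K ≤ H i := by
  choose f hf using fun k : K => one hd (hK k.2)
  obtain ⟨i, hi⟩ := hd.finite_set_le (Set.finite_range f)
  exact ⟨i, fun k hk => hi _ ⟨⟨k, hk⟩, rfl⟩ (hf ⟨k, hk⟩)⟩

end UnionA

open UnionA in
theorem p_UNION :
    S_UNION := by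
  intro Γ a ι _ H hd
  have up : ∀ i, ∀ {x}, x ∈ H i → x ∈ ⨆ i, H i := fun i _ hx => le_iSup H i hx
  have h0 : (∀ i, GC0 (H i)) → GC0 (⨆ i, H i) := fun h =>
    { base := (h (Classical.arbitrary ι)).base.trans (le_iSup H _)
      g2 := fun μ hμ x hx y hy a1 a2 g p q a3 a4 => by
        obtain ⟨i, hx, hy⟩ := two hd hx hy
        exact up i ((h i).g2 μ hμ x hx y hy a1 a2 g p q a3 a4)
      g20 := fun μ hμ x hx a1 p q a2 a3 a4 a5 => by
        obtain ⟨i, hx⟩ := one hd hx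
        obtain ⟨c, hc, b⟩ := (h i).g20 μ hμ x hx a1 p q a2 a3 a4 a5
        exact ⟨c, up i hc, b⟩
      ex := fun μ hμ x hx a1 c hc a2 a3 a4 => by
        obtain ⟨i, hx, hc⟩ := two hd hx hc
        obtain ⟨f, hf, b⟩ := (h i).ex μ hμ x hx a1 c hc a2 a3 a4
        exact ⟨f, up i hf, b⟩
      pur := fun c hc a1 f hf a2 n hn => by
        obtain ⟨i, hc, hf⟩ := two hd hc hf
        obtain ⟨f', hf', b⟩ := (h i).pur c hc a1 f hf a2 n hn
        exact ⟨f', up i hf', b⟩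
      cen := fun c hc c' hc' a1 a2 => by
        obtain ⟨i, hc, hc'⟩ := two hd hc hc'
        obtain ⟨p, hp, b⟩ := (h i).cen c hc c' hc' a1 a2
        exact ⟨p, up i hp, b⟩ }
  refine ⟨h0, fun h => ⟨h0 fun i => (h i).toGC0, fun K hK hf => ?_⟩⟩
  obtain ⟨i, hi⟩ := fin hd hK
  obtain ⟨p, hp, b⟩ := (h i).finc K hi hf
  exact ⟨p, up i hp, b⟩

end Pool.Agent.P.MP_dba3d2_lc
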